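import Pool.Agent.TH937.ZC.Roc

/-!
# Morrey's problem for the functions `W(A) = a(det A / |A|) |A| + b(det A / |A|)`
-/

set_option autoImplicit false

namespace Pool.Agent.TH937.ZC

open MeasureTheory Set Filter Topology
open scoped ComplexConjugate
open Pool.Agent.W360.MQ (cab RankOneConvex Quasiconvex)

theorem gf_mirror (a b : ℝ → ℝ) (F : ℂ × ℂ) :
    gf (fun v => a (-v)) (fun v => b (-v)) F = gf a b (F.2, F.1) := by
  unfold gf
  simp only [neg_sub]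
  ring

theorem RCc_mirror {a b : ℝ → ℝ} (hR : RCc (gf a b)) :
    RCc (gf (fun v => a (-v)) (fun v => b (-v))) := by
  intro F H hH t h0 h1
  simp only [gf_mirror]
  have h := hR (F.2, F.1) (H.2, H.1) hH.symm t h0 h1
  exact h

theorem gf_cont {a b : ℝ → ℝ} (hR : RCc (gf a b)) : Continuous (gf a b) := by
  obtain ⟨ha, hb⟩ := gs_cont (fun s _ => cv_of hR s)
  unfold gf
  fun_prop

theorem AB {a b : ℝ → ℝ} (hR : RCc (gf a b)) {v A B : ℝ} (hA : HasDerivAt a A v)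
    (hB : HasDerivAt b B v) : |B| ≤ a v - v * A := by
  have h1 := X_nonneg hR hA hB
  have hA' : HasDerivAt (fun v => a (-v)) (-A) (-v) := by
    have h2 : HasDerivAt (fun v : ℝ => -v) (-1) (-v) := (hasDerivAt_id (-v)).neg
    have h3 := HasDerivAt.comp (h₂ := a) (-v) (by rw [neg_neg]; exact hA) h2
    refine h3.congr_deriv ?_
    ring
  have hB' : HasDerivAt (fun v => b (-v)) (-B) (-v) := by
    have h2 : HasDerivAt (fun v : ℝ => -v) (-1) (-v) := (hasDerivAt_id (-v)).neg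
    have h3 := HasDerivAt.comp (h₂ := b) (-v) (by rw [neg_neg]; exact hB) h2
    refine h3.congr_deriv ?_
    ring
  have h4 := X_nonneg (RCc_mirror hR) hA' hB'
  simp only [neg_neg] at h4
  rw [abs_le]
  constructor <;> linarith

theorem QL_pt_pos {a b : ℝ → ℝ} (hR : RCc (gf a b)) {F0 : ℂ × ℂ} (hv : 0 < ‖F0.1‖ - ‖F0.2‖)
    (hA : DifferentiableAt ℝ a (‖F0.1‖ - ‖F0.2‖)) (hB : DifferentiableAt ℝ b (‖F0.1‖ - ‖F0.2‖)) :
    QL (gf a b) F0 := by
  have hcv : ∀ s, 0 < s → ConvexOn ℝ (Icc (-s) s) (fun v => a v * s + b v) :=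
    fun s _ => cv_of hR s
  obtain ⟨ha, hb⟩ := gs_cont hcv
  have H : DH a b (‖F0.1‖ - ‖F0.2‖) (deriv a (‖F0.1‖ - ‖F0.2‖)) (deriv b (‖F0.1‖ - ‖F0.2‖)) :=
    ⟨hcv, conv_a hcv, ha, hb, hv, hA.hasDerivAt, hB.hasDerivAt⟩
  exact H.QLpos (AB hR hA.hasDerivAt hB.hasDerivAt) F0 rfl

theorem QL_pt {a b : ℝ → ℝ} (hR : RCc (gf a b)) {F0 : ℂ × ℂ} (hv : ‖F0.1‖ - ‖F0.2‖ ≠ 0)
    (hA : DifferentiableAt ℝ a (‖F0.1‖ - ‖F0.2‖)) (hB : DifferentiableAt ℝ b (‖F0.1‖ - ‖F0.2‖)) :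
    QL (gf a b) F0 := by
  rcases lt_or_gt_of_ne hv with h | h
  · have e : ‖((conj F0.2, conj F0.1) : ℂ × ℂ).1‖ - ‖((conj F0.2, conj F0.1) : ℂ × ℂ).2‖
        = -(‖F0.1‖ - ‖F0.2‖) := by
      simp only [Complex.norm_conj]; ring
    have h1 : QL (gf (fun v => a (-v)) (fun v => b (-v))) (conj F0.2, conj F0.1) := by
      apply QL_pt_pos (RCc_mirror hR)
      · rw [e]; linarith
      · rw [e]
        have h2 : DifferentiableAt ℝ (fun v : ℝ => -v) (-(‖F0.1‖ - ‖F0.2‖)) :=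
          differentiableAt_id.neg
        exact DifferentiableAt.comp (g := a) _ (by rw [neg_neg]; exact hA) h2
      · rw [e]
        have h2 : DifferentiableAt ℝ (fun v : ℝ => -v) (-(‖F0.1‖ - ‖F0.2‖)) :=
          differentiableAt_id.neg
        exact DifferentiableAt.comp (g := b) _ (by rw [neg_neg]; exact hB) h2
    have h3 := QL_swap (k := fun x y => a (-(x - y)) * (x + y) + b (-(x - y))) (F0 := F0) h1
    have e2 : gf a b = fun F : ℂ × ℂ => a (-(‖F.2‖ - ‖F.1‖)) * (‖F.2‖ + ‖F.1‖)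
        + b (-(‖F.2‖ - ‖F.1‖)) := by
      ext F
      unfold gf
      rw [neg_sub]
      ring
    rw [e2]
    exact h3
  · exact QL_pt_pos hR h hA hB

/-- moving `u_z` -/
theorem move (F0 : ℂ × ℂ) {d : ℝ} (hd : 0 ≤ d) :
    ∃ F1 : ℂ × ℂ, ‖F1 - F0‖ ≤ d ∧ ‖F1.1‖ - ‖F1.2‖ = ‖F0.1‖ - ‖F0.2‖ + d := by
  by_cases h : F0.1 = 0
  · refine ⟨((d : ℂ), F0.2), ?_, ?_⟩
    · rw [Prod.norm_def]
      simp [h, abs_of_nonneg hd, hd]
    · simp [h, abs_of_nonneg hd]; ring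
  · have h0 : 0 < ‖F0.1‖ := norm_pos_iff.2 h
    have hd' : 0 ≤ 1 + d / ‖F0.1‖ := by positivity
    refine ⟨(((1 + d / ‖F0.1‖ : ℝ) : ℂ) * F0.1, F0.2), ?_, ?_⟩
    · rw [Prod.norm_def]
      have e1 : ((1 + d / ‖F0.1‖ : ℝ) : ℂ) * F0.1 - F0.1 = ((d / ‖F0.1‖ : ℝ) : ℂ) * F0.1 := by
        push_cast; ring
      simp only [Prod.fst_sub, Prod.snd_sub, sub_self, norm_zero]
      rw [e1, norm_mul, Complex.norm_real, Real.norm_of_nonneg (by positivity)]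
      apply max_le _ hd
      apply le_of_eq
      field_simp
    · simp only
      rw [norm_mul, Complex.norm_real, Real.norm_of_nonneg hd']
      field_simp
      ring

theorem QL_gf {a b : ℝ → ℝ} (hR : RCc (gf a b)) (F0 : ℂ × ℂ) : QL (gf a b) F0 := by
  apply QL_closed (gf_cont hR)
  intro δ hδ
  obtain ⟨v, hv, hne, hA, hB⟩ := dense_diff (fun s _ => cv_of hR s) (‖F0.1‖ - ‖F0.2‖) δ hδ
  obtain ⟨F1, h1, h2⟩ := move F0 (d := v - (‖F0.1‖ - ‖F0.2‖)) (by linarith [hv.1])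
  have h3 : ‖F1.1‖ - ‖F1.2‖ = v := by rw [h2]; ring
  refine ⟨F1, lt_of_le_of_lt h1 (by linarith [hv.2]), ?_⟩
  apply QL_pt hR
  · rw [h3]; exact hne
  · rw [h3]; exact hA
  · rw [h3]; exact hB

open scoped Matrix.Norms.L2Operator in
theorem W_eq (a b : ℝ → ℝ) (A : Matrix (Fin 2) (Fin 2) ℝ) :
    a (A.det / ‖A‖) * ‖A‖ + b (A.det / ‖A‖) = gf a b (cab A) := by
  obtain ⟨h1, h2⟩ := Pool.Agent.W74.MQ.OPN.main A
  have h3 : A.det / ‖A‖ = ‖(cab A).1‖ - ‖(cab A).2‖ := by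
    rw [h1, h2]
    have n1 := norm_nonneg (cab A).1
    have n2 := norm_nonneg (cab A).2
    rcases eq_or_lt_of_le (add_nonneg n1 n2) with h | h
    · have e1 : ‖(cab A).1‖ = 0 := by linarith
      have e2 : ‖(cab A).2‖ = 0 := by linarith
      rw [e1, e2]; simp
    · rw [div_eq_iff h.ne']
      ring
  rw [h3, h1]
  rfl

open scoped Matrix.Norms.L2Operator in
/-- **the theorem** -/
theorem main (a b : ℝ → ℝ) (W : Matrix (Fin 2) (Fin 2) ℝ → ℝ)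
    (hW : ∀ A, W A = a (A.det / ‖A‖) * ‖A‖ + b (A.det / ‖A‖)) (hR : RankOneConvex W) :
    Quasiconvex W := by
  have e : W = fun A => gf a b (cab A) := by
    ext A
    rw [hW, W_eq]
  rw [e] at hR ⊢
  have h := RCc_of hR
  exact QL_om (gf_cont h) (QL_gf h)

end Pool.Agent.TH937.ZC
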