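import Pool.Agent.W360.MQ.Stm

/-!
# The kernel `(s - 1) (1 - v)_+` and its dual: algebra
-/

set_option autoImplicit false

namespace Pool.Agent.TH937.ZC

open Set

/-- the dual kernel, as a function of `x = |u_z|`, `y = |u_zbar|` -/
noncomputable def Zx (x y : ℝ) : ℝ := (x + y - 1) * max (1 - (x - y)) 0

/-- the kernel plus `1 + det` -/
noncomputable def Tx (x y : ℝ) : ℝ := 2 * x + (x + y - 1) * max (x - y - 1) 0

/-- the kernel of the first family plus one -/
noncomputable def Mx (x y : ℝ) : ℝ :=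
  max (x + y - 1) 0 + (1 / max 1 (x + y)) * (x ^ 2 - y ^ 2) + 1

theorem Z_eq (x y : ℝ) : Zx x y = Tx x y - 1 - (x ^ 2 - y ^ 2) := by
  unfold Zx Tx
  rcases le_total (x - y) 1 with h | h
  · rw [max_eq_left (by linarith : (0:ℝ) ≤ 1 - (x - y)), max_eq_right (by linarith)]
    ring
  · rw [max_eq_right (by linarith : 1 - (x - y) ≤ (0:ℝ)), max_eq_left (by linarith)]
    ring

theorem T_ge {x y : ℝ} (hy : 0 ≤ y) : 2 * x ≤ Tx x y := by
  unfold Tx
  rcases le_total (x - y) 1 with h | h
  · rw [max_eq_right (by linarith)]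
    simp
  · rw [max_eq_left (by linarith)]
    nlinarith

theorem T_low {x y : ℝ} (h : x - y ≤ 1) : Tx x y = 2 * x := by
  unfold Tx
  rw [max_eq_right (by linarith)]
  simp

theorem T_geJ {x y : ℝ} (hx : 0 ≤ x) (hy : 0 ≤ y) : x ^ 2 - y ^ 2 ≤ Tx x y := by
  rcases le_total (x - y) 1 with h | h
  · refine le_trans ?_ (T_ge hy)
    rcases le_total x y with h1 | h1
    · nlinarith
    · nlinarith
  · unfold Tx
    rw [max_eq_left (by linarith)]
    nlinarith

theorem M_high {x y : ℝ} (h : 1 ≤ x + y) : Mx x y = 2 * x := by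
  unfold Mx
  rw [max_eq_left (by linarith : (0:ℝ) ≤ x + y - 1), max_eq_right h]
  have : x + y ≠ 0 := by linarith
  field_simp
  ring

theorem M_low {x y : ℝ} (h : x + y ≤ 1) : Mx x y = 1 + (x ^ 2 - y ^ 2) := by
  unfold Mx
  rw [max_eq_right (by linarith : x + y - 1 ≤ (0:ℝ)), max_eq_left h]
  ring

theorem M_le {x y : ℝ} (hx : 0 ≤ x) (hy : 0 ≤ y) : Mx x y ≤ max (2 * x) 2 := by
  rcases le_total (x + y) 1 with h | h
  · rw [M_low h]
    refine le_trans ?_ (le_max_right _ _)
    nlinarith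
  · rw [M_high h]
    exact le_max_left _ _

theorem M_le' {x y : ℝ} (hx : 0 ≤ x) (hy : 0 ≤ y) : Mx x y ≤ 2 * x + 1 := by
  rcases le_total (x + y) 1 with h | h
  · rw [M_low h]
    nlinarith
  · rw [M_high h]
    linarith

theorem MT {x y : ℝ} (hy : 0 ≤ y) (hxy : y < x) :
    Mx (x / (x ^ 2 - y ^ 2)) (y / (x ^ 2 - y ^ 2)) = Tx x y / (x ^ 2 - y ^ 2) := by
  have hv : 0 < x - y := by linarith
  have hs : 0 < x + y := by linarith
  have hJ : x ^ 2 - y ^ 2 = (x + y) * (x - y) := by ring
  have e : x / (x ^ 2 - y ^ 2) + y / (x ^ 2 - y ^ 2) = 1 / (x - y) := by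
    rw [hJ]; field_simp
  rcases le_total (x - y) 1 with h | h
  · rw [M_high (by rw [e, le_div_iff₀ hv]; linarith), T_low h]
    ring
  · rw [M_low (by rw [e, div_le_iff₀ hv]; linarith)]
    unfold Tx
    rw [max_eq_left (by linarith : (0:ℝ) ≤ x - y - 1), hJ]
    field_simp
    ring

theorem cont_T : Continuous (fun F : ℂ × ℂ => Tx ‖F.1‖ ‖F.2‖) := by
  unfold Tx
  fun_prop

theorem cont_Z : Continuous (fun F : ℂ × ℂ => Zx ‖F.1‖ ‖F.2‖) := by
  unfold Zx
  fun_prop

theorem cont_M : Continuous (fun F : ℂ × ℂ => Mx ‖F.1‖ ‖F.2‖) := by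
  unfold Mx
  have h : ∀ F : ℂ × ℂ, max 1 (‖F.1‖ + ‖F.2‖) ≠ 0 := fun F =>
    (lt_of_lt_of_le one_pos (le_max_left _ _)).ne'
  fun_prop (disch := exact h)

noncomputable def αL (t : ℝ) : ℝ := max (t - 1) 0
noncomputable def βL (t : ℝ) : ℝ := 1 / max 1 t

theorem wfL (F : ℂ × ℂ) : Pool.Agent.W360.MQ.wf αL βL F = Mx ‖F.1‖ ‖F.2‖ - 1 := by
  unfold Pool.Agent.W360.MQ.wf αL βL Mx
  ring

theorem RCL : Pool.Agent.W360.MQ.RC αL βL := by
  intro τ
  have hlin : ConvexOn ℝ univ (fun t : ℝ => t * τ) := by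
    refine ⟨convex_univ, fun x _ y _ a b _ _ _ => ?_⟩
    simp only [smul_eq_mul]
    apply le_of_eq; ring
  have habs : ConvexOn ℝ univ (fun t : ℝ => |t + τ| - 1) := by
    refine ⟨convex_univ, fun x _ y _ a b ha hb hab => ?_⟩
    simp only [smul_eq_mul]
    have h1 : a * x + b * y + τ = a * (x + τ) + b * (y + τ) := by
      have : τ = (a + b) * τ := by rw [hab, one_mul]
      linarith [this, add_mul a b τ, mul_add a x τ, mul_add b y τ]
    rw [h1]
    have h2 := abs_add_le (a * (x + τ)) (b * (y + τ))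
    rw [abs_mul, abs_mul, abs_of_nonneg ha, abs_of_nonneg hb] at h2
    nlinarith
  have key : ∀ t : ℝ, 1 ≤ max |t| |τ| →
      αL (max |t| |τ|) + βL (max |t| |τ|) * (t * τ) = |t + τ| - 1 := by
    intro t h
    unfold αL βL
    rw [max_eq_left (by linarith : (0:ℝ) ≤ max |t| |τ| - 1), max_eq_right h]
    have hm : 0 < max |t| |τ| := by linarith
    have h3 : |t + τ| * max |t| |τ| = max |t| |τ| ^ 2 + t * τ := by
      rcases le_total |t| |τ| with h1 | h1
      · rw [max_eq_right h1, ← abs_mul, sq_abs, abs_of_nonneg]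
        · ring
        · have h2 : |t * τ| ≤ τ ^ 2 := by
            rw [abs_mul, ← sq_abs τ]; nlinarith [abs_nonneg τ]
          have h4 := neg_abs_le (t * τ)
          nlinarith
      · rw [max_eq_left h1, ← abs_mul, sq_abs, abs_of_nonneg]
        · ring
        · have h2 : |t * τ| ≤ t ^ 2 := by
            rw [abs_mul, ← sq_abs t]; nlinarith [abs_nonneg t]
          have h4 := neg_abs_le (t * τ)
          nlinarith
    have h4 : |t + τ| = (max |t| |τ| ^ 2 + t * τ) / max |t| |τ| := by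
      rw [eq_div_iff hm.ne', h3]
    rw [h4]
    field_simp
    ring
  have key2 : ∀ t : ℝ, max |t| |τ| ≤ 1 →
      αL (max |t| |τ|) + βL (max |t| |τ|) * (t * τ) = t * τ := by
    intro t h
    unfold αL βL
    rw [max_eq_right (by linarith : max |t| |τ| - 1 ≤ (0:ℝ)), max_eq_left h]
    ring
  rcases le_total |τ| 1 with h | h
  · have e : (fun t : ℝ => αL (max |t| |τ|) + βL (max |t| |τ|) * (t * τ)) =
        (fun t : ℝ => t * τ) ⊔ (fun t : ℝ => |t + τ| - 1) := by
      ext t
      simp only [Pi.sup_apply]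
      have hτ := abs_le.1 h
      rcases le_total |t| 1 with h1 | h1
      · rw [key2 t (max_le h1 h)]
        have ht := abs_le.1 h1
        symm
        apply max_eq_left
        rcases le_total 0 (t + τ) with h2 | h2
        · rw [abs_of_nonneg h2]
          nlinarith
        · rw [abs_of_nonpos h2]
          nlinarith
      · rw [key t (le_trans h1 (le_max_left _ _))]
        symm
        apply max_eq_right
        rcases le_total 0 t with h2 | h2
        · rw [abs_of_nonneg h2] at h1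
          rw [abs_of_nonneg (by linarith : 0 ≤ t + τ)]
          nlinarith
        · rw [abs_of_nonpos h2] at h1
          rw [abs_of_nonpos (by linarith : t + τ ≤ 0)]
          nlinarith
    rw [e]
    exact hlin.sup habs
  · have e : (fun t : ℝ => αL (max |t| |τ|) + βL (max |t| |τ|) * (t * τ)) =
        (fun t : ℝ => |t + τ| - 1) := by
      ext t
      exact key t (le_trans h (le_max_right _ _))
    rw [e]
    exact habs

end Pool.Agent.TH937.ZC
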