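import Mathlib

/-!
# A discrete supporting function for `a(v) s + b(v)`
-/

set_option autoImplicit false

namespace Pool.Agent.TH937.ZC

open Set Filter Topology

/-- conditions at the point `v0 > 0` -/
structure DH (a b : ℝ → ℝ) (v0 A B : ℝ) : Prop where
  cv : ∀ s, 0 < s → ConvexOn ℝ (Icc (-s) s) (fun v => a v * s + b v)
  ca : ConvexOn ℝ univ a
  ha : Continuous a
  hb : Continuous b
  pos : 0 < v0
  da : HasDerivAt a A v0
  db : HasDerivAt b B v0

namespace DH

variable {a b : ℝ → ℝ} {v0 A B : ℝ}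

/-- the nodes -/
noncomputable def e (v0 : ℝ) (N i : ℕ) : ℝ := v0 - i * (v0 / N)

/-- slopes of `a` -/
noncomputable def sl (f : ℝ → ℝ) (v0 A : ℝ) (N : ℕ) : ℕ → ℝ
  | 0 => A
  | i + 1 => (f (e v0 N i) - f (e v0 N (i + 1))) / (v0 / N)

theorem e_zero (N : ℕ) : e v0 N 0 = v0 := by simp [e]

theorem e_N {N : ℕ} (hN : 0 < N) : e v0 N N = 0 := by
  have : (N : ℝ) ≠ 0 := by exact_mod_cast hN.ne'
  unfold e; field_simp; ring

theorem e_succ (N i : ℕ) : e v0 N (i + 1) = e v0 N i - v0 / N := by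
  unfold e; push_cast; ring

theorem e_sub (N i j : ℕ) : e v0 N i - e v0 N j = ((j : ℝ) - i) * (v0 / N) := by
  unfold e; ring

theorem e_nonneg (h0 : 0 < v0) {N i : ℕ} (hN : 0 < N) (hi : i ≤ N) : 0 ≤ e v0 N i := by
  have hN' : (0 : ℝ) < N := by exact_mod_cast hN
  have h1 : (i : ℝ) ≤ N := by exact_mod_cast hi
  unfold e
  have : (i : ℝ) * (v0 / N) ≤ N * (v0 / N) := mul_le_mul_of_nonneg_right h1 (by positivity)
  have h2 : (N : ℝ) * (v0 / N) = v0 := by field_simp
  linarith

theorem e_pos (h0 : 0 < v0) {N i : ℕ} (hN : 0 < N) (hi : i < N) : 0 < e v0 N i := by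
  have h1 := e_nonneg h0 hN (i := i + 1) hi
  rw [e_succ] at h1
  have hN' : (0 : ℝ) < N := by exact_mod_cast hN
  have : 0 < v0 / N := by positivity
  linarith

theorem e_le (h0 : 0 < v0) {N i : ℕ} : e v0 N i ≤ v0 := by
  unfold e
  have : 0 ≤ (i : ℝ) * (v0 / N) := by positivity
  linarith

variable (H : DH a b v0 A B)
include H

theorem sl_anti {N : ℕ} (hN : 0 < N) {i : ℕ} :
    sl a v0 A N (i + 1) ≤ sl a v0 A N i := by
  have hN' : (0 : ℝ) < N := by exact_mod_cast hN
  have hd : 0 < v0 / N := div_pos H.pos hN'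
  have hv := H.pos.ne'
  cases i with
  | zero =>
    have h := H.ca.slope_le_of_hasDerivAt (mem_univ (e v0 N 1)) (mem_univ v0) (by
      rw [e_succ, e_zero]; linarith) H.da
    rw [slope_def_field] at h
    simp only [sl]
    rw [e_zero]
    have : v0 - e v0 N 1 = v0 / N := by rw [e_succ, e_zero]; ring
    rwa [this] at h
  | succ i =>
    have h := H.ca.slope_mono_adjacent (mem_univ (e v0 N (i + 1 + 1))) (mem_univ (e v0 N i))
      (y := e v0 N (i + 1)) (by rw [e_succ]; linarith) (by rw [e_succ]; linarith)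
    have e1 : e v0 N (i + 1) - e v0 N (i + 1 + 1) = v0 / N := by rw [e_succ N (i + 1)]; ring
    have e2 : e v0 N i - e v0 N (i + 1) = v0 / N := by rw [e_succ N i]; ring
    rw [e1, e2] at h
    exact h

theorem chain {N : ℕ} (hN : 0 < N) {i : ℕ} (hi : i < N) :
    sl b v0 B N (i + 1) ≤ sl b v0 B N i
      + (e v0 N i + v0 / N) * (sl a v0 A N i - sl a v0 A N (i + 1)) := by
  have hN' : (0 : ℝ) < N := by exact_mod_cast hN
  have hd : 0 < v0 / N := div_pos H.pos hN'
  have hv := H.pos.ne'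
  have hei := e_nonneg H.pos hN hi.le
  have hei1 := e_nonneg H.pos hN (i := i + 1) hi
  set s : ℝ := e v0 N i + v0 / N with hs
  have hs0 : 0 < s := by positivity
  have hcv := H.cv s hs0
  have m1 : e v0 N (i + 1) ∈ Icc (-s) s := by
    constructor
    · linarith
    · rw [e_succ]; linarith
  have m2 : e v0 N i ∈ Icc (-s) s := by
    constructor <;> linarith
  cases i with
  | zero =>
    have hder : HasDerivAt (fun v => a v * s + b v) (A * s + B) v0 :=
      (H.da.mul_const s).add H.db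
    rw [e_zero] at m2
    have h := hcv.slope_le_of_hasDerivAt m1 m2 (by rw [e_succ, e_zero]; linarith) hder
    rw [slope_def_field] at h
    have e3 : v0 - e v0 N (0 + 1) = v0 / N := by rw [e_succ, e_zero]; ring
    rw [e3, div_le_iff₀ hd] at h
    simp only [sl]
    rw [e_zero, div_le_iff₀ hd]
    have e4 : (B + s * (A - (a v0 - a (e v0 N (0 + 1))) / (v0 / ↑N))) * (v0 / ↑N)
        = (A * s + B) * (v0 / N) - s * (a v0 - a (e v0 N (0 + 1))) := by
      field_simp
      ring
    rw [e4]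
    linarith
  | succ i =>
    have m3 : e v0 N i ∈ Icc (-s) s := by
      have : e v0 N i = s := by rw [hs, e_succ]; ring
      rw [this]
      exact ⟨by linarith, le_rfl⟩
    have h := hcv.slope_mono_adjacent m1 m3
      (y := e v0 N (i + 1)) (by rw [e_succ N (i + 1)]; linarith) (by rw [e_succ]; linarith)
    have e1 : e v0 N (i + 1) - e v0 N (i + 1 + 1) = v0 / N := by rw [e_succ N (i + 1)]; ring
    have e2 : e v0 N i - e v0 N (i + 1) = v0 / N := by rw [e_succ N i]; ring
    rw [e1, e2, div_le_div_iff_of_pos_right hd] at h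
    simp only [sl]
    rw [div_le_iff₀ hd]
    have e4 : ((b (e v0 N i) - b (e v0 N (i + 1))) / (v0 / ↑N) + s *
        ((a (e v0 N i) - a (e v0 N (i + 1))) / (v0 / ↑N) -
          (a (e v0 N (i + 1)) - a (e v0 N (i + 1 + 1))) / (v0 / ↑N))) * (v0 / ↑N)
        = (b (e v0 N i) - b (e v0 N (i + 1))) + s * ((a (e v0 N i) - a (e v0 N (i + 1)))
          - (a (e v0 N (i + 1)) - a (e v0 N (i + 1 + 1)))) := by
      field_simp
    rw [e4]
    linarith

omit H in
/-- the weights -/
noncomputable def al (a : ℝ → ℝ) (v0 A : ℝ) (N i : ℕ) : ℝ := sl a v0 A N i - sl a v0 A N (i + 1)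

theorem al_nonneg {N : ℕ} (hN : 0 < N) (i : ℕ) : 0 ≤ al a v0 A N i :=
  sub_nonneg.2 (H.sl_anti hN)

omit H in
/-- the coefficient functions of the supporting function -/
noncomputable def At (a : ℝ → ℝ) (v0 A : ℝ) (N : ℕ) (v : ℝ) : ℝ :=
  a v0 + A * (v - v0) + ∑ i ∈ Finset.range N, al a v0 A N i * max (e v0 N i - v) 0

omit H in
noncomputable def Bt (a b : ℝ → ℝ) (v0 A B : ℝ) (N : ℕ) (v : ℝ) : ℝ :=
  b v0 + B * (v - v0) - ∑ i ∈ Finset.range N, al a v0 A N i * e v0 N i * max (e v0 N i - v) 0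

omit H in
theorem sum_al (N j : ℕ) : ∑ i ∈ Finset.range j, al a v0 A N i = A - sl a v0 A N j := by
  induction j with
  | zero => simp [sl]
  | succ j ih =>
    rw [Finset.sum_range_succ, ih]
    unfold al
    ring

omit H in
/-- evaluation of sums at nodes -/
theorem node_sum {N j : ℕ} (h0 : 0 < v0) (hj : j ≤ N) (w : ℕ → ℝ) :
    ∑ i ∈ Finset.range N, w i * max (e v0 N i - e v0 N j) 0
      = ∑ i ∈ Finset.range j, w i * (((j : ℝ) - i) * (v0 / N)) := by
  have hd : 0 ≤ v0 / N := by positivity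
  rw [← Finset.sum_subset (Finset.range_subset_range.2 hj)]
  · apply Finset.sum_congr rfl
    intro i hi
    have hi' : (i : ℝ) ≤ j := by exact_mod_cast (Finset.mem_range.1 hi).le
    rw [e_sub, max_eq_left (mul_nonneg (by linarith) hd)]
  · intro i _ hi
    have hi' : (j : ℝ) ≤ i := by exact_mod_cast not_lt.1 (fun h => hi (Finset.mem_range.2 h))
    rw [e_sub, max_eq_right (mul_nonpos_of_nonpos_of_nonneg (by linarith) hd), mul_zero]

omit H in
theorem node_succ {N j : ℕ} (w : ℕ → ℝ) :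
    ∑ i ∈ Finset.range (j + 1), w i * ((((j + 1 : ℕ) : ℝ) - i) * (v0 / N))
      = ∑ i ∈ Finset.range j, w i * (((j : ℝ) - i) * (v0 / N))
        + (v0 / N) * ∑ i ∈ Finset.range (j + 1), w i := by
  have h1 : ∑ i ∈ Finset.range (j + 1), w i * (((j : ℝ) - i) * (v0 / N))
      = ∑ i ∈ Finset.range j, w i * (((j : ℝ) - i) * (v0 / N)) := by
    rw [Finset.sum_range_succ]; simp
  rw [← h1, Finset.mul_sum, ← Finset.sum_add_distrib]
  apply Finset.sum_congr rfl
  intro i _
  push_cast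
  ring

theorem At_node {N : ℕ} (hN : 0 < N) {j : ℕ} (hj : j ≤ N) :
    At a v0 A N (e v0 N j) = a (e v0 N j) := by
  have hN' : (0 : ℝ) < N := by exact_mod_cast hN
  have hd : 0 < v0 / N := div_pos H.pos hN'
  have hv := H.pos.ne'
  unfold At
  rw [node_sum H.pos hj]
  induction j with
  | zero => simp [e_zero]
  | succ j ih =>
    have ih' := ih (Nat.le_of_succ_le hj)
    rw [node_succ, sum_al]
    have h1 : sl a v0 A N (j + 1) * (v0 / N) = a (e v0 N j) - a (e v0 N (j + 1)) := by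
      simp only [sl]; field_simp
    rw [e_succ] at *
    linarith

theorem Bt_node {N : ℕ} (hN : 0 < N) {Λ : ℝ} (hΛ : ∀ j, j ≤ N → A - sl a v0 A N j ≤ Λ)
    {j : ℕ} (hj : j ≤ N) :
    Bt a b v0 A B N (e v0 N j) ≤ b (e v0 N j) + j * ((v0 / N) ^ 2 * Λ) := by
  have hN' : (0 : ℝ) < N := by exact_mod_cast hN
  have hd : 0 < v0 / N := div_pos H.pos hN'
  have hv := H.pos.ne'
  unfold Bt
  rw [node_sum H.pos hj]
  -- the slopes
  have hsl : ∀ j, j ≤ N → sl b v0 B N j ≤ B + ∑ i ∈ Finset.range j, al a v0 A N i * e v0 N i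
      + (v0 / N) * ∑ i ∈ Finset.range j, al a v0 A N i := by
    intro j
    induction j with
    | zero => intro _; simp [sl]
    | succ j ih =>
      intro hj
      have h1 := ih (Nat.le_of_succ_le hj)
      have h2 := H.chain hN (i := j) hj
      rw [Finset.sum_range_succ, Finset.sum_range_succ]
      have h3 : (e v0 N j + v0 / ↑N) * (sl a v0 A N j - sl a v0 A N (j + 1))
          = al a v0 A N j * e v0 N j + v0 / N * al a v0 A N j := by
        unfold al; ring
      linarith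
  induction j with
  | zero => simp [e_zero]
  | succ j ih =>
    have ih' := ih (Nat.le_of_succ_le hj)
    have h4 := hsl (j + 1) hj
    have h5 := hΛ (j + 1) hj
    rw [sum_al] at h4
    rw [node_succ]
    have h1 : sl b v0 B N (j + 1) * (v0 / N) = b (e v0 N j) - b (e v0 N (j + 1)) := by
      simp only [sl]; field_simp
    have h6 : sl b v0 B N (j + 1) * (v0 / N) ≤ (B + ∑ i ∈ Finset.range (j + 1),
        al a v0 A N i * e v0 N i + (v0 / N) * Λ) * (v0 / N) := by
      apply mul_le_mul_of_nonneg_right _ hd.le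
      have := mul_le_mul_of_nonneg_left h5 hd.le
      linarith
    rw [h1] at h6
    have h7 : e v0 N (j + 1) - v0 = e v0 N j - v0 - v0 / N := by rw [e_succ]; ring
    rw [h7]
    push_cast
    nlinarith

omit H in
/-- affine between nodes -/
theorem mid {N j : ℕ} (h0 : 0 < v0) (hN : 0 < N) {θ : ℝ} (h1 : 0 ≤ θ) (h2 : θ ≤ 1) (i : ℕ) :
    max (e v0 N i - (e v0 N j - θ * (v0 / N))) 0
      = (1 - θ) * max (e v0 N i - e v0 N j) 0 + θ * max (e v0 N i - e v0 N (j + 1)) 0 := by
  have hN' : (0 : ℝ) < N := by exact_mod_cast hN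
  have hd : 0 < v0 / N := div_pos h0 hN'
  have e1 : e v0 N i - (e v0 N j - θ * (v0 / N)) = ((j : ℝ) - i + θ) * (v0 / N) := by
    have := e_sub (v0 := v0) N i j
    linarith
  rw [e1, e_sub, e_sub]
  rcases le_or_gt i j with h | h
  · have h' : (i : ℝ) ≤ j := by exact_mod_cast h
    rw [max_eq_left (mul_nonneg (by linarith) hd.le), max_eq_left (mul_nonneg (by linarith) hd.le),
      max_eq_left (mul_nonneg (by push_cast; linarith) hd.le)]
    push_cast
    ring
  · have h' : (j : ℝ) + 1 ≤ i := by exact_mod_cast h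
    rw [max_eq_right (mul_nonpos_of_nonpos_of_nonneg (by linarith) hd.le),
      max_eq_right (mul_nonpos_of_nonpos_of_nonneg (by linarith) hd.le),
      max_eq_right (mul_nonpos_of_nonpos_of_nonneg (by push_cast; linarith) hd.le)]
    ring

omit H in
theorem At_mid {N j : ℕ} (h0 : 0 < v0) (hN : 0 < N) {θ : ℝ} (h1 : 0 ≤ θ) (h2 : θ ≤ 1) :
    At a v0 A N (e v0 N j - θ * (v0 / N))
      = (1 - θ) * At a v0 A N (e v0 N j) + θ * At a v0 A N (e v0 N (j + 1)) := by
  unfold At
  simp only [mid h0 hN h1 h2, mul_add, Finset.sum_add_distrib]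
  have e1 : ∑ i ∈ Finset.range N, al a v0 A N i * ((1 - θ) * max (e v0 N i - e v0 N j) 0)
      = (1 - θ) * ∑ i ∈ Finset.range N, al a v0 A N i * max (e v0 N i - e v0 N j) 0 := by
    rw [Finset.mul_sum]; exact Finset.sum_congr rfl fun i _ => by ring
  have e2 : ∑ i ∈ Finset.range N, al a v0 A N i * (θ * max (e v0 N i - e v0 N (j + 1)) 0)
      = θ * ∑ i ∈ Finset.range N, al a v0 A N i * max (e v0 N i - e v0 N (j + 1)) 0 := by
    rw [Finset.mul_sum]; exact Finset.sum_congr rfl fun i _ => by ring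
  rw [e1, e2, e_succ]
  ring

omit H in
theorem Bt_mid {N j : ℕ} (h0 : 0 < v0) (hN : 0 < N) {θ : ℝ} (h1 : 0 ≤ θ) (h2 : θ ≤ 1) :
    Bt a b v0 A B N (e v0 N j - θ * (v0 / N))
      = (1 - θ) * Bt a b v0 A B N (e v0 N j) + θ * Bt a b v0 A B N (e v0 N (j + 1)) := by
  unfold Bt
  simp only [mid h0 hN h1 h2, mul_add, Finset.sum_add_distrib]
  have e1 : ∑ i ∈ Finset.range N, al a v0 A N i * e v0 N i
        * ((1 - θ) * max (e v0 N i - e v0 N j) 0)
      = (1 - θ) * ∑ i ∈ Finset.range N, al a v0 A N i * e v0 N i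
        * max (e v0 N i - e v0 N j) 0 := by
    rw [Finset.mul_sum]; exact Finset.sum_congr rfl fun i _ => by ring
  have e2 : ∑ i ∈ Finset.range N, al a v0 A N i * e v0 N i
        * (θ * max (e v0 N i - e v0 N (j + 1)) 0)
      = θ * ∑ i ∈ Finset.range N, al a v0 A N i * e v0 N i
        * max (e v0 N i - e v0 N (j + 1)) 0 := by
    rw [Finset.mul_sum]; exact Finset.sum_congr rfl fun i _ => by ring
  rw [e1, e2, e_succ]
  ring

omit H in
/-- every point of `[0, v0]` lies between two nodes -/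
theorem exnode {N : ℕ} (h0 : 0 < v0) (hN : 0 < N) {v : ℝ} (h1 : 0 ≤ v) (h2 : v ≤ v0) :
    ∃ j θ, j < N ∧ 0 ≤ θ ∧ θ ≤ 1 ∧ v = e v0 N j - θ * (v0 / N) := by
  have hN' : (0 : ℝ) < N := by exact_mod_cast hN
  have hd : 0 < v0 / N := div_pos h0 hN'
  rcases eq_or_lt_of_le h1 with h | h
  · refine ⟨N - 1, 1, by omega, by norm_num, le_rfl, ?_⟩
    have : e v0 N (N - 1 + 1) = 0 := by
      rw [Nat.sub_add_cancel hN]; exact e_N hN
    rw [e_succ] at this
    linarith
  · have hx : 0 ≤ (v0 - v) / (v0 / N) := div_nonneg (by linarith) hd.le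
    have hlt : (v0 - v) / (v0 / N) < N := by
      rw [div_lt_iff₀ hd]
      have : (N : ℝ) * (v0 / N) = v0 := by field_simp
      linarith
    refine ⟨⌊(v0 - v) / (v0 / N)⌋₊, (v0 - v) / (v0 / N) - ⌊(v0 - v) / (v0 / N)⌋₊, ?_, ?_, ?_, ?_⟩
    · exact (Nat.floor_lt hx).2 hlt
    · linarith [Nat.floor_le hx]
    · linarith [Nat.lt_floor_add_one ((v0 - v) / (v0 / N))]
    · unfold e
      field_simp
      ring

end DH

end Pool.Agent.TH937.ZC
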