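import Pool.Agent.TH937.ZC.Ql

/-!
# Closure properties of quasiconvexity at a point
-/

set_option autoImplicit false

namespace Pool.Agent.TH937.ZC

open MeasureTheory Set Filter Topology Metric
open scoped ComplexConjugate
open Pool.Agent.W488.IW (dz dzb)
open Pool.Agent.W918.MQ (DD DD_cont DD_zero LL)
open Pool.Agent.W360.MQ (QA wf cab Quasiconvex S_LIP)

/-- scaled kernels -/
noncomputable def Zk (c x y : ℝ) : ℝ := (x + y - c) * max (c - (x - y)) 0

theorem dz_smul {f : ℂ → ℂ} (r : ℝ) (z : ℂ) : dz (fun z => r • f z) z = r • dz f z := by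
  unfold dz
  have h1 : fderiv ℝ (r • f) = r • fderiv ℝ f := fderiv_const_smul_field r
  have : fderiv ℝ (fun z => r • f z) z = r • fderiv ℝ f z := congrFun h1 z
  rw [this]
  simp only [_root_.smul_apply, Complex.real_smul]
  ring

theorem dzb_smul {f : ℂ → ℂ} (r : ℝ) (z : ℂ) : dzb (fun z => r • f z) z = r • dzb f z := by
  unfold dzb
  have h1 : fderiv ℝ (r • f) = r • fderiv ℝ f := fderiv_const_smul_field r
  have : fderiv ℝ (fun z => r • f z) z = r • fderiv ℝ f z := congrFun h1 z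
  rw [this]
  simp only [_root_.smul_apply, Complex.real_smul]
  ring

theorem QL_Zk {c : ℝ} (hc : 0 < c) (F0 : ℂ × ℂ) : QL (fun F => Zk c ‖F.1‖ ‖F.2‖) F0 := by
  intro f ⟨K, hf⟩ hcs
  have hg : LipschitzWith (‖c⁻¹‖₊ * K) (fun z => c⁻¹ • f z) := by
    refine LipschitzWith.of_dist_le_mul fun x y => ?_
    rw [dist_eq_norm, ← smul_sub, norm_smul, NNReal.coe_mul, coe_nnnorm, mul_assoc, ← dist_eq_norm]
    exact mul_le_mul_of_nonneg_left (hf.dist_le_mul x y) (norm_nonneg _)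
  have h := Z_QL (c⁻¹ • F0) (fun z => c⁻¹ • f z) ⟨_, hg⟩ (hcs.smul_left (f := fun _ => c⁻¹))
  have key : ∀ x y : ℝ, Zk c x y = c ^ 2 * Zx (c⁻¹ * x) (c⁻¹ * y) := by
    intro x y
    unfold Zk Zx
    have e1 : c - (x - y) = c * (1 - (c⁻¹ * x - c⁻¹ * y)) := by field_simp
    rw [e1, show max (c * (1 - (c⁻¹ * x - c⁻¹ * y))) 0
      = c * max (1 - (c⁻¹ * x - c⁻¹ * y)) 0 by
        rw [mul_max_of_nonneg _ _ hc.le, mul_zero]]
    field_simp
  have h2 := mul_nonneg (sq_nonneg c) h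
  rw [← integral_const_mul] at h2
  refine h2.trans (le_of_eq ?_)
  refine integral_congr_ae (Eventually.of_forall fun z => ?_)
  simp only
  rw [dz_smul, dzb_smul, key, key]
  have e1 : c⁻¹ • F0 + (c⁻¹ • dz f z, c⁻¹ • dzb f z) = c⁻¹ • (F0 + (dz f z, dzb f z)) := by
    rw [smul_add]; rfl
  rw [e1]
  simp only [Prod.smul_fst, Prod.smul_snd, norm_smul, Real.norm_of_nonneg (inv_nonneg.2 hc.le)]
  ring

theorem cont_Zk (c : ℝ) : Continuous (fun F : ℂ × ℂ => Zk c ‖F.1‖ ‖F.2‖) := by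
  unfold Zk
  fun_prop

theorem dz_conj (f : ℂ → ℂ) (z : ℂ) : dz (fun z => conj (f z)) z = conj (dzb f z) := by
  unfold dz dzb
  have : fderiv ℝ (fun z => conj (f z)) z = (Complex.conjCLE : ℂ →L[ℝ] ℂ).comp (fderiv ℝ f z) :=
    (Complex.conjCLE).comp_fderiv (f := f) (x := z)
  rw [this]
  simp only [ContinuousLinearMap.comp_apply, ContinuousLinearEquiv.coe_coe, Complex.conjCLE_apply,
    map_mul, map_add, map_sub, map_div₀, map_one, Complex.conj_I, Complex.conj_ofNat]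
  ring

theorem dzb_conj (f : ℂ → ℂ) (z : ℂ) : dzb (fun z => conj (f z)) z = conj (dz f z) := by
  unfold dz dzb
  have : fderiv ℝ (fun z => conj (f z)) z = (Complex.conjCLE : ℂ →L[ℝ] ℂ).comp (fderiv ℝ f z) :=
    (Complex.conjCLE).comp_fderiv (f := f) (x := z)
  rw [this]
  simp only [ContinuousLinearMap.comp_apply, ContinuousLinearEquiv.coe_coe, Complex.conjCLE_apply,
    map_mul, map_add, map_sub, map_div₀, map_one, Complex.conj_I, Complex.conj_ofNat]
  ring

theorem QL_swap {k : ℝ → ℝ → ℝ} {F0 : ℂ × ℂ}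
    (h : QL (fun F => k ‖F.1‖ ‖F.2‖) (conj F0.2, conj F0.1)) :
    QL (fun F => k ‖F.2‖ ‖F.1‖) F0 := by
  intro f ⟨K, hf⟩ hcs
  have hg : LipschitzWith K (fun z => conj (f z)) := by
    refine LipschitzWith.of_dist_le_mul fun x y => ?_
    rw [dist_eq_norm, ← map_sub, Complex.norm_conj, ← dist_eq_norm]
    exact hf.dist_le_mul x y
  have hgc : HasCompactSupport (fun z => conj (f z)) := by
    refine hcs.mono' ?_
    intro z hz
    apply subset_tsupport
    intro h0
    apply hz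
    simp [h0]
  have h1 := h (fun z => conj (f z)) ⟨K, hg⟩ hgc
  refine h1.trans (le_of_eq ?_)
  refine integral_congr_ae (Eventually.of_forall fun z => ?_)
  simp only [dz_conj, dzb_conj, Prod.fst_add, Prod.snd_add, ← map_add, Complex.norm_conj]

open Pool.Agent.W523.MQ.OM in
/-- the passage to matrices and open sets -/
theorem QL_om {w : ℂ × ℂ → ℝ} (hw : Continuous w) (hQ : ∀ F0, QL w F0) :
    Quasiconvex (fun A => w (cab A)) := by
  intro F₀ Ω hΩ hΩb ϑ hϑ h0
  obtain ⟨K, hK⟩ := hϑ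
  -- the map on the complex plane
  have hfl : ∃ K', LipschitzWith K' (fo ϑ) :=
    ⟨_, (L.symm.lipschitz).comp (hK.comp L.lipschitz)⟩
  have hfc : HasCompactSupport (fo ϑ) := by
    have hcK : IsCompact (L.symm '' (closure Ω)) :=
      (hΩb.isCompact_closure).image L.symm.continuous
    refine HasCompactSupport.intro hcK ?_
    intro z hz
    have : L z ∉ Ω := by
      intro hmem
      exact hz ⟨L z, subset_closure hmem, L.symm_apply_apply z⟩
    simp [fo, h0 _ this]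
  have hpos := hQ (cab F₀) (fo ϑ) hfl hfc
  -- the integrand
  set G : (Fin 2 → ℝ) → ℝ := fun x => w (T F₀ (fderiv ℝ ϑ x)) - w (cab F₀) with hG
  have hGL : ∀ z : ℂ, w (cab F₀ + (dz (fo ϑ) z, dzb (fo ϑ) z)) - w (cab F₀) = G (L z) := by
    intro z
    simp only [hG, T]
    rw [cab_fderiv, cab_add]
  have hint : ∫ z : ℂ, G (L z) = ∫ x : Fin 2 → ℝ, G x :=
    Complex.volume_preserving_equiv_pi.integral_comp' G
  simp only [hGL] at hpos
  rw [hint] at hpos
  have hzero : ∀ᵐ x : Fin 2 → ℝ, x ∉ Ω → G x = 0 := by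
    filter_upwards [Pool.Agent.W523.MQ.ZERO.main ϑ ⟨K, hK⟩] with x hx hxΩ
    have := hx (h0 x hxΩ)
    simp [hG, T, this]
  rw [← setIntegral_eq_integral_of_ae_compl_eq_zero hzero] at hpos
  -- integrability
  have hbd : ∃ C, ∀ x, ‖w (T F₀ (fderiv ℝ ϑ x))‖ ≤ C := by
    have hc : IsCompact (Metric.closedBall (0 : (Fin 2 → ℝ) →L[ℝ] (Fin 2 → ℝ)) K) :=
      isCompact_closedBall _ _
    obtain ⟨C, hC⟩ := hc.exists_bound_of_continuousOn
      ((hw.comp (T_cont F₀)).continuousOn (s := Metric.closedBall 0 (K : ℝ)))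
    refine ⟨C, fun x => hC _ ?_⟩
    rw [mem_closedBall_zero_iff]
    exact norm_fderiv_le_of_lipschitz ℝ hK
  obtain ⟨C, hC⟩ := hbd
  have hmeas : Measurable (fun x => w (T F₀ (fderiv ℝ ϑ x))) :=
    (hw.comp (T_cont F₀)).measurable.comp (measurable_fderiv ℝ ϑ)
  have hfin : volume Ω < ⊤ := hΩb.measure_lt_top
  have hI1 : IntegrableOn (fun x => w (T F₀ (fderiv ℝ ϑ x))) Ω :=
    Measure.integrableOn_of_bounded hfin.ne hmeas.aestronglyMeasurable
      (Filter.Eventually.of_forall hC)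
  have hI2 : IntegrableOn (fun _ : Fin 2 → ℝ => w (cab F₀)) Ω :=
    integrableOn_const hfin.ne
  rw [hG, integral_sub hI1 hI2, setIntegral_const] at hpos
  simp only [smul_eq_mul, Measure.real] at hpos
  have : w (cab F₀) * (volume Ω).toReal ≤ ∫ x in Ω, w (T F₀ (fderiv ℝ ϑ x)) := by
    linarith [mul_comm (w (cab F₀)) (volume Ω).toReal]
  exact this

end Pool.Agent.TH937.ZC
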