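import Pool.Agent.TH937.ZC.Disc
import Pool.Agent.TH937.ZC.Ql2

/-!
# Quasiconvexity of `a(v) s + b(v)` at the points with `v > 0`
-/

set_option autoImplicit false

namespace Pool.Agent.TH937.ZC

open Set Filter Topology

namespace DH

variable {a b : ℝ → ℝ} {v0 A B : ℝ} (H : DH a b v0 A B)
include H

theorem high (N : ℕ) {s v : ℝ} (hv : v0 ≤ v) (hs : v ≤ s) :
    At a v0 A N v * s + Bt a b v0 A B N v ≤ a v * s + b v := by
  have e1 : At a v0 A N v = a v0 + A * (v - v0) := by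
    unfold At
    rw [Finset.sum_eq_zero, add_zero]
    intro i _
    rw [max_eq_right (by linarith [e_le H.pos (N := N) (i := i)]), mul_zero]
  have e2 : Bt a b v0 A B N v = b v0 + B * (v - v0) := by
    unfold Bt
    rw [Finset.sum_eq_zero, sub_zero]
    intro i _
    rw [max_eq_right (by linarith [e_le H.pos (N := N) (i := i)]), mul_zero]
  rw [e1, e2]
  rcases eq_or_lt_of_le hv with h | h
  · subst h; simp
  · have hs0 : 0 < s := lt_of_lt_of_le (H.pos.trans h) hs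
    have hder : HasDerivAt (fun v => a v * s + b v) (A * s + B) v0 :=
      (H.da.mul_const s).add H.db
    have h1 := (H.cv s hs0).le_slope_of_hasDerivAt (x := v0) (y := v)
      ⟨by linarith [H.pos], by linarith⟩ ⟨by linarith [H.pos], hs⟩ h hder
    rw [slope_def_field, le_div_iff₀ (by linarith)] at h1
    nlinarith

theorem midb {N : ℕ} (hN : 0 < N) {Λ ω : ℝ} (hΛ : ∀ j, j ≤ N → A - sl a v0 A N j ≤ Λ)
    (hΛ0 : 0 ≤ Λ)
    (hω : ∀ x y, x ∈ Icc (-v0) v0 → y ∈ Icc (-v0) v0 → |x - y| ≤ v0 / N →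
      |a x - a y| ≤ ω ∧ |b x - b y| ≤ ω) {v : ℝ} (h1 : 0 ≤ v) (h2 : v ≤ v0) :
    At a v0 A N v ≤ a v + ω ∧ Bt a b v0 A B N v ≤ b v + ω + v0 * (v0 / N) * Λ := by
  have hN' : (0 : ℝ) < N := by exact_mod_cast hN
  have hd : 0 < v0 / N := div_pos H.pos hN'
  obtain ⟨j, θ, hj, hθ0, hθ1, hve⟩ := exnode H.pos hN h1 h2
  have m1 : e v0 N j ∈ Icc (-v0) v0 := ⟨by linarith [e_nonneg H.pos hN hj.le, H.pos],
    e_le H.pos⟩
  have m2 : e v0 N (j + 1) ∈ Icc (-v0) v0 := ⟨by
    linarith [e_nonneg H.pos hN (i := j + 1) hj, H.pos], e_le H.pos⟩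
  have m3 : v ∈ Icc (-v0) v0 := ⟨by linarith [H.pos], h2⟩
  have d1 : |e v0 N j - v| ≤ v0 / N := by
    rw [hve, abs_le]
    constructor <;> nlinarith
  have d2 : |e v0 N (j + 1) - v| ≤ v0 / N := by
    rw [hve, e_succ, abs_le]
    constructor <;> nlinarith
  obtain ⟨a1, b1⟩ := hω _ _ m1 m3 d1
  obtain ⟨a2, b2⟩ := hω _ _ m2 m3 d2
  have a1' := (abs_le.1 a1).2
  have a2' := (abs_le.1 a2).2
  have b1' := (abs_le.1 b1).2
  have b2' := (abs_le.1 b2).2
  constructor
  · conv_lhs => rw [hve]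
    rw [At_mid H.pos hN hθ0 hθ1, H.At_node hN hj.le, H.At_node hN (j := j + 1) hj]
    nlinarith
  · conv_lhs => rw [hve]
    rw [Bt_mid H.pos hN hθ0 hθ1]
    have c1 := H.Bt_node hN hΛ hj.le
    have c2 := H.Bt_node hN hΛ (j := j + 1) hj
    have hv0 : (N : ℝ) * (v0 / N) = v0 := by field_simp
    have c3 : (j : ℝ) * ((v0 / N) ^ 2 * Λ) ≤ v0 * (v0 / N) * Λ := by
      have : (j : ℝ) ≤ N := by exact_mod_cast hj.le
      have h3 : (j : ℝ) * ((v0 / N) ^ 2 * Λ) ≤ N * ((v0 / N) ^ 2 * Λ) :=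
        mul_le_mul_of_nonneg_right this (by positivity)
      have h4 : (N : ℝ) * ((v0 / N) ^ 2 * Λ) = (N * (v0 / N)) * (v0 / N) * Λ := by ring
      rw [hv0] at h4
      linarith
    have c4 : ((j + 1 : ℕ) : ℝ) * ((v0 / N) ^ 2 * Λ) ≤ v0 * (v0 / N) * Λ := by
      have : ((j + 1 : ℕ) : ℝ) ≤ N := by exact_mod_cast hj
      have h3 : ((j + 1 : ℕ) : ℝ) * ((v0 / N) ^ 2 * Λ) ≤ N * ((v0 / N) ^ 2 * Λ) :=
        mul_le_mul_of_nonneg_right this (by positivity)
      have h4 : (N : ℝ) * ((v0 / N) ^ 2 * Λ) = (N * (v0 / N)) * (v0 / N) * Λ := by ring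
      rw [hv0] at h4
      linarith
    have f1 : Bt a b v0 A B N (e v0 N j) ≤ b v + ω + v0 * (v0 / N) * Λ := by linarith
    have f2 : Bt a b v0 A B N (e v0 N (j + 1)) ≤ b v + ω + v0 * (v0 / N) * Λ := by linarith
    have g1 := mul_le_mul_of_nonneg_left f1 (by linarith : 0 ≤ 1 - θ)
    have g2 := mul_le_mul_of_nonneg_left f2 hθ0
    linarith

omit H in
/-- the slope of `Bt` on the left -/
noncomputable def Tt (a : ℝ → ℝ) (v0 A B : ℝ) (N : ℕ) : ℝ :=
  B + ∑ i ∈ Finset.range N, al a v0 A N i * e v0 N i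

theorem At_low {N : ℕ} (hN : 0 < N) {v : ℝ} (hv : v ≤ 0) :
    At a v0 A N v = a 0 + sl a v0 A N N * v := by
  have h0 := H.At_node hN (j := N) le_rfl
  rw [e_N hN] at h0
  have h1 : At a v0 A N v - At a v0 A N 0 = sl a v0 A N N * v := by
    unfold At
    have e1 : ∀ i ∈ Finset.range N, al a v0 A N i * max (e v0 N i - v) 0
        = al a v0 A N i * max (e v0 N i - 0) 0 + al a v0 A N i * (-v) := by
      intro i hi
      have := e_nonneg H.pos hN (Finset.mem_range.1 hi).le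
      rw [max_eq_left (by linarith), max_eq_left (by linarith)]
      ring
    rw [Finset.sum_congr rfl e1, Finset.sum_add_distrib, ← Finset.sum_mul, sum_al]
    ring
  linarith

theorem Bt_low {N : ℕ} (hN : 0 < N) {v : ℝ} (hv : v ≤ 0) :
    Bt a b v0 A B N v = Bt a b v0 A B N 0 + Tt a v0 A B N * v := by
  unfold Bt Tt
  have e1 : ∀ i ∈ Finset.range N, al a v0 A N i * e v0 N i * max (e v0 N i - v) 0
      = al a v0 A N i * e v0 N i * max (e v0 N i - 0) 0 + al a v0 A N i * e v0 N i * (-v) := by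
    intro i hi
    have := e_nonneg H.pos hN (Finset.mem_range.1 hi).le
    rw [max_eq_left (by linarith), max_eq_left (by linarith)]
    ring
  rw [Finset.sum_congr rfl e1, Finset.sum_add_distrib, ← Finset.sum_mul]
  ring

theorem Tt_ge {N : ℕ} (hN : 0 < N) {Λ : ℝ} (hΛ : ∀ j, j ≤ N → A - sl a v0 A N j ≤ Λ) :
    sl b v0 B N N - v0 / N * Λ ≤ Tt a v0 A B N := by
  have hN' : (0 : ℝ) < N := by exact_mod_cast hN
  have hd : 0 < v0 / N := div_pos H.pos hN'
  have hsl : ∀ j, j ≤ N → sl b v0 B N j ≤ B + ∑ i ∈ Finset.range j, al a v0 A N i * e v0 N i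
      + (v0 / N) * ∑ i ∈ Finset.range j, al a v0 A N i := by
    intro j
    induction j with
    | zero => intro _; simp [sl]
    | succ j ih =>
      intro hj
      have h1 := ih (Nat.le_of_succ_le hj)
      have h2 := H.chain hN (i := j) hj
      rw [Finset.sum_range_succ, Finset.sum_range_succ]
      have h3 : (e v0 N j + v0 / ↑N) * (sl a v0 A N j - sl a v0 A N (j + 1))
          = al a v0 A N j * e v0 N j + v0 / N * al a v0 A N j := by
        unfold al; ring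
      linarith
  have h1 := hsl N le_rfl
  rw [sum_al] at h1
  have h2 := mul_le_mul_of_nonneg_left (hΛ N le_rfl) hd.le
  unfold Tt
  linarith

theorem Tt_abs {N : ℕ} (hN : 0 < N) {Λ : ℝ} (hΛ : ∀ j, j ≤ N → A - sl a v0 A N j ≤ Λ) :
    |Tt a v0 A B N| ≤ |B| + v0 * Λ := by
  have h1 : 0 ≤ ∑ i ∈ Finset.range N, al a v0 A N i * e v0 N i :=
    Finset.sum_nonneg fun i hi => mul_nonneg (H.al_nonneg hN i)
      (e_nonneg H.pos hN (Finset.mem_range.1 hi).le)
  have h2 : ∑ i ∈ Finset.range N, al a v0 A N i * e v0 N i ≤ v0 * Λ := by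
    have h3 : ∑ i ∈ Finset.range N, al a v0 A N i * e v0 N i
        ≤ ∑ i ∈ Finset.range N, al a v0 A N i * v0 :=
      Finset.sum_le_sum fun i _ => mul_le_mul_of_nonneg_left (e_le H.pos) (H.al_nonneg hN i)
    rw [← Finset.sum_mul, sum_al] at h3
    have := mul_le_mul_of_nonneg_right (hΛ N le_rfl) H.pos.le
    linarith
  unfold Tt
  have := abs_add_le B (∑ i ∈ Finset.range N, al a v0 A N i * e v0 N i)
  rw [abs_of_nonneg h1] at this
  linarith

theorem low {N : ℕ} (hN : 0 < N) {Λ : ℝ} (hΛ : ∀ j, j ≤ N → A - sl a v0 A N j ≤ Λ)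
    {s v : ℝ} (hv : v ≤ 0) (hs : -v ≤ s) (hsd : v0 / N ≤ s) :
    At a v0 A N v * s + Bt a b v0 A B N v ≤
      a v * s + b v + v0 * (v0 / N) * Λ + (-v) * (v0 / N * Λ) := by
  have hN' : (0 : ℝ) < N := by exact_mod_cast hN
  have hd : 0 < v0 / N := div_pos H.pos hN'
  have h0 := H.Bt_node hN hΛ (j := N) le_rfl
  rw [e_N hN] at h0
  have hv0 : (N : ℝ) * (v0 / N) = v0 := by field_simp
  have h4 : (N : ℝ) * ((v0 / N) ^ 2 * Λ) = (N * (v0 / N)) * (v0 / N) * Λ := by ring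
  rw [hv0] at h4
  rw [H.At_low hN hv, H.Bt_low hN hv]
  have h5 := H.Tt_ge hN hΛ
  -- convexity between `v`, `0`, `v0 / N`
  have h6 : a 0 * s + b 0 + v * (sl a v0 A N N * s + sl b v0 B N N) ≤ a v * s + b v := by
    rcases eq_or_lt_of_le hv with h | h
    · subst h; simp
    · obtain ⟨M, rfl⟩ : ∃ M, N = M + 1 := ⟨N - 1, by omega⟩
      have e1 : e v0 (M + 1) M = v0 / ((M + 1 : ℕ) : ℝ) := by
        have h1 := e_N (v0 := v0) hN
        rw [e_succ] at h1
        linarith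
      have h7 := (H.cv s (lt_of_lt_of_le hd hsd)).slope_mono_adjacent (x := v) (y := 0)
        (z := v0 / ((M + 1 : ℕ) : ℝ))
        ⟨by linarith, by linarith⟩ ⟨by linarith, hsd⟩ h hd
      have h8 : sl a v0 A (M + 1) (M + 1) * s + sl b v0 B (M + 1) (M + 1)
          = (a (v0 / ((M + 1 : ℕ) : ℝ)) * s + b (v0 / ((M + 1 : ℕ) : ℝ)) - (a 0 * s + b 0))
            / (v0 / ((M + 1 : ℕ) : ℝ) - 0) := by
        simp only [sl]
        rw [e1, e_N hN, sub_zero]
        ring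
      rw [← h8, div_le_iff₀ (by linarith)] at h7
      linarith
  have h7 : (sl b v0 B N N - v0 / N * Λ) * (-v) ≤ Tt a v0 A B N * (-v) :=
    mul_le_mul_of_nonneg_right h5 (by linarith)
  nlinarith

theorem low' {N : ℕ} (hN : 0 < N) {Λ ω S : ℝ} (hΛ : ∀ j, j ≤ N → A - sl a v0 A N j ≤ Λ)
    (hω : ∀ x y, x ∈ Icc (-v0) v0 → y ∈ Icc (-v0) v0 → |x - y| ≤ v0 / N →
      |a x - a y| ≤ ω ∧ |b x - b y| ≤ ω) (hS : |sl a v0 A N N| ≤ S)
    {s v : ℝ} (hv : v ≤ 0) (hs : -v ≤ s) (hsd : s ≤ v0 / N) :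
    At a v0 A N v * s + Bt a b v0 A B N v ≤
      a v * s + b v + (ω * (v0 / N) + S * (v0 / N) * (v0 / N) + ω + v0 * (v0 / N) * Λ
        + (|B| + v0 * Λ) * (v0 / N)) := by
  have hN' : (0 : ℝ) < N := by exact_mod_cast hN
  have hN1 : (1 : ℝ) ≤ N := by exact_mod_cast hN
  have hd : 0 < v0 / N := div_pos H.pos hN'
  have hd1 : v0 / N ≤ v0 := div_le_self H.pos.le hN1
  have hs0 : 0 ≤ s := by linarith
  have h0 := H.Bt_node hN hΛ (j := N) le_rfl
  rw [e_N hN] at h0
  have hv0 : (N : ℝ) * (v0 / N) = v0 := by field_simp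
  have h4 : (N : ℝ) * ((v0 / N) ^ 2 * Λ) = (N * (v0 / N)) * (v0 / N) * Λ := by ring
  rw [hv0] at h4
  rw [H.At_low hN hv, H.Bt_low hN hv]
  have h5 := H.Tt_abs hN hΛ
  obtain ⟨a1, b1⟩ := hω 0 v ⟨by linarith [H.pos], H.pos.le⟩ ⟨by linarith, by linarith [H.pos]⟩
    (by rw [zero_sub, abs_neg, abs_of_nonpos hv]; linarith)
  have a1' := (abs_le.1 a1).2
  have b1' := (abs_le.1 b1).2
  have hω0 : 0 ≤ ω := (abs_nonneg _).trans a1
  have k1 : (a 0 - a v) * s ≤ ω * (v0 / N) :=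
    (mul_le_mul_of_nonneg_right a1' hs0).trans (mul_le_mul_of_nonneg_left hsd hω0)
  have k2 : sl a v0 A N N * v * s ≤ S * (v0 / N) * (v0 / N) := by
    have h7 : |sl a v0 A N N * v| ≤ S * (v0 / N) := by
      rw [abs_mul, abs_of_nonpos hv]
      exact mul_le_mul hS (by linarith) (by linarith) ((abs_nonneg _).trans hS)
    have h8 : 0 ≤ S * (v0 / N) := (abs_nonneg _).trans h7
    exact (mul_le_mul_of_nonneg_right ((le_abs_self _).trans h7) hs0).trans
      (mul_le_mul_of_nonneg_left hsd h8)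
  have k3 : Tt a v0 A B N * v ≤ (|B| + v0 * Λ) * (v0 / N) := by
    refine (le_abs_self _).trans ?_
    rw [abs_mul, abs_of_nonpos hv]
    exact mul_le_mul h5 (by linarith) (by linarith) ((abs_nonneg _).trans h5)
  nlinarith

/-- the approximation -/
theorem approx {R ε : ℝ} (hR : 0 < R) (hε : 0 < ε) : ∃ N : ℕ, 0 < N ∧
    ∀ s v : ℝ, |v| ≤ s → s ≤ R →
      At a v0 A N v * s + Bt a b v0 A B N v ≤ a v * s + b v + ε := by
  obtain ⟨L, hL⟩ := (H.ca.locallyLipschitz.locallyLipschitzOn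
    (s := Icc (-v0) v0)).exists_lipschitzOnWith_of_compact isCompact_Icc
  set Λ : ℝ := |A| + L with hΛd
  have hΛ0 : 0 ≤ Λ := by positivity
  -- constants
  set C : ℝ := 1 + L * v0 + v0 * Λ + R * Λ + (|B| + v0 * Λ) with hC
  have hv := H.pos
  have hC0 : 0 < C := by positivity
  set ω : ℝ := ε / (2 * (1 + R + v0)) with hω
  have hω0 : 0 < ω := by positivity
  have uca : UniformContinuousOn a (Icc (-v0) v0) :=
    isCompact_Icc.uniformContinuousOn_of_continuous H.ha.continuousOn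
  have ucb : UniformContinuousOn b (Icc (-v0) v0) :=
    isCompact_Icc.uniformContinuousOn_of_continuous H.hb.continuousOn
  obtain ⟨δ1, hδ1, u1⟩ := Metric.uniformContinuousOn_iff.1 uca ω hω0
  obtain ⟨δ2, hδ2, u2⟩ := Metric.uniformContinuousOn_iff.1 ucb ω hω0
  set δ : ℝ := min (min δ1 δ2) (ε / (4 * C)) with hδ
  have hδ0 : 0 < δ := by positivity
  obtain ⟨N, hN⟩ := exists_nat_gt (v0 / δ)
  have hN0 : 0 < N := by
    have : (0 : ℝ) < N := lt_trans (by positivity) hN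
    exact_mod_cast this
  have hN' : (0 : ℝ) < N := by exact_mod_cast hN0
  have hN1 : (1 : ℝ) ≤ N := by exact_mod_cast hN0
  have hd : 0 < v0 / N := div_pos H.pos hN'
  have hd1 : v0 / N ≤ v0 := div_le_self H.pos.le hN1
  have hdδ : v0 / N < δ := by
    rw [div_lt_iff₀ hN']
    rw [div_lt_iff₀ hδ0] at hN
    linarith
  have hmod : ∀ x y, x ∈ Icc (-v0) v0 → y ∈ Icc (-v0) v0 → |x - y| ≤ v0 / N →
      |a x - a y| ≤ ω ∧ |b x - b y| ≤ ω := by
    intro x y hx hy hxy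
    have h1 : |x - y| < δ := lt_of_le_of_lt hxy hdδ
    have h2 : δ ≤ δ1 := (min_le_left _ _).trans (min_le_left _ _)
    have h3 : δ ≤ δ2 := (min_le_left _ _).trans (min_le_right _ _)
    constructor
    · have := u1 x hx y hy (by rw [Real.dist_eq]; linarith)
      rw [Real.dist_eq] at this
      exact this.le
    · have := u2 x hx y hy (by rw [Real.dist_eq]; linarith)
      rw [Real.dist_eq] at this
      exact this.le
  have hslb : ∀ j, j < N → |sl a v0 A N (j + 1)| ≤ L := by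
    intro j hj
    simp only [sl]
    rw [abs_div, abs_of_pos hd, div_le_iff₀ hd]
    have m1 : e v0 N j ∈ Icc (-v0) v0 := ⟨by linarith [e_nonneg H.pos hN0 hj.le, H.pos],
      e_le H.pos⟩
    have m2 : e v0 N (j + 1) ∈ Icc (-v0) v0 := ⟨by
      linarith [e_nonneg H.pos hN0 (i := j + 1) hj, H.pos], e_le H.pos⟩
    have := hL.dist_le_mul _ m1 _ m2
    rw [Real.dist_eq, Real.dist_eq] at this
    have e2 : |e v0 N j - e v0 N (j + 1)| = v0 / N := by
      rw [e_succ, sub_sub_cancel, abs_of_pos hd]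
    rwa [e2] at this
  have hΛ : ∀ j, j ≤ N → A - sl a v0 A N j ≤ Λ := by
    intro j hj
    cases j with
    | zero => simp only [sl, sub_self]; exact hΛ0
    | succ j =>
      have h1 := (abs_le.1 (hslb j hj)).1
      have h2 := le_abs_self A
      linarith
  have hS : |sl a v0 A N N| ≤ L := by
    obtain ⟨M, rfl⟩ : ∃ M, N = M + 1 := ⟨N - 1, by omega⟩
    exact hslb M (Nat.lt_succ_self M)
  have hdC : v0 / N * C ≤ ε / 4 := by
    have h1 : v0 / N ≤ ε / (4 * C) := hdδ.le.trans (min_le_right _ _)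
    have h2 := mul_le_mul_of_nonneg_right h1 hC0.le
    have h3 : ε / (4 * C) * C = ε / 4 := by field_simp
    linarith
  have hωR : ω * (1 + R + v0) = ε / 2 := by rw [hω]; field_simp
  have hL0 : (0 : ℝ) ≤ L := L.coe_nonneg
  refine ⟨N, hN0, fun s v hvs hsR => ?_⟩
  have hvs' := abs_le.1 hvs
  have hs0 : 0 ≤ s := (abs_nonneg v).trans hvs
  rcases le_total v0 v with h | h
  · exact (H.high N h hvs'.2).trans (by linarith)
  rcases le_total 0 v with h2 | h2
  · obtain ⟨f1, f2⟩ := H.midb hN0 hΛ hΛ0 hmod h2 h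
    have f3 := mul_le_mul_of_nonneg_right f1 hs0
    have f4 : ω * s ≤ ω * R := mul_le_mul_of_nonneg_left hsR hω0.le
    have f5 : v0 * (v0 / N) * Λ ≤ v0 / N * C := by
      have : v0 * (v0 / N) * Λ = v0 / N * (v0 * Λ) := by ring
      rw [this]
      apply mul_le_mul_of_nonneg_left _ hd.le
      rw [hC]
      have h9 : 0 ≤ R * Λ := by positivity
      have h10 : 0 ≤ |B| + v0 * Λ := by positivity
      have h11 : 0 ≤ L * v0 := by positivity
      linarith
    have f6 : 0 ≤ ω * v0 := by positivity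
    linarith
  rcases le_total (v0 / N) s with h3 | h3
  · have f1 := H.low hN0 hΛ h2 (by linarith) h3
    have f2 : (-v) * (v0 / N * Λ) ≤ R * (v0 / N * Λ) :=
      mul_le_mul_of_nonneg_right (by linarith) (by positivity)
    have f5 : v0 * (v0 / N) * Λ + R * (v0 / N * Λ) ≤ v0 / N * C := by
      have : v0 * (v0 / N) * Λ + R * (v0 / N * Λ) = v0 / N * (v0 * Λ + R * Λ) := by ring
      rw [this]
      apply mul_le_mul_of_nonneg_left _ hd.le
      rw [hC]
      have h10 : 0 ≤ |B| + v0 * Λ := by positivity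
      have h11 : 0 ≤ L * v0 := by positivity
      linarith
    linarith
  · have f1 := H.low' hN0 hΛ hmod hS h2 (by linarith) h3
    have f2 : ω * (v0 / N) ≤ ω * v0 := mul_le_mul_of_nonneg_left hd1 hω0.le
    have f3 : (L : ℝ) * (v0 / N) * (v0 / N) ≤ v0 / N * (L * v0) := by
      have h12 : (L : ℝ) * (v0 / N) ≤ L * v0 := mul_le_mul_of_nonneg_left hd1 hL0
      have := mul_le_mul_of_nonneg_right h12 hd.le
      linarith
    have f5 : v0 / N * (L * v0) + v0 * (v0 / N) * Λ + (|B| + v0 * Λ) * (v0 / N)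
        ≤ v0 / N * C := by
      have : v0 / N * (L * v0) + v0 * (v0 / N) * Λ + (|B| + v0 * Λ) * (v0 / N)
          = v0 / N * (L * v0 + v0 * Λ + (|B| + v0 * Λ)) := by ring
      rw [this]
      apply mul_le_mul_of_nonneg_left _ hd.le
      rw [hC]
      have h9 : 0 ≤ R * Λ := by positivity
      linarith
    have f6 : 0 ≤ ω * R := by positivity
    linarith

omit H in
/-- the supporting function in terms of the kernels -/
theorem ker_eq (N : ℕ) (x y : ℝ) :
    At a v0 A N (x - y) * (x + y) + Bt a b v0 A B N (x - y)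
      = ∑ i ∈ Finset.range N, al a v0 A N i * Zk (e v0 N i) x y
        + ((a v0 - v0 * A + B) * x + (a v0 - v0 * A - B) * y)
        + A * (x ^ 2 - y ^ 2) + (b v0 - B * v0) := by
  unfold At Bt
  have e1 : ∑ i ∈ Finset.range N, al a v0 A N i * Zk (e v0 N i) x y
      = (∑ i ∈ Finset.range N, al a v0 A N i * max (e v0 N i - (x - y)) 0) * (x + y)
        - ∑ i ∈ Finset.range N, al a v0 A N i * e v0 N i * max (e v0 N i - (x - y)) 0 := by
    rw [Finset.sum_mul, ← Finset.sum_sub_distrib]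
    apply Finset.sum_congr rfl
    intro i _
    unfold Zk
    ring
  rw [e1]
  ring

theorem QL_k {N : ℕ} (hN : 0 < N) (hAB : |B| ≤ a v0 - v0 * A) (F0 : ℂ × ℂ) :
    QL (fun F => At a v0 A N (‖F.1‖ - ‖F.2‖) * (‖F.1‖ + ‖F.2‖)
      + Bt a b v0 A B N (‖F.1‖ - ‖F.2‖)) F0 := by
  simp only [ker_eq]
  have hab := abs_le.1 hAB
  have q1 : QL (fun F : ℂ × ℂ => ∑ i ∈ Finset.range N, al a v0 A N i
      * Zk (e v0 N i) ‖F.1‖ ‖F.2‖) F0 := by
    apply QL_sum
    · intro i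
      exact continuous_const.mul (cont_Zk _)
    · intro i hi
      exact QL_smul (H.al_nonneg hN i) (QL_Zk (e_pos H.pos hN (Finset.mem_range.1 hi)) F0)
  have c1 : Continuous (fun F : ℂ × ℂ => ∑ i ∈ Finset.range N, al a v0 A N i
      * Zk (e v0 N i) ‖F.1‖ ‖F.2‖) :=
    continuous_finsetSum _ fun i _ => continuous_const.mul (cont_Zk _)
  have c2 : Continuous (fun F : ℂ × ℂ => (a v0 - v0 * A + B) * ‖F.1‖
      + (a v0 - v0 * A - B) * ‖F.2‖) := by fun_prop
  have q2 : QL (fun F : ℂ × ℂ => (a v0 - v0 * A + B) * ‖F.1‖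
      + (a v0 - v0 * A - B) * ‖F.2‖) F0 := by
    apply QL_conv c2
    refine ⟨convex_univ, fun x _ y _ s t hs ht hst => ?_⟩
    simp only [Prod.fst_add, Prod.smul_fst, Prod.snd_add, Prod.smul_snd, smul_eq_mul]
    have h1 := norm_add_le (s • x.1) (t • y.1)
    have h2 := norm_add_le (s • x.2) (t • y.2)
    rw [norm_smul, norm_smul, Real.norm_of_nonneg hs, Real.norm_of_nonneg ht] at h1 h2
    have h3 := mul_le_mul_of_nonneg_left h1 (by linarith : 0 ≤ a v0 - v0 * A + B)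
    have h4 := mul_le_mul_of_nonneg_left h2 (by linarith : 0 ≤ a v0 - v0 * A - B)
    linarith
  have q3 := QL_add c1 c2 q1 q2
  have q4 := QL_add (c1.add c2) (w2 := fun F : ℂ × ℂ => A * (‖F.1‖ ^ 2 - ‖F.2‖ ^ 2))
    (by fun_prop) q3 (QL_det A F0)
  exact QL_add ((c1.add c2).add (by fun_prop)) continuous_const q4 (QL_const (b v0 - B * v0) F0)

omit H in
theorem cont_k (N : ℕ) : Continuous (fun F : ℂ × ℂ =>
    At a v0 A N (‖F.1‖ - ‖F.2‖) * (‖F.1‖ + ‖F.2‖) + Bt a b v0 A B N (‖F.1‖ - ‖F.2‖)) := by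
  unfold At Bt
  fun_prop

/-- quasiconvexity at the points with `v = v0` -/
theorem QLpos (hAB : |B| ≤ a v0 - v0 * A) (F0 : ℂ × ℂ) (hF : ‖F0.1‖ - ‖F0.2‖ = v0) :
    QL (fun F => a (‖F.1‖ - ‖F.2‖) * (‖F.1‖ + ‖F.2‖) + b (‖F.1‖ - ‖F.2‖)) F0 := by
  have hc : Continuous (fun F : ℂ × ℂ => a (‖F.1‖ - ‖F.2‖) * (‖F.1‖ + ‖F.2‖)
      + b (‖F.1‖ - ‖F.2‖)) := by
    have := H.ha
    have := H.hb
    fun_prop
  apply QL_support hc
  intro R ε hR hε
  obtain ⟨N, hN, hap⟩ := H.approx hR hε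
  refine ⟨_, cont_k N, H.QL_k hN hAB F0, ?_, ?_⟩
  · intro F hF
    apply hap _ _ _ hF
    have h1 := norm_nonneg F.1
    have h2 := norm_nonneg F.2
    rw [abs_le]
    constructor <;> linarith
  · rw [hF]
    have e1 : At a v0 A N v0 = a v0 := by
      have := H.At_node hN (j := 0) (Nat.zero_le _)
      rwa [e_zero] at this
    have e2 : Bt a b v0 A B N v0 = b v0 := by
      unfold Bt
      rw [Finset.sum_eq_zero]
      · ring
      · intro i _
        rw [max_eq_right (by linarith [e_le H.pos (N := N) (i := i)]), mul_zero]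
    rw [e1, e2]
    linarith

end DH

end Pool.Agent.TH937.ZC
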