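import Pool.Agent.TH937.ZC.Theta
import Pool.Agent.W918.MQ.Lip

/-!
# Pointwise limits of the push-forward averages
-/

set_option autoImplicit false

namespace Pool.Agent.TH937.ZC

open MeasureTheory Set Filter Topology Metric
open scoped ComplexConjugate
open Pool.Agent.W488.IW (dz dzb)
open Pool.Agent.W918.MQ (ro bmp)

theorem ro_small (n : ℕ) (t : ℂ) (ht : 1 / ((n : ℝ) + 1) ≤ ‖t‖) : ro n t = 0 := by
  have h : t ∉ Function.support (ro n) := by
    unfold ro
    rw [(bmp n).support_normed_eq, mem_ball, dist_zero_right]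
    push Not
    exact ht
  simpa using h

theorem Mo_ro (n : ℕ) : Mo (ro n) where
  cd := (bmp n).contDiff_normed
  cs := Pool.Agent.W918.MQ.ro_cs n
  z := Pool.Agent.W918.MQ.ro_zero n
  int := Pool.Agent.W918.MQ.ro_int n
  nn := Pool.Agent.W918.MQ.ro_nonneg n

theorem small_ev {r : ℝ} (hr : 0 < r) : ∀ᶠ n : ℕ in atTop, 1 / ((n : ℝ) + 1) < r :=
  (tendsto_one_div_add_atTop_nhds_zero_nat (𝕜 := ℝ)).eventually (gt_mem_nhds hr)

namespace Dt

variable (D : Dt)

theorem near {O : Set ℂ} (hO : IsOpen O) {y : ℂ} (h : ∀ x, D.u x = y → x ∈ O) :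
    ∃ r > 0, ∀ x, ‖y - D.u x‖ < r → x ∈ O := by
  have h1 : IsClosed (D.u '' Oᶜ) := D.u_proper.isClosedMap _ hO.isClosed_compl
  have h2 : y ∈ (D.u '' Oᶜ)ᶜ := by
    rintro ⟨x, hx, hxy⟩
    exact hx (h x hxy)
  obtain ⟨r, hr, hb⟩ := Metric.isOpen_iff.1 h1.isOpen_compl y h2
  refine ⟨r, hr, fun x hx => ?_⟩
  by_contra hn
  have h3 : D.u x ∈ ball y r := by
    rw [mem_ball, dist_comm, dist_eq_norm]; exact hx
  exact hb h3 ⟨x, hn, rfl⟩

theorem near_ro {O : Set ℂ} (hO : IsOpen O) {y : ℂ} (h : ∀ x, D.u x = y → x ∈ O) :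
    ∀ᶠ n : ℕ in atTop, ∀ x, x ∉ O → ro n (y - D.u x) = 0 := by
  obtain ⟨r, hr, hx⟩ := D.near hO h
  filter_upwards [small_ev hr] with n hn x hxO
  apply ro_small
  by_contra h1
  exact hxO (hx x (lt_trans (not_le.1 h1) hn))

theorem loc {x1 y : ℂ} (hx : D.u x1 = y) (hJ : D.J x1 ≠ 0) {O : Set ℂ} (hO : IsOpen O)
    (hx1 : x1 ∈ O) : ∀ᶠ n : ℕ in atTop, 1 ≤ ∫ x in O, ro n (y - D.u x) * |D.J x| := by
  have hdet : (Lin (D.p x1) (D.q x1)).det ≠ 0 := by
    rw [Lin_det]; exact hJ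
  have hst : HasStrictFDerivAt D.u
      (((Lin (D.p x1) (D.q x1)).toContinuousLinearEquivOfDetNeZero hdet : ℂ ≃L[ℝ] ℂ) :
        ℂ →L[ℝ] ℂ) x1 := by
    rw [ContinuousLinearMap.coe_toContinuousLinearEquivOfDetNeZero]
    exact D.u_cd.contDiffAt.hasStrictFDerivAt' (D.hpq x1) (by norm_num)
  set e := hst.toOpenPartialHomeomorph D.u with he
  have hcoe : (e : ℂ → ℂ) = D.u := rfl
  have hs : x1 ∈ e.source := hst.mem_toOpenPartialHomeomorph_source
  have hU : IsOpen (e.source ∩ O) := e.open_source.inter hO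
  have hV : IsOpen (D.u '' (e.source ∩ O)) := by
    have := e.isOpen_image_of_subset_source hU inter_subset_left
    rwa [hcoe] at this
  have hinj : InjOn D.u (e.source ∩ O) := by
    have := e.injOn
    rw [hcoe] at this
    exact this.mono inter_subset_left
  have hyV : y ∈ D.u '' (e.source ∩ O) := ⟨x1, ⟨hs, hx1⟩, hx⟩
  obtain ⟨r, hr, hb⟩ := Metric.isOpen_iff.1 hV y hyV
  filter_upwards [small_ev hr] with n hn
  have hM := Mo_ro n
  have hint : Integrable (fun x => ro n (y - D.u x) * |D.J x|) := by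
    have := D.J_cont
    exact D.int_u hM (k := fun x => |D.J x|) (by fun_prop) y
  have h1 : ∫ x in e.source ∩ O, ro n (y - D.u x) * |D.J x| ≤
      ∫ x in O, ro n (y - D.u x) * |D.J x| := by
    apply setIntegral_mono_set hint.integrableOn
    · exact Eventually.of_forall fun x => mul_nonneg (hM.nn _) (abs_nonneg _)
    · exact inter_subset_right.eventuallyLE
  refine le_trans (le_of_eq ?_) h1
  have h2 := integral_image_eq_integral_abs_det_fderiv_smul volume hU.measurableSet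
    (f := D.u) (f' := fun x => Lin (D.p x) (D.q x)) (fun x _ => (D.hpq x).hasFDerivWithinAt)
    hinj (fun z => ro n (y - z))
  have h3 : ∫ z in D.u '' (e.source ∩ O), ro n (y - z) = ∫ z, ro n (y - z) := by
    apply setIntegral_eq_integral_of_forall_compl_eq_zero
    intro z hz
    apply ro_small
    by_contra h4
    apply hz
    apply hb
    rw [mem_ball, dist_comm, dist_eq_norm]
    exact lt_trans (not_le.1 h4) hn
  rw [h3, integral_sub_left_eq_self (ro n) volume y, hM.int] at h2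
  rw [h2]
  refine setIntegral_congr_fun hU.measurableSet fun x _ => ?_
  simp only [Lin_det, smul_eq_mul]
  rw [mul_comm]
  rfl

/-- the majorant -/
noncomputable def T (x : ℂ) : ℝ := Tx ‖D.p x‖ ‖D.q x‖

theorem T_cont : Continuous D.T := by
  have h1 := D.p_cont
  have h2 := D.q_cont
  exact cont_T.comp (f := fun x => (D.p x, D.q x)) (by fun_prop)

theorem T_J (x : ℂ) : D.J x ≤ D.T x := T_geJ (norm_nonneg _) (norm_nonneg _)

theorem T_p (x : ℂ) : 2 * ‖D.p x‖ ≤ D.T x := T_ge (norm_nonneg _)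

theorem T_nn (x : ℂ) : 0 ≤ D.T x := le_trans (by positivity) (D.T_p x)

theorem G_mono {ρ : ℂ → ℝ} (hρ : Mo ρ) {k k' : ℂ → ℝ} (hk : Continuous k) (hk' : Continuous k')
    (h : ∀ x, k x ≤ k' x) (y : ℂ) : D.G ρ k y ≤ D.G ρ k' y := by
  unfold G
  exact integral_mono (D.int_u hρ hk y) (D.int_u hρ hk' y) fun x =>
    mul_le_mul_of_nonneg_left (h x) (hρ.nn _)

theorem gp_le {ρ : ℂ → ℝ} (hρ : Mo ρ) (y : ℂ) :
    2 * ‖D.G ρ (fun x => conj (D.p x)) y‖ ≤ D.G ρ D.T y := by
  have cp := D.p_cont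
  have h1 : ‖D.G ρ (fun x => conj (D.p x)) y‖ ≤ ∫ x, ρ (y - D.u x) * ‖D.p x‖ := by
    unfold G
    refine norm_integral_le_of_norm_le ?_ (Eventually.of_forall fun x => ?_)
    · exact D.int_u hρ (k := fun x => ‖D.p x‖) (by fun_prop) y
    · rw [norm_smul, Complex.norm_conj, Real.norm_of_nonneg (hρ.nn _)]
  have h2 : ∫ x, ρ (y - D.u x) * (2 * ‖D.p x‖) ≤ D.G ρ D.T y :=
    D.G_mono hρ (k := fun x => 2 * ‖D.p x‖) (by fun_prop) D.T_cont D.T_p y
  have h3 : ∫ x, ρ (y - D.u x) * (2 * ‖D.p x‖) = 2 * ∫ x, ρ (y - D.u x) * ‖D.p x‖ := by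
    rw [← integral_const_mul]
    refine integral_congr_ae (Eventually.of_forall fun x => ?_)
    simp only; ring
  linarith

/-- the function compared with the majorant -/
noncomputable def Mg (ρ : ℂ → ℝ) (y : ℂ) : ℝ :=
  Mx ‖D.G ρ (fun x => conj (D.p x)) y‖ ‖D.G ρ D.q y‖

theorem M_le_of_two {ρ : ℂ → ℝ} (hρ : Mo ρ) (y : ℂ) (h : 2 ≤ D.G ρ D.T y) :
    D.Mg ρ y ≤ D.G ρ D.T y :=
  (M_le (norm_nonneg _) (norm_nonneg _)).trans (max_le (D.gp_le hρ y) h)

theorem M_le_one {ρ : ℂ → ℝ} (hρ : Mo ρ) (y : ℂ) :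
    D.Mg ρ y ≤ D.G ρ D.T y + 1 :=
  (M_le' (norm_nonneg _) (norm_nonneg _)).trans (by linarith [D.gp_le hρ y])

/-- a preimage of negative degree -/
theorem two_neg {x1 y : ℂ} (hx : D.u x1 = y) (hJ : D.J x1 < 0) :
    ∀ᶠ n : ℕ in atTop, 2 ≤ D.G (ro n) D.T y := by
  have hO : IsOpen {x | D.J x < 0} := isOpen_lt D.J_cont continuous_const
  filter_upwards [D.loc hx hJ.ne hO hJ] with n hn
  have hM := Mo_ro n
  have hi1 := D.int_u hM D.T_cont y
  have hi2 := D.int_u hM D.J_cont y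
  have h1 : D.G (ro n) D.T y - D.G (ro n) D.J y = ∫ x, ro n (y - D.u x) * (D.T x - D.J x) := by
    unfold G
    rw [← integral_sub hi1 hi2]
    refine integral_congr_ae (Eventually.of_forall fun x => ?_)
    simp only [smul_eq_mul]; ring
  have hi3 : Integrable (fun x => ro n (y - D.u x) * (D.T x - D.J x)) := by
    have := D.J_cont
    have := D.T_cont
    exact D.int_u hM (k := fun x => D.T x - D.J x) (by fun_prop) y
  have hi4 : Integrable (fun x => ro n (y - D.u x) * |D.J x|) := by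
    have := D.J_cont
    exact D.int_u hM (k := fun x => |D.J x|) (by fun_prop) y
  have h2 : ∫ x in {x | D.J x < 0}, ro n (y - D.u x) * (D.T x - D.J x)
      ≤ ∫ x, ro n (y - D.u x) * (D.T x - D.J x) := by
    apply setIntegral_le_integral hi3
    exact Eventually.of_forall fun x => mul_nonneg (hM.nn _) (sub_nonneg.2 (D.T_J x))
  have h3 : ∫ x in {x | D.J x < 0}, ro n (y - D.u x) * |D.J x| ≤
      ∫ x in {x | D.J x < 0}, ro n (y - D.u x) * (D.T x - D.J x) := by
    apply setIntegral_mono_on hi4.integrableOn hi3.integrableOn hO.measurableSet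
    intro x hx
    have hx' : D.J x < 0 := hx
    apply mul_le_mul_of_nonneg_left _ (hM.nn _)
    rw [abs_of_neg hx']
    linarith [D.T_nn x]
  rw [D.deg hM] at h1
  linarith

/-- two preimages of positive degree -/
theorem two_pos {x1 x2 y : ℂ} (hne : x1 ≠ x2) (hx1 : D.u x1 = y) (hx2 : D.u x2 = y)
    (hJ1 : 0 < D.J x1) (hJ2 : 0 < D.J x2) :
    ∀ᶠ n : ℕ in atTop, 2 ≤ D.G (ro n) D.T y := by
  obtain ⟨O1, O2, hO1, hO2, h1, h2, hd⟩ := t2_separation hne
  have hP : IsOpen {x | 0 < D.J x} := isOpen_lt continuous_const D.J_cont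
  filter_upwards [D.loc hx1 hJ1.ne' (hO1.inter hP) ⟨h1, hJ1⟩,
    D.loc hx2 hJ2.ne' (hO2.inter hP) ⟨h2, hJ2⟩] with n hn1 hn2
  have hM := Mo_ro n
  have hi1 : Integrable (fun x => ro n (y - D.u x) * D.T x) := D.int_u hM D.T_cont y
  have hi4 : Integrable (fun x => ro n (y - D.u x) * |D.J x|) := by
    have := D.J_cont
    exact D.int_u hM (k := fun x => |D.J x|) (by fun_prop) y
  have hc : ∀ O : Set ℂ, IsOpen O → ∫ x in O ∩ {x | 0 < D.J x}, ro n (y - D.u x) * |D.J x| ≤
      ∫ x in O ∩ {x | 0 < D.J x}, ro n (y - D.u x) * D.T x := by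
    intro O hO
    apply setIntegral_mono_on hi4.integrableOn hi1.integrableOn (hO.inter hP).measurableSet
    intro x hx
    have hx' : 0 < D.J x := hx.2
    apply mul_le_mul_of_nonneg_left _ (hM.nn _)
    rw [abs_of_pos hx']
    exact D.T_J x
  have hdj : Disjoint (O1 ∩ {x | 0 < D.J x}) (O2 ∩ {x | 0 < D.J x}) :=
    hd.mono inter_subset_left inter_subset_left
  have h5 := setIntegral_union hdj (hO2.inter hP).measurableSet hi1.integrableOn
    hi1.integrableOn
  have h6 : ∫ x in (O1 ∩ {x | 0 < D.J x}) ∪ (O2 ∩ {x | 0 < D.J x}), ro n (y - D.u x) * D.T x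
      ≤ ∫ x, ro n (y - D.u x) * D.T x := by
    apply setIntegral_le_integral hi1
    exact Eventually.of_forall fun x => mul_nonneg (hM.nn _) (D.T_nn x)
  have h7 := hc O1 hO1
  have h8 := hc O2 hO2
  have h9 : D.G (ro n) D.T y = ∫ x, ro n (y - D.u x) * D.T x := rfl
  linarith

/-- one preimage of positive degree -/
theorem one_lim {E : Type*} [NormedAddCommGroup E] [NormedSpace ℝ E] [CompleteSpace E]
    {k : ℂ → E} (hk : Continuous k) {x0 y : ℂ} (hJ : 0 < D.J x0)
    (hx : ∀ x, D.u x = y → x = x0) :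
    Tendsto (fun n => D.G (ro n) k y) atTop (𝓝 ((1 / D.J x0) • k x0)) := by
  rw [Metric.tendsto_atTop']
  intro ε hε
  set c : E := (1 / D.J x0) • k x0 with hcdef
  have cJ := D.J_cont
  have hO : IsOpen {x | ‖k x - D.J x • c‖ < ε / 2 * D.J x} :=
    isOpen_lt (by fun_prop) (by fun_prop)
  have h0 : ∀ x, D.u x = y → x ∈ {x | ‖k x - D.J x • c‖ < ε / 2 * D.J x} := by
    intro x hxy
    rw [hx x hxy]
    change ‖k x0 - D.J x0 • c‖ < ε / 2 * D.J x0
    rw [hcdef, smul_smul, mul_one_div_cancel hJ.ne', one_smul, sub_self, norm_zero]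
    positivity
  obtain ⟨N, hN⟩ := eventually_atTop.1 (D.near_ro hO h0)
  refine ⟨N, fun n hn => ?_⟩
  have hM := Mo_ro n
  have hz := hN n hn.le
  have e1 : D.G (ro n) k y - c = ∫ x, ro n (y - D.u x) • (k x - D.J x • c) := by
    have h1 : c = ∫ x, (ro n (y - D.u x) • D.J x) • c := by
      rw [integral_smul_const]
      have : ∫ x, ro n (y - D.u x) • D.J x = 1 := D.deg hM y
      rw [this, one_smul]
    conv_lhs => rw [h1]
    unfold G
    rw [← integral_sub (D.int_u hM hk y) ((D.int_u hM cJ y).smul_const c)]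
    refine integral_congr_ae (Eventually.of_forall fun x => ?_)
    simp only [smul_sub, smul_smul, smul_eq_mul]
  rw [dist_eq_norm, e1]
  have h2 : ‖∫ x, ro n (y - D.u x) • (k x - D.J x • c)‖ ≤
      ∫ x, ro n (y - D.u x) * (ε / 2 * D.J x) := by
    refine norm_integral_le_of_norm_le ?_ (Eventually.of_forall fun x => ?_)
    · exact D.int_u hM (k := fun x => ε / 2 * D.J x) (by fun_prop) y
    · rw [norm_smul, Real.norm_of_nonneg (hM.nn _)]
      by_cases hxO : x ∈ {x | ‖k x - D.J x • c‖ < ε / 2 * D.J x}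
      · exact mul_le_mul_of_nonneg_left (le_of_lt hxO) (hM.nn _)
      · rw [hz x hxO]; simp
  have h3 : ∫ x, ro n (y - D.u x) * (ε / 2 * D.J x) = ε / 2 := by
    have : ∫ x, ro n (y - D.u x) * D.J x = 1 := D.deg hM y
    have e : (fun x => ro n (y - D.u x) * (ε / 2 * D.J x))
        = fun x => ε / 2 * (ro n (y - D.u x) * D.J x) := by
      ext x; ring
    rw [e, integral_const_mul, this, mul_one]
  rw [h3] at h2
  linarith

/-- **the pointwise inequality** at regular values -/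
theorem ptw {y : ℂ} (hreg : ∀ x, D.u x = y → D.J x ≠ 0) {ε : ℝ} (hε : 0 < ε) :
    ∀ᶠ n : ℕ in atTop, D.Mg (ro n) y ≤ D.G (ro n) D.T y + ε := by
  by_cases hneg : ∃ x1, D.u x1 = y ∧ D.J x1 < 0
  · obtain ⟨x1, hx1, hJ1⟩ := hneg
    filter_upwards [D.two_neg hx1 hJ1] with n hn
    linarith [D.M_le_of_two (Mo_ro n) y hn]
  push Not at hneg
  have hpos : ∀ x, D.u x = y → 0 < D.J x := fun x hx =>
    lt_of_le_of_ne (hneg x hx) (Ne.symm (hreg x hx))
  by_cases hex : ∃ x0, D.u x0 = y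
  · obtain ⟨x0, hx0⟩ := hex
    by_cases huniq : ∀ x, D.u x = y → x = x0
    · have cp := D.p_cont
      have cq := D.q_cont
      have h1 := D.one_lim (k := fun x => conj (D.p x)) (by fun_prop) (hpos x0 hx0) huniq
      have h2 := D.one_lim (k := D.q) cq (hpos x0 hx0) huniq
      have h3 := D.one_lim (k := D.T) D.T_cont (hpos x0 hx0) huniq
      have h4 : Tendsto (fun n => D.Mg (ro n) y) atTop
          (𝓝 (Mx ‖(1 / D.J x0) • conj (D.p x0)‖ ‖(1 / D.J x0) • D.q x0‖)) := by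
        have h5 := (cont_M.tendsto ((1 / D.J x0) • conj (D.p x0), (1 / D.J x0) • D.q x0)).comp
          (h1.prodMk_nhds h2)
        exact h5
      have hJ0 := hpos x0 hx0
      have h6 : Mx ‖(1 / D.J x0) • conj (D.p x0)‖ ‖(1 / D.J x0) • D.q x0‖
          = (1 / D.J x0) • D.T x0 := by
        rw [norm_smul, norm_smul, Complex.norm_conj, Real.norm_of_nonneg (by positivity)]
        have hlt : ‖D.q x0‖ < ‖D.p x0‖ := by
          unfold J at hJ0
          nlinarith [norm_nonneg (D.p x0), norm_nonneg (D.q x0)]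
        have h7 := MT (norm_nonneg (D.q x0)) hlt
        have e1 : 1 / D.J x0 * ‖D.p x0‖ = ‖D.p x0‖ / (‖D.p x0‖ ^ 2 - ‖D.q x0‖ ^ 2) := by
          unfold J; ring
        have e2 : 1 / D.J x0 * ‖D.q x0‖ = ‖D.q x0‖ / (‖D.p x0‖ ^ 2 - ‖D.q x0‖ ^ 2) := by
          unfold J; ring
        rw [e1, e2, h7]
        unfold J T
        rw [smul_eq_mul]; ring
      rw [h6] at h4
      have h8 := h4.sub h3
      rw [sub_self] at h8
      filter_upwards [h8.eventually (gt_mem_nhds hε)] with n hn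
      linarith
    · push Not at huniq
      obtain ⟨x1, hx1, hne⟩ := huniq
      filter_upwards [D.two_pos hne hx1 hx0 (hpos x1 hx1) (hpos x0 hx0)] with n hn
      linarith [D.M_le_of_two (Mo_ro n) y hn]
  · exfalso
    push Not at hex
    obtain ⟨N, hN⟩ := eventually_atTop.1 (D.near_ro (O := ∅) isOpen_empty
      (y := y) (fun x hx => absurd hx (hex x)))
    have h1 := D.deg (Mo_ro N) y
    have h2 : D.G (ro N) D.J y = 0 := by
      unfold G
      have : ∀ x, ro N (y - D.u x) • D.J x = 0 := fun x => by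
        rw [hN N le_rfl x (notMem_empty x), zero_smul]
      simp only [this, integral_zero]
    rw [h2] at h1
    exact zero_ne_one h1

end Dt

end Pool.Agent.TH937.ZC
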