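import Pool.Agent.TH937.ZC.Local
import Pool.Agent.W360.MQ.Qkb

/-!
# Quasiconvexity of the dual kernel
-/

set_option autoImplicit false

namespace Pool.Agent.TH937.ZC

open MeasureTheory Set Filter Topology Metric
open scoped ComplexConjugate
open Pool.Agent.W488.IW (dz dzb)
open Pool.Agent.W918.MQ (ro bmp)
open Pool.Agent.W360.MQ (QA wf)

theorem c1L (F0 : ℂ × ℂ) (f : ℂ → ℂ) (hf : ContDiff ℝ 1 f) (hc : HasCompactSupport f) :
    0 ≤ ∫ z : ℂ, (wf αL βL (F0 + (dz f z, dzb f z)) - wf αL βL F0) :=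
  Pool.Agent.W925.MQ.C1.main _ (Pool.Agent.W215.MQ.Cont.main αL βL RCL)
    (Pool.Agent.W360.MQ.Fin.qa αL βL RCL) F0 f hf hc

namespace Dt

variable (D : Dt)

noncomputable def T0 : ℝ := Tx ‖D.a‖ ‖D.b‖

theorem T_off {x : ℂ} (hx : x ∉ D.K) : D.T x = D.T0 := by
  unfold T T0
  rw [D.p_off hx, D.q_off hx]

theorem M_inf : Mx ‖(1 / D.J0 : ℝ) • conj D.a‖ ‖(-(1 / D.J0 : ℝ)) • D.b‖ = 1 / D.J0 * D.T0 := by
  have hJ := D.J0_pos
  rw [norm_smul, norm_smul, Complex.norm_conj, norm_neg, Real.norm_of_nonneg (by positivity)]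
  have h7 := MT (norm_nonneg D.b) D.hab
  have e1 : 1 / D.J0 * ‖D.a‖ = ‖D.a‖ / (‖D.a‖ ^ 2 - ‖D.b‖ ^ 2) := by
    unfold J0; ring
  have e2 : 1 / D.J0 * ‖D.b‖ = ‖D.b‖ / (‖D.a‖ ^ 2 - ‖D.b‖ ^ 2) := by
    unfold J0; ring
  rw [e1, e2, h7]
  unfold J0 T0
  ring

theorem reg : ∀ᵐ y : ℂ, ∀ x, D.u x = y → D.J x ≠ 0 := by
  have h := addHaar_image_eq_zero_of_det_fderivWithin_eq_zero (volume : Measure ℂ)
    (s := {x | D.J x = 0}) (f := D.u) (f' := fun x => Lin (D.p x) (D.q x))
    (fun x _ => (D.hpq x).hasFDerivWithinAt) (fun x hx => by rw [Lin_det]; exact hx)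
  have h2 : (D.u '' {x | D.J x = 0})ᶜ ∈ ae (volume : Measure ℂ) := by
    rw [mem_ae_iff, compl_compl]; exact h
  filter_upwards [h2] with y hy x hx hJ
  exact hy ⟨x, hJ, hx⟩

theorem int_T : 0 ≤ ∫ x in D.K, (D.T x - D.T0) := by
  obtain ⟨R, hu, hl⟩ := D.exR
  have cp := D.p_cont
  have cq := D.q_cont
  have hMc : ∀ n, Continuous (D.Mg (ro n)) := by
    intro n
    have h1 := D.G_cont (Mo_ro n) (k := fun x => conj (D.p x)) (by fun_prop) (conj D.a)
      (fun x hx => by rw [D.p_off hx])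
    have h2 := D.G_cont (Mo_ro n) (k := D.q) (by fun_prop) (D.b)
      (fun x hx => by rw [D.q_off hx])
    exact cont_M.comp (f := fun y => (D.G (ro n) (fun x => conj (D.p x)) y, D.G (ro n) D.q y))
      (by fun_prop)
  have hTc : ∀ n, Continuous (D.G (ro n) D.T) := fun n =>
    D.G_cont (Mo_ro n) D.T_cont D.T0 (fun x hx => D.T_off hx)
  have hMfar : ∀ n y, R + 1 ≤ ‖y‖ → D.Mg (ro n) y = 1 / D.J0 * D.T0 := by
    intro n y hy
    unfold Mg
    rw [D.G_far (Mo_ro n) (k := fun x => conj (D.p x)) (by fun_prop) (conj D.a)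
      (fun x hx => by rw [D.p_off hx]) hu hl hy, D.G_far (Mo_ro n) (k := D.q) cq D.b
      (fun x hx => by rw [D.q_off hx]) hu hl hy, ← D.M_inf, neg_smul, norm_neg]
  have hTfar : ∀ n y, R + 1 ≤ ‖y‖ → D.G (ro n) D.T y = 1 / D.J0 * D.T0 := by
    intro n y hy
    rw [D.G_far (Mo_ro n) D.T_cont D.T0 (fun x hx => D.T_off hx) hu hl hy, smul_eq_mul]
  -- the first family
  have h1 : ∀ n, 0 ≤ ∫ y, (D.Mg (ro n) y - 1 / D.J0 * D.T0) := by
    intro n
    have h := D.transfer (Mo_ro n) (w := wf αL βL) c1L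
    refine h.trans (le_of_eq ?_)
    refine integral_congr_ae (Eventually.of_forall fun y => ?_)
    simp only [wfL]
    rw [← D.M_inf]
    unfold Mg
    rw [norm_neg]
    ring
  have h2 : ∀ n, Integrable (fun y => D.G (ro n) D.T y - 1 / D.J0 * D.T0) ∧
      ∫ y, (D.G (ro n) D.T y - 1 / D.J0 * D.T0) = ∫ x in D.K, (D.T x - D.T0) := fun n =>
    D.G_int (Mo_ro n) D.T_cont D.T0 (fun x hx => D.T_off hx)
  have h3 : ∀ n, Integrable (fun y => D.Mg (ro n) y - 1 / D.J0 * D.T0) := by
    intro n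
    refine Continuous.integrable_of_hasCompactSupport ((hMc n).sub continuous_const) ?_
    refine HasCompactSupport.intro (isCompact_closedBall (0 : ℂ) (R + 1)) ?_
    intro y hy
    rw [mem_closedBall, dist_zero_right, not_le] at hy
    rw [hMfar n y hy.le, sub_self]
  -- the difference
  set r : ℕ → ℂ → ℝ := fun n y => max (D.Mg (ro n) y - D.G (ro n) D.T y) 0 with hr
  have hrc : ∀ n, Continuous (r n) := fun n => ((hMc n).sub (hTc n)).max continuous_const
  have hrfar : ∀ n y, R + 1 ≤ ‖y‖ → r n y = 0 := by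
    intro n y hy
    simp only [hr]
    rw [hMfar n y hy, hTfar n y hy, sub_self, max_self]
  have hri : ∀ n, Integrable (r n) := by
    intro n
    refine Continuous.integrable_of_hasCompactSupport (hrc n) ?_
    refine HasCompactSupport.intro (isCompact_closedBall (0 : ℂ) (R + 1)) ?_
    intro y hy
    rw [mem_closedBall, dist_zero_right, not_le] at hy
    exact hrfar n y hy.le
  have h4 : ∀ n, -(∫ x in D.K, (D.T x - D.T0)) ≤ ∫ y, r n y := by
    intro n
    have h5 : ∫ y, ((D.Mg (ro n) y - 1 / D.J0 * D.T0) - (D.G (ro n) D.T y - 1 / D.J0 * D.T0))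
        ≤ ∫ y, r n y := by
      refine integral_mono ((h3 n).sub (h2 n).1) (hri n) fun y => ?_
      simp only [hr]
      refine le_trans (le_of_eq ?_) (le_max_left _ _)
      ring
    rw [integral_sub (h3 n) (h2 n).1, (h2 n).2] at h5
    linarith [h1 n]
  have h6 : Tendsto (fun n => ∫ y, r n y) atTop (𝓝 (∫ _ : ℂ, (0 : ℝ))) := by
    refine tendsto_integral_of_dominated_convergence
      ((closedBall (0 : ℂ) (R + 1)).indicator fun _ => 1) ?_ ?_ ?_ ?_
    · intro n
      exact (hrc n).aestronglyMeasurable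
    · exact (integrable_indicator_iff measurableSet_closedBall).2
        (integrableOn_const (measure_closedBall_lt_top).ne)
    · intro n
      refine Eventually.of_forall fun x => ?_
      by_cases hx : x ∈ closedBall (0 : ℂ) (R + 1)
      · rw [indicator_of_mem hx, Real.norm_of_nonneg (le_max_right _ _)]
        apply max_le _ zero_le_one
        linarith [D.M_le_one (Mo_ro n) x]
      · rw [indicator_of_notMem hx]
        rw [mem_closedBall, dist_zero_right, not_le] at hx
        rw [hrfar n x hx.le, norm_zero]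
    · filter_upwards [D.reg] with y hy
      rw [Metric.tendsto_atTop']
      intro ε hε
      obtain ⟨N, hN⟩ := eventually_atTop.1 (D.ptw hy (half_pos hε))
      refine ⟨N, fun n hn => ?_⟩
      rw [dist_zero_right, Real.norm_of_nonneg (le_max_right _ _)]
      have := hN n hn.le
      apply max_lt _ hε
      linarith
  rw [integral_zero] at h6
  have h7 := ge_of_tendsto' h6 h4
  linarith

end Dt

/-- the integral inequality for the majorant -/
theorem T_qc (F0 : ℂ × ℂ) (f : ℂ → ℂ) (hf : ContDiff ℝ 2 f) (hc : HasCompactSupport f) :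
    0 ≤ ∫ z : ℂ, (Tx ‖(F0 + (dz f z, dzb f z)).1‖ ‖(F0 + (dz f z, dzb f z)).2‖
      - Tx ‖F0.1‖ ‖F0.2‖) := by
  have hfc : Continuous (fderiv ℝ f) := hf.continuous_fderiv (by norm_num)
  have c1 : Continuous (dz f) := by
    unfold dz
    have h1 : Continuous fun x => fderiv ℝ f x 1 := hfc.clm_apply continuous_const
    have h2 : Continuous fun x => fderiv ℝ f x Complex.I := hfc.clm_apply continuous_const
    fun_prop
  have c2 : Continuous (dzb f) := by
    unfold dzb
    have h1 : Continuous fun x => fderiv ℝ f x 1 := hfc.clm_apply continuous_const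
    have h2 : Continuous fun x => fderiv ℝ f x Complex.I := hfc.clm_apply continuous_const
    fun_prop
  have hoff : ∀ z, z ∉ tsupport f → dz f z = 0 ∧ dzb f z = 0 := by
    intro z hz
    have h0 : fderiv ℝ f z = 0 := by
      by_contra h
      exact hz (support_fderiv_subset ℝ h)
    simp [dz, dzb, h0]
  rcases le_total (‖F0.1‖ - ‖F0.2‖) 1 with h | h
  · -- convexity
    have hcv : ConvexOn ℝ univ (fun F : ℂ × ℂ => 2 * ‖F.1‖) := by
      refine ⟨convex_univ, fun x _ y _ s t hs ht hst => ?_⟩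
      simp only [Prod.fst_add, Prod.smul_fst, smul_eq_mul]
      have h1 := norm_add_le (s • x.1) (t • y.1)
      rw [norm_smul, norm_smul, Real.norm_of_nonneg hs, Real.norm_of_nonneg ht] at h1
      linarith
    have hcc : Continuous (fun F : ℂ × ℂ => 2 * ‖F.1‖) := by fun_prop
    have h1 := Pool.Agent.W925.MQ.C1.main _ hcc (Pool.Agent.W465.MQ.CVX.main _ hcv hcc) F0 f
      (hf.of_le (by norm_num)) hc
    refine h1.trans ?_
    apply integral_mono
    · refine Continuous.integrable_of_hasCompactSupport (by fun_prop) ?_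
      refine HasCompactSupport.intro hc ?_
      intro z hz
      simp [hoff z hz]
    · refine Continuous.integrable_of_hasCompactSupport ?_ ?_
      · exact (cont_T.comp (f := fun z => F0 + (dz f z, dzb f z)) (by fun_prop)).sub
          continuous_const
      · refine HasCompactSupport.intro hc ?_
        intro z hz
        simp [hoff z hz]
    · intro z
      simp only
      rw [T_low h]
      have := T_ge (x := ‖(F0 + (dz f z, dzb f z)).1‖) (norm_nonneg (F0 + (dz f z, dzb f z)).2)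
      linarith
  · have hab : ‖F0.2‖ < ‖F0.1‖ := by linarith
    let D : Dt := ⟨F0.1, F0.2, f, hab, hf, hc⟩
    have h1 := D.int_T
    refine h1.trans (le_of_eq ?_)
    have h2 : ∫ x in D.K, (D.T x - D.T0) = ∫ x, (D.T x - D.T0) := by
      apply setIntegral_eq_integral_of_forall_compl_eq_zero
      intro x hx
      rw [D.T_off hx, sub_self]
    rw [h2]
    rfl

/-- the dual kernel, `C²` maps -/
theorem Z_qc (F0 : ℂ × ℂ) (f : ℂ → ℂ) (hf : ContDiff ℝ 2 f) (hc : HasCompactSupport f) :
    0 ≤ ∫ z : ℂ, (Zx ‖(F0 + (dz f z, dzb f z)).1‖ ‖(F0 + (dz f z, dzb f z)).2‖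
      - Zx ‖F0.1‖ ‖F0.2‖) := by
  have hfc : Continuous (fderiv ℝ f) := hf.continuous_fderiv (by norm_num)
  have c1 : Continuous (dz f) := by
    unfold dz
    have h1 : Continuous fun x => fderiv ℝ f x 1 := hfc.clm_apply continuous_const
    have h2 : Continuous fun x => fderiv ℝ f x Complex.I := hfc.clm_apply continuous_const
    fun_prop
  have c2 : Continuous (dzb f) := by
    unfold dzb
    have h1 : Continuous fun x => fderiv ℝ f x 1 := hfc.clm_apply continuous_const
    have h2 : Continuous fun x => fderiv ℝ f x Complex.I := hfc.clm_apply continuous_const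
    fun_prop
  have hoff : ∀ z, z ∉ tsupport f → dz f z = 0 ∧ dzb f z = 0 := by
    intro z hz
    have h0 : fderiv ℝ f z = 0 := by
      by_contra h
      exact hz (support_fderiv_subset ℝ h)
    simp [dz, dzb, h0]
  have h1 := T_qc F0 f hf hc
  have hcd : Continuous (fun F : ℂ × ℂ => (-1 : ℝ) * (‖F.1‖ ^ 2 - ‖F.2‖ ^ 2)) := by fun_prop
  have h2 := Pool.Agent.W925.MQ.C1.main _ hcd (Pool.Agent.W925.MQ.Det.main (-1)) F0 f
    (hf.of_le (by norm_num)) hc
  have i1 : Integrable (fun z => Tx ‖(F0 + (dz f z, dzb f z)).1‖ ‖(F0 + (dz f z, dzb f z)).2‖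
      - Tx ‖F0.1‖ ‖F0.2‖) := by
    refine Continuous.integrable_of_hasCompactSupport ?_ ?_
    · exact (cont_T.comp (f := fun z => F0 + (dz f z, dzb f z)) (by fun_prop)).sub
        continuous_const
    · refine HasCompactSupport.intro hc ?_
      intro z hz
      simp [hoff z hz]
  have i2 : Integrable (fun z => (-1 : ℝ) * (‖(F0 + (dz f z, dzb f z)).1‖ ^ 2
      - ‖(F0 + (dz f z, dzb f z)).2‖ ^ 2) - (-1 : ℝ) * (‖F0.1‖ ^ 2 - ‖F0.2‖ ^ 2)) := by
    refine Continuous.integrable_of_hasCompactSupport (by fun_prop) ?_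
    refine HasCompactSupport.intro hc ?_
    intro z hz
    simp [hoff z hz]
  have h3 := add_nonneg h1 h2
  rw [← integral_add i1 i2] at h3
  refine h3.trans (le_of_eq ?_)
  refine integral_congr_ae (Eventually.of_forall fun z => ?_)
  simp only [Z_eq]
  ring

/-- quasiconvexity at `F0`, for Lipschitz maps of compact support -/
def QL (w : ℂ × ℂ → ℝ) (F0 : ℂ × ℂ) : Prop := ∀ f : ℂ → ℂ, (∃ K, LipschitzWith K f) →
  HasCompactSupport f → 0 ≤ ∫ z : ℂ, (w (F0 + (dz f z, dzb f z)) - w F0)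

open Pool.Agent.W918.MQ in
theorem QL_of_C2 {w : ℂ × ℂ → ℝ} (hw : Continuous w) {F0 : ℂ × ℂ}
    (h : ∀ f : ℂ → ℂ, ContDiff ℝ 2 f → HasCompactSupport f →
      0 ≤ ∫ z : ℂ, (w (F0 + (dz f z, dzb f z)) - w F0)) : QL w F0 := by
  intro f ⟨K, hf⟩ hcs
  -- the integrand as a function of the derivative
  set G : LL → ℝ := fun A => w (F0 + DD A) - w F0 with hG
  have hGc : Continuous G := by
    have := DD_cont
    fun_prop
  have hG0 : G 0 = 0 := by simp [hG, DD_zero]
  have hcd2 : ∀ n, ContDiff ℝ 2 (mol n f) := fun n =>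
    (ro_cs n).contDiff_convolution_left _ (bmp n).contDiff_normed hf.continuous.locallyIntegrable
  have h1 : ∀ n, 0 ≤ ∫ z : ℂ, G (fderiv ℝ (mol n f) z) := fun n =>
    h (mol n f) (hcd2 n) (mol_cs hcs n)
  obtain ⟨R, hR⟩ := hcs.isBounded.subset_closedBall (0 : ℂ)
  obtain ⟨M, hM⟩ := (isCompact_closedBall (0 : LL) K).exists_bound_of_continuousOn
    hGc.continuousOn
  have h2 : Tendsto (fun n => ∫ z : ℂ, G (fderiv ℝ (mol n f) z)) atTop
      (𝓝 (∫ z : ℂ, G (fderiv ℝ f z))) := by
    refine tendsto_integral_of_dominated_convergence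
      ((closedBall (0 : ℂ) (R + 1)).indicator fun _ => M) ?_ ?_ ?_ ?_
    · intro n
      exact (hGc.comp ((mol_cd hf n).continuous_fderiv one_ne_zero)).aestronglyMeasurable
    · exact (integrable_indicator_iff measurableSet_closedBall).2
        (integrableOn_const (measure_closedBall_lt_top).ne)
    · intro n
      refine Eventually.of_forall fun x => ?_
      by_cases hx : x ∈ closedBall (0 : ℂ) (R + 1)
      · rw [indicator_of_mem hx]
        exact hM _ (by
          rw [mem_closedBall, dist_zero_right]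
          exact mol_fderiv_bd hf n x)
      · rw [indicator_of_notMem hx]
        rw [mem_closedBall, dist_zero_right] at hx
        rw [mol_fderiv_zero hf hR n x (not_le.1 hx), hG0, norm_zero]
    · filter_upwards [mol_tendsto hf] with x hx
      exact (hGc.tendsto _).comp hx
  exact ge_of_tendsto' h2 h1

theorem Z_QL (F0 : ℂ × ℂ) : QL (fun F => Zx ‖F.1‖ ‖F.2‖) F0 :=
  QL_of_C2 cont_Z (Z_qc F0)

end Pool.Agent.TH937.ZC
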