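import Mathlib

/-!
# Null Lagrangians in the plane, in complex notation
-/

set_option autoImplicit false

namespace Pool.Agent.TH937.ZC

open MeasureTheory Set Filter Topology
open scoped ComplexConjugate

/-- the real linear map `h ↦ p h + q conj h` -/
noncomputable def Lin (p q : ℂ) : ℂ →L[ℝ] ℂ :=
  ContinuousLinearMap.mul ℝ ℂ p + (ContinuousLinearMap.mul ℝ ℂ q).comp (Complex.conjCLE : ℂ →L[ℝ] ℂ)

@[simp] theorem Lin_apply (p q h : ℂ) : Lin p q h = p * h + q * conj h := by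
  simp [Lin]

theorem Lin_det (p q : ℂ) : (Lin p q).det = ‖p‖ ^ 2 - ‖q‖ ^ 2 := by
  have h : (Lin p q).det = LinearMap.det ((Lin p q : ℂ →L[ℝ] ℂ) : ℂ →ₗ[ℝ] ℂ) := rfl
  rw [h, ← LinearMap.det_toMatrix Complex.basisOneI, Matrix.det_fin_two]
  simp only [LinearMap.toMatrix_apply, Complex.coe_basisOneI, Matrix.cons_val_zero,
    Matrix.cons_val_one, ContinuousLinearMap.coe_coe, Lin_apply, Complex.coe_basisOneI_repr]
  rw [← Complex.normSq_eq_norm_sq, ← Complex.normSq_eq_norm_sq, Complex.normSq_apply,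
    Complex.normSq_apply]
  simp
  ring

theorem Lin_cont : Continuous (fun P : ℂ × ℂ => Lin P.1 P.2) := by
  unfold Lin
  fun_prop

/-- the adjugate: `Lin p q (adj h) = det h` -/
theorem Lin_adj (p q h : ℂ) :
    Lin p q (conj p * h - q * conj h) = ((‖p‖ ^ 2 - ‖q‖ ^ 2 : ℝ) : ℂ) * h := by
  rw [Lin_apply]
  push_cast
  rw [← Complex.mul_conj', ← Complex.mul_conj']
  simp only [map_sub, map_mul, Complex.conj_conj]
  ring

theorem clm_real (A : ℂ →L[ℝ] ℂ) (h : ℂ) : A h = (h.re : ℝ) • A 1 + (h.im : ℝ) • A Complex.I := by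
  rw [← map_smul, ← map_smul, ← map_add]
  congr 1
  simp [Complex.re_add_im]

theorem Lin_of (A : ℂ →L[ℝ] ℂ) :
    A = Lin (1 / 2 * (A 1 - Complex.I * A Complex.I)) (1 / 2 * (A 1 + Complex.I * A Complex.I)) := by
  refine ContinuousLinearMap.ext fun x => ?_
  rw [clm_real A x, Lin_apply]
  have h1 : x = (x.re : ℂ) + (x.im : ℂ) * Complex.I := (Complex.re_add_im x).symm
  have h2 : conj x = (x.re : ℂ) - (x.im : ℂ) * Complex.I := by
    apply Complex.ext <;> simp
  rw [h2]
  conv_rhs => rw [h1]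
  simp only [Complex.add_re, Complex.ofReal_re, Complex.mul_re, Complex.I_re, Complex.ofReal_im,
    Complex.I_im, Complex.add_im, Complex.mul_im, Complex.real_smul]
  push_cast
  linear_combination (x.im * A Complex.I : ℂ) * Complex.I_mul_I

/-- integration by parts -/
theorem null (ω : ℂ → ℝ) (hω : ContDiff ℝ 2 ω) (χ : ℂ → ℂ) (hχ : ContDiff ℝ 1 χ)
    (hc : HasCompactSupport χ) :
    ∫ x, ((fderiv ℝ ω x Complex.I) • fderiv ℝ χ x 1
      - (fderiv ℝ ω x 1) • fderiv ℝ χ x Complex.I) = 0 := by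
  have hd : ContDiff ℝ 1 (fderiv ℝ ω) := hω.fderiv_right (by norm_num)
  have hdv : ∀ v : ℂ, ContDiff ℝ 1 (fun x => fderiv ℝ ω x v) := fun v =>
    hd.clm_apply contDiff_const
  have hdc : ∀ v : ℂ, Continuous (fun x => fderiv ℝ ω x v) := fun v => (hdv v).continuous
  have hχd : ∀ v : ℂ, Continuous (fun x => fderiv ℝ χ x v) := fun v =>
    (hχ.continuous_fderiv one_ne_zero).clm_apply continuous_const
  have hχc : ∀ v : ℂ, HasCompactSupport (fun x => fderiv ℝ χ x v) := fun v =>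
    (hc.fderiv (𝕜 := ℝ)).mono' (by
      intro x hx
      have : fderiv ℝ χ x ≠ 0 := by
        intro h0; apply hx; simp [h0]
      exact subset_tsupport _ this)
  have hI1 : ∀ v w : ℂ, Integrable (fun x => (fderiv ℝ ω x v) • fderiv ℝ χ x w) := fun v w =>
    ((hdc v).smul (hχd w)).integrable_of_hasCompactSupport (hχc w).smul_left
  have hI2 : ∀ v w : ℂ, Integrable
      (fun x => (fderiv ℝ (fun x => fderiv ℝ ω x v) x w) • χ x) := fun v w =>
    ((((hdv v).continuous_fderiv one_ne_zero).clm_apply continuous_const).smul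
      hχ.continuous).integrable_of_hasCompactSupport hc.smul_left
  have hI3 : ∀ v : ℂ, Integrable (fun x => (fderiv ℝ ω x v) • χ x) := fun v =>
    ((hdc v).smul hχ.continuous).integrable_of_hasCompactSupport hc.smul_left
  have hp : ∀ v w : ℂ, ∫ x, (fderiv ℝ ω x v) • fderiv ℝ χ x w
      = - ∫ x, (fderiv ℝ (fun x => fderiv ℝ ω x v) x w) • χ x := fun v w =>
    integral_smul_fderiv_eq_neg_fderiv_smul_of_integrable (hI2 v w) (hI1 v w) (hI3 v)
      (fun x _ => (hdv v).differentiable one_ne_zero x)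
      (fun x _ => hχ.differentiable one_ne_zero x)
  rw [integral_sub (hI1 _ _) (hI1 _ _), hp, hp]
  have hs : ∀ x, fderiv ℝ (fun x => fderiv ℝ ω x Complex.I) x 1
      = fderiv ℝ (fun x => fderiv ℝ ω x 1) x Complex.I := by
    intro x
    have hdx : DifferentiableAt ℝ (fderiv ℝ ω) x := hd.differentiable one_ne_zero x
    have e : ∀ v w : ℂ, fderiv ℝ (fun x => fderiv ℝ ω x v) x w
        = fderiv ℝ (fderiv ℝ ω) x w v := by
      intro v w
      have := (hdx.hasFDerivAt.clm_apply (hasFDerivAt_const v x)).fderiv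
      rw [this]
      simp
    rw [e, e]
    exact (hω.contDiffAt.isSymmSndFDerivAt (by simp)) _ _
  simp only [hs, sub_self]

/-- the same for the adjugate of the derivative of a map -/
theorem nullu (u : ℂ → ℂ) (hu : ContDiff ℝ 2 u) (p q : ℂ → ℂ)
    (hpq : ∀ x, HasFDerivAt u (Lin (p x) (q x)) x) (χ : ℂ → ℂ) (hχ : ContDiff ℝ 1 χ)
    (hc : HasCompactSupport χ) (h : ℂ) :
    ∫ x, fderiv ℝ χ x (conj (p x) * h - q x * conj h) = 0 := by
  set T : ℂ →L[ℝ] ℝ := Complex.imCLM.comp ((ContinuousLinearMap.mul ℝ ℂ (conj h))) with hT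
  have hTa : ∀ z, T z = (conj h * z).im := fun z => rfl
  have hω : ContDiff ℝ 2 (fun x => T (u x)) := T.contDiff.comp hu
  have hf : ∀ x k, fderiv ℝ (fun x => T (u x)) x k = (conj h * (p x * k + q x * conj k)).im := by
    intro x k
    have h1 : HasFDerivAt (fun x => T (u x)) (T.comp (Lin (p x) (q x))) x :=
      T.hasFDerivAt.comp x (hpq x)
    rw [h1.fderiv, ContinuousLinearMap.comp_apply, hTa, Lin_apply]
  have h0 := null _ hω χ hχ hc
  rw [← h0]
  congr 1
  ext1 x
  rw [hf, hf, clm_real (fderiv ℝ χ x)]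
  have e1 : (conj (p x) * h - q x * conj h).re = (conj h * (p x * Complex.I
      + q x * conj Complex.I)).im := by
    simp
    ring
  have e2 : (conj (p x) * h - q x * conj h).im = -(conj h * (p x * 1 + q x * conj 1)).im := by
    simp
    ring
  rw [e1, e2, neg_smul, sub_eq_add_neg]

/-- the push-forward identity -/
theorem key (u : ℂ → ℂ) (hu : ContDiff ℝ 2 u) (p q : ℂ → ℂ)
    (hpq : ∀ x, HasFDerivAt u (Lin (p x) (q x)) x) (hp : Continuous p) (hq : Continuous q)
    (ρ : ℂ → ℝ) (hρ : ContDiff ℝ 1 ρ)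
    (y : ℂ) (hy : HasCompactSupport (fun x => ρ (y - u x)))
    (hy' : ∀ h, HasCompactSupport (fun x => fderiv ℝ ρ (y - u x) h))
    (ψ : ℂ → ℂ) (hψ : ContDiff ℝ 1 ψ) (h : ℂ) :
    ∫ x, (fderiv ℝ ρ (y - u x) h * (‖p x‖ ^ 2 - ‖q x‖ ^ 2)) • ψ x
      = ∫ x, ρ (y - u x) • fderiv ℝ ψ x (conj (p x) * h - q x * conj h) := by
  set χ : ℂ → ℂ := fun x => ρ (y - u x) • ψ x with hχ
  have hρu : ContDiff ℝ 1 (fun x => ρ (y - u x)) :=
    hρ.comp (contDiff_const.sub (hu.of_le (by norm_num)))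
  have hχd : ContDiff ℝ 1 χ := hρu.smul hψ
  have hχc : HasCompactSupport χ := hy.smul_right
  have h0 := nullu u hu p q hpq χ hχd hχc h
  have hd : ∀ x, fderiv ℝ χ x (conj (p x) * h - q x * conj h)
      = ρ (y - u x) • fderiv ℝ ψ x (conj (p x) * h - q x * conj h)
        - (fderiv ℝ ρ (y - u x) h * (‖p x‖ ^ 2 - ‖q x‖ ^ 2)) • ψ x := by
    intro x
    have h1 : HasFDerivAt (fun x => y - u x) (-(Lin (p x) (q x))) x := (hpq x).const_sub y
    have h2 : HasFDerivAt (fun x => ρ (y - u x))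
        ((fderiv ℝ ρ (y - u x)).comp (-(Lin (p x) (q x)))) x :=
      ((hρ.differentiable one_ne_zero _).hasFDerivAt).comp x h1
    have h3 : HasFDerivAt ψ (fderiv ℝ ψ x) x := (hψ.differentiable one_ne_zero x).hasFDerivAt
    have h4 := (h2.fun_smul h3).fderiv
    rw [hχ, h4]
    simp only [_root_.add_apply, _root_.smul_apply,
      ContinuousLinearMap.smulRight_apply, ContinuousLinearMap.comp_apply,
      _root_.neg_apply, map_neg]
    rw [Lin_adj, ← Complex.real_smul, map_smul, smul_eq_mul, neg_smul, ← sub_eq_add_neg,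
      mul_comm (‖p x‖ ^ 2 - ‖q x‖ ^ 2)]
  simp only [hd] at h0
  have hcψ : Continuous (fun x => fderiv ℝ ψ x (conj (p x) * h - q x * conj h)) :=
    (hψ.continuous_fderiv one_ne_zero).clm_apply (by fun_prop)
  have hi1 : Integrable (fun x => ρ (y - u x) • fderiv ℝ ψ x (conj (p x) * h - q x * conj h)) :=
    (hρu.continuous.smul hcψ).integrable_of_hasCompactSupport hy.smul_right
  have hcρ : Continuous (fun x => fderiv ℝ ρ (y - u x) h) :=
    ((hρ.continuous_fderiv one_ne_zero).comp (continuous_const.sub hu.continuous)).clm_apply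
      continuous_const
  have hi2 : Integrable (fun x => (fderiv ℝ ρ (y - u x) h * (‖p x‖ ^ 2 - ‖q x‖ ^ 2)) • ψ x) :=
    ((hcρ.mul (by fun_prop)).smul hψ.continuous).integrable_of_hasCompactSupport
      ((hy' h).mul_right.smul_right)
  rw [integral_sub hi1 hi2] at h0
  exact (sub_eq_zero.1 h0).symm

end Pool.Agent.TH937.ZC
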