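import Pool.Agent.TH937.ZC.Main

/-!
# Closure properties of quasiconvexity at a point
-/

set_option autoImplicit false

namespace Pool.Agent.TH937.ZC

open MeasureTheory Set Filter Topology Metric
open scoped ComplexConjugate
open Pool.Agent.W488.IW (dz dzb)
open Pool.Agent.W918.MQ (DD DD_cont DD_zero LL)
open Pool.Agent.W360.MQ (QA wf cab Quasiconvex S_LIP)

theorem slip : S_LIP := Pool.Agent.W918.MQ.main Pool.Agent.W925.MQ.C1.main

theorem QL_of_QA {w : ℂ × ℂ → ℝ} (hw : Continuous w) (h : QA w) (F0 : ℂ × ℂ) : QL w F0 :=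
  fun f hf hc => slip w hw h F0 f hf hc

theorem QL_conv {w : ℂ × ℂ → ℝ} (hw : Continuous w) (h : ConvexOn ℝ univ w) (F0 : ℂ × ℂ) :
    QL w F0 := QL_of_QA hw (Pool.Agent.W465.MQ.CVX.main _ h hw) F0

theorem QL_det (c : ℝ) (F0 : ℂ × ℂ) : QL (fun F => c * (‖F.1‖ ^ 2 - ‖F.2‖ ^ 2)) F0 :=
  QL_of_QA (by fun_prop) (Pool.Agent.W925.MQ.Det.main c) F0

section

variable {f : ℂ → ℂ} {K : NNReal}

theorem fd_bd (hf : LipschitzWith K f) (z : ℂ) : ‖fderiv ℝ f z‖ ≤ K :=
  norm_fderiv_le_of_lipschitz ℝ hf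

theorem dz_bd (hf : LipschitzWith K f) (z : ℂ) : ‖dz f z‖ ≤ K := by
  have h1 := (fderiv ℝ f z).le_opNorm 1
  have h2 := (fderiv ℝ f z).le_opNorm Complex.I
  have h3 := fd_bd hf z
  rw [norm_one, mul_one] at h1
  rw [Complex.norm_I, mul_one] at h2
  unfold dz
  have h4 := norm_sub_le (fderiv ℝ f z 1) (Complex.I * fderiv ℝ f z Complex.I)
  rw [norm_mul Complex.I, Complex.norm_I, one_mul] at h4
  rw [norm_mul]
  have : ‖(1 / 2 : ℂ)‖ = 1 / 2 := by norm_num
  rw [this]
  linarith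

theorem dzb_bd (hf : LipschitzWith K f) (z : ℂ) : ‖dzb f z‖ ≤ K := by
  have h1 := (fderiv ℝ f z).le_opNorm 1
  have h2 := (fderiv ℝ f z).le_opNorm Complex.I
  have h3 := fd_bd hf z
  rw [norm_one, mul_one] at h1
  rw [Complex.norm_I, mul_one] at h2
  unfold dzb
  have h4 := norm_add_le (fderiv ℝ f z 1) (Complex.I * fderiv ℝ f z Complex.I)
  rw [norm_mul Complex.I, Complex.norm_I, one_mul] at h4
  rw [norm_mul]
  have : ‖(1 / 2 : ℂ)‖ = 1 / 2 := by norm_num
  rw [this]
  linarith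

theorem off_supp {z : ℂ} (hz : z ∉ tsupport f) : (dz f z, dzb f z) = (0 : ℂ × ℂ) := by
  have h0 : fderiv ℝ f z = 0 := by
    by_contra h
    exact hz (support_fderiv_subset ℝ h)
  simp [dz, dzb, h0]

theorem int_QL {w : ℂ × ℂ → ℝ} (hw : Continuous w) (F0 : ℂ × ℂ) (hf : LipschitzWith K f)
    (hc : HasCompactSupport f) :
    Integrable (fun z => w (F0 + (dz f z, dzb f z)) - w F0) := by
  set G : LL → ℝ := fun A => w (F0 + DD A) - w F0 with hG
  have hGc : Continuous G := by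
    have := DD_cont
    fun_prop
  obtain ⟨M, hM⟩ := (isCompact_closedBall (0 : LL) K).exists_bound_of_continuousOn
    hGc.continuousOn
  have hs : Function.support (fun z => w (F0 + (dz f z, dzb f z)) - w F0) ⊆ tsupport f := by
    intro z hz
    by_contra h
    apply hz
    simp only
    rw [off_supp h, add_zero, sub_self]
  refine (integrableOn_iff_integrable_of_support_subset hs).1 ?_
  refine Measure.integrableOn_of_bounded (M := M) (hc.isCompact.measure_lt_top.ne) ?_ ?_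
  · exact (hGc.measurable.comp (measurable_fderiv ℝ f)).aestronglyMeasurable
  · exact Eventually.of_forall fun z => hM (fderiv ℝ f z) (by
      rw [mem_closedBall, dist_zero_right]; exact fd_bd hf z)

theorem QL_supp_eq {w : ℂ × ℂ → ℝ} (F0 : ℂ × ℂ) :
    ∫ z, (w (F0 + (dz f z, dzb f z)) - w F0)
      = ∫ z in tsupport f, (w (F0 + (dz f z, dzb f z)) - w F0) := by
  symm
  apply setIntegral_eq_integral_of_forall_compl_eq_zero
  intro z hz
  rw [off_supp hz, add_zero, sub_self]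

end

theorem QL_add {w1 w2 : ℂ × ℂ → ℝ} (h1 : Continuous w1) (h2 : Continuous w2) {F0 : ℂ × ℂ}
    (q1 : QL w1 F0) (q2 : QL w2 F0) : QL (fun F => w1 F + w2 F) F0 := by
  intro f ⟨K, hf⟩ hc
  have := add_nonneg (q1 f ⟨K, hf⟩ hc) (q2 f ⟨K, hf⟩ hc)
  rw [← integral_add (int_QL h1 F0 hf hc) (int_QL h2 F0 hf hc)] at this
  refine this.trans (le_of_eq ?_)
  refine integral_congr_ae (Eventually.of_forall fun z => ?_)
  simp only
  ring

theorem QL_smul {w : ℂ × ℂ → ℝ} {c : ℝ} (hc : 0 ≤ c) {F0 : ℂ × ℂ}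
    (q : QL w F0) : QL (fun F => c * w F) F0 := by
  intro f hf hcs
  have := mul_nonneg hc (q f hf hcs)
  rw [← integral_const_mul] at this
  refine this.trans (le_of_eq ?_)
  refine integral_congr_ae (Eventually.of_forall fun z => ?_)
  simp only
  ring

theorem QL_const (c : ℝ) (F0 : ℂ × ℂ) : QL (fun _ => c) F0 := by
  intro f hf hcs
  simp

theorem QL_sum {ι : Type*} (s : Finset ι) {w : ι → ℂ × ℂ → ℝ} (h : ∀ i, Continuous (w i))
    {F0 : ℂ × ℂ} (q : ∀ i ∈ s, QL (w i) F0) : QL (fun F => ∑ i ∈ s, w i F) F0 := by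
  classical
  induction s using Finset.induction_on with
  | empty => simpa using QL_const 0 F0
  | insert i s his ih =>
    have h1 := QL_add (h i) (w2 := fun F => ∑ j ∈ s, w j F)
      (continuous_finsetSum s fun j _ => h j)
      (q i (Finset.mem_insert_self i s)) (ih fun j hj => q j (Finset.mem_insert_of_mem hj))
    simpa [Finset.sum_insert his] using h1

theorem QL_support {w : ℂ × ℂ → ℝ} (hw : Continuous w) {F0 : ℂ × ℂ}
    (h : ∀ R ε : ℝ, 0 < R → 0 < ε → ∃ k : ℂ × ℂ → ℝ, Continuous k ∧ QL k F0 ∧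
      (∀ F : ℂ × ℂ, ‖F.1‖ + ‖F.2‖ ≤ R → k F ≤ w F + ε) ∧ w F0 ≤ k F0 + ε) : QL w F0 := by
  intro f ⟨K, hf⟩ hc
  refine le_of_forall_pos_le_add fun η hη => ?_
  set m : ℝ := volume.real (tsupport f) with hm
  have hm0 : 0 ≤ m := measureReal_nonneg
  obtain ⟨k, hk, qk, hle, h0⟩ := h (‖F0.1‖ + ‖F0.2‖ + 2 * K + 1) (η / (2 * (m + 1)))
    (by positivity) (by positivity)
  have h1 := qk f ⟨K, hf⟩ hc
  rw [QL_supp_eq] at h1 ⊢
  have i1 := (int_QL hk F0 hf hc).integrableOn (s := tsupport f)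
  have i2 := (int_QL hw F0 hf hc).integrableOn (s := tsupport f)
  have i3 : IntegrableOn (fun _ : ℂ => 2 * (η / (2 * (m + 1)))) (tsupport f) :=
    integrableOn_const hc.isCompact.measure_lt_top.ne
  have h2 : ∫ z in tsupport f, (k (F0 + (dz f z, dzb f z)) - k F0) ≤
      ∫ z in tsupport f, ((w (F0 + (dz f z, dzb f z)) - w F0) + 2 * (η / (2 * (m + 1)))) := by
    refine setIntegral_mono_on i1 (i2.add i3) hc.isCompact.measurableSet ?_
    intro z _
    have h3 := hle (F0 + (dz f z, dzb f z)) (by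
      have e1 := norm_add_le F0.1 (dz f z)
      have e2 := norm_add_le F0.2 (dzb f z)
      have e3 := dz_bd hf z
      have e4 := dzb_bd hf z
      simp only [Prod.fst_add, Prod.snd_add]
      linarith)
    linarith
  rw [integral_add i2 i3, setIntegral_const, smul_eq_mul, ← hm] at h2
  have h4 : m * (2 * (η / (2 * (m + 1)))) ≤ η := by
    have : m * (2 * (η / (2 * (m + 1)))) = η * (m / (m + 1)) := by
      field_simp
    rw [this]
    have h5 : m / (m + 1) ≤ 1 := by
      rw [div_le_one (by linarith)]; linarith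
    nlinarith
  linarith

theorem QL_shift {w : ℂ × ℂ → ℝ} {F0 F1 : ℂ × ℂ} (h : QL w F1) :
    QL (fun F => w (F + (F1 - F0))) F0 := by
  intro f hf hc
  have := h f hf hc
  refine this.trans (le_of_eq ?_)
  refine integral_congr_ae (Eventually.of_forall fun z => ?_)
  simp only
  congr 2
  · abel
  · abel

theorem QL_closed {w : ℂ × ℂ → ℝ} (hw : Continuous w) {F0 : ℂ × ℂ}
    (h : ∀ δ : ℝ, 0 < δ → ∃ F1, ‖F1 - F0‖ < δ ∧ QL w F1) : QL w F0 := by
  apply QL_support hw
  intro R ε hR hε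
  have hcpt : IsCompact (closedBall (0 : ℂ × ℂ) (R + ‖F0‖ + 1)) := isCompact_closedBall _ _
  obtain ⟨δ, hδ, hu⟩ := Metric.uniformContinuousOn_iff.1
    (hcpt.uniformContinuousOn_of_continuous hw.continuousOn) ε hε
  obtain ⟨F1, hF1, hq⟩ := h (min δ 1) (by positivity)
  have hF1δ : ‖F1 - F0‖ < δ := lt_of_lt_of_le hF1 (min_le_left _ _)
  have hF11 : ‖F1 - F0‖ < 1 := lt_of_lt_of_le hF1 (min_le_right _ _)
  have key : ∀ F : ℂ × ℂ, ‖F‖ ≤ R + ‖F0‖ → |w (F + (F1 - F0)) - w F| < ε := by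
    intro F hF
    have := hu (F + (F1 - F0)) (by
      rw [mem_closedBall, dist_zero_right]
      have := norm_add_le F (F1 - F0)
      linarith) F (by
      rw [mem_closedBall, dist_zero_right]; linarith) (by
      rw [dist_eq_norm, add_sub_cancel_left]; exact hF1δ)
    rwa [Real.dist_eq] at this
  refine ⟨fun F => w (F + (F1 - F0)), by fun_prop, QL_shift hq, ?_, ?_⟩
  · intro F hF
    have h1 : ‖F‖ ≤ R + ‖F0‖ := by
      rw [Prod.norm_def]
      have := norm_nonneg F.1
      have := norm_nonneg F.2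
      have := norm_nonneg F0
      exact max_le (by linarith) (by linarith)
    have := (abs_lt.1 (key F h1)).2
    linarith
  · have := (abs_lt.1 (key F0 (by linarith))).1
    simp only at this ⊢
    linarith

end Pool.Agent.TH937.ZC
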