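import Pool.Agent.TH937.ZC.Dsup
import Pool.Agent.TH937.TF.Fin

/-!
# Consequences of rank-one convexity for `a(v) s + b(v)`
-/

set_option autoImplicit false

namespace Pool.Agent.TH937.ZC

open MeasureTheory Set Filter Topology
open scoped ComplexConjugate
open Pool.Agent.W360.MQ (cab RankOneConvex Quasiconvex)
open Pool.Agent.TH937.TF (bac cab_bac)

/-- rank-one convexity in the variables `(u_z, u_zbar)` -/
def RCc (w : ℂ × ℂ → ℝ) : Prop := ∀ F H : ℂ × ℂ, ‖H.1‖ = ‖H.2‖ → ∀ t : ℝ, 0 ≤ t → t ≤ 1 →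
  w (F + t • H) ≤ (1 - t) * w F + t * w (F + H)

theorem rank_one (p q r s : ℝ) (hdet : p * s = q * r) (hne : ¬ (p = 0 ∧ q = 0 ∧ r = 0 ∧ s = 0)) :
    (!![p, q; r, s] : Matrix (Fin 2) (Fin 2) ℝ).rank = 1 := by
  have hle : (!![p, q; r, s] : Matrix (Fin 2) (Fin 2) ℝ).rank ≤ 1 := by
    by_cases hp : p = 0
    · subst hp
      rw [zero_mul] at hdet
      by_cases hq : q = 0
      · subst hq
        have : (!![0, 0; r, s] : Matrix (Fin 2) (Fin 2) ℝ) = Matrix.vecMulVec ![0, 1] ![r, s] := by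
          ext i j
          fin_cases i <;> fin_cases j <;> simp [Matrix.vecMulVec_apply]
        rw [this]
        exact Matrix.rank_vecMulVec_le _ _
      · have hr : r = 0 := by
          rcases mul_eq_zero.1 hdet.symm with h | h
          · exact absurd h hq
          · exact h
        subst hr
        have : (!![0, q; 0, s] : Matrix (Fin 2) (Fin 2) ℝ) = Matrix.vecMulVec ![q, s] ![0, 1] := by
          ext i j
          fin_cases i <;> fin_cases j <;> simp [Matrix.vecMulVec_apply]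
        rw [this]
        exact Matrix.rank_vecMulVec_le _ _
    · have : (!![p, q; r, s] : Matrix (Fin 2) (Fin 2) ℝ)
          = Matrix.vecMulVec ![1, r / p] ![p, q] := by
        ext i j
        fin_cases i <;> fin_cases j <;> simp [Matrix.vecMulVec_apply, hp]
        field_simp
        linarith
      rw [this]
      exact Matrix.rank_vecMulVec_le _ _
  have hpos : (!![p, q; r, s] : Matrix (Fin 2) (Fin 2) ℝ).rank ≠ 0 := by
    intro h0
    rw [Matrix.rank, Submodule.finrank_eq_zero, LinearMap.range_eq_bot] at h0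
    have h : (!![p, q; r, s] : Matrix (Fin 2) (Fin 2) ℝ) = 0 := by
      ext i j
      have h1 := congrFun (LinearMap.congr_fun h0 (Pi.single j 1)) i
      simpa using h1
    apply hne
    refine ⟨?_, ?_, ?_, ?_⟩
    · simpa using congrFun (congrFun h 0) 0
    · simpa using congrFun (congrFun h 0) 1
    · simpa using congrFun (congrFun h 1) 0
    · simpa using congrFun (congrFun h 1) 1
  omega

theorem bac_add (F H : ℂ × ℂ) : bac (F + H) = bac F + bac H := by
  unfold bac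
  ext i j
  fin_cases i <;> fin_cases j <;> simp <;> ring

theorem bac_smul (t : ℝ) (F : ℂ × ℂ) : bac (t • F) = t • bac F := by
  unfold bac
  ext i j
  fin_cases i <;> fin_cases j <;> simp <;> ring

theorem bac_inj0 {H : ℂ × ℂ} (h : bac H = 0) : H = 0 := by
  have := cab_bac H
  rw [h] at this
  rw [← this]
  unfold cab
  simp

theorem RCc_of {w : ℂ × ℂ → ℝ} (hR : RankOneConvex (fun A => w (cab A))) : RCc w := by
  intro F H hH t h0 h1
  by_cases hz : H = 0
  · subst hz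
    simp only [smul_zero, add_zero]
    linarith
  have hrank : (bac H).rank = 1 := by
    unfold bac
    apply rank_one
    · have e : ‖H.1‖ ^ 2 = ‖H.2‖ ^ 2 := by rw [hH]
      rw [← Complex.normSq_eq_norm_sq, ← Complex.normSq_eq_norm_sq, Complex.normSq_apply,
        Complex.normSq_apply] at e
      simp only [Complex.add_re, Complex.sub_re, Complex.add_im, Complex.sub_im]
      nlinarith
    · rintro ⟨e1, e2, e3, e4⟩
      apply hz
      apply bac_inj0
      unfold bac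
      rw [e1, e2, e3, e4]
      ext i j
      fin_cases i <;> fin_cases j <;> simp
  have h := hR (bac F) (bac H) hrank t h0 h1
  have e1 : (1 - t) • bac F + t • (bac F + bac H) = bac (F + t • H) := by
    rw [bac_add, bac_smul, smul_add, sub_smul, one_smul]
    abel
  change w (cab ((1 - t) • bac F + t • (bac F + bac H)))
    ≤ (1 - t) * w (cab (bac F)) + t * w (cab (bac F + bac H)) at h
  rw [e1, ← bac_add, cab_bac, cab_bac, cab_bac] at h
  exact h

/-- the function -/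
noncomputable def gf (a b : ℝ → ℝ) (F : ℂ × ℂ) : ℝ :=
  a (‖F.1‖ - ‖F.2‖) * (‖F.1‖ + ‖F.2‖) + b (‖F.1‖ - ‖F.2‖)

theorem gf_diag (a b : ℝ → ℝ) {s v : ℝ} (h : |v| ≤ s) :
    gf a b ((((v + s) / 2 : ℝ) : ℂ), (((v - s) / 2 : ℝ) : ℂ)) = a v * s + b v := by
  have h' := abs_le.1 h
  unfold gf
  simp only [Complex.norm_real, Real.norm_eq_abs]
  rw [abs_of_nonneg (by linarith : 0 ≤ (v + s) / 2), abs_of_nonpos (by linarith : (v - s) / 2 ≤ 0)]
  have e1 : (v + s) / 2 - -((v - s) / 2) = v := by ring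
  have e2 : (v + s) / 2 + -((v - s) / 2) = s := by ring
  rw [e1, e2]

theorem cv_of {a b : ℝ → ℝ} (hR : RCc (gf a b)) (s : ℝ) :
    ConvexOn ℝ (Icc (-s) s) (fun v => a v * s + b v) := by
  refine ⟨convex_Icc _ _, fun x hx y hy α β hα hβ hαβ => ?_⟩
  have hx' : |x| ≤ s := abs_le.2 hx
  have hy' : |y| ≤ s := abs_le.2 hy
  have hz : |α • x + β • y| ≤ s := abs_le.2 ((convex_Icc (-s) s) hx hy hα hβ hαβ)
  have h := hR ((((x + s) / 2 : ℝ) : ℂ), (((x - s) / 2 : ℝ) : ℂ))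
    ((((y - x) / 2 : ℝ) : ℂ), (((y - x) / 2 : ℝ) : ℂ)) rfl β hβ (by linarith)
  have e1 : ((((x + s) / 2 : ℝ) : ℂ), (((x - s) / 2 : ℝ) : ℂ))
      + ((((y - x) / 2 : ℝ) : ℂ), (((y - x) / 2 : ℝ) : ℂ))
      = ((((y + s) / 2 : ℝ) : ℂ), (((y - s) / 2 : ℝ) : ℂ)) := by
    rw [Prod.mk_add_mk]
    congr 1 <;> (push_cast; ring)
  have hα' : α = 1 - β := by linarith
  have e2 : ((((x + s) / 2 : ℝ) : ℂ), (((x - s) / 2 : ℝ) : ℂ))
      + β • ((((y - x) / 2 : ℝ) : ℂ), (((y - x) / 2 : ℝ) : ℂ))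
      = ((((α • x + β • y + s) / 2 : ℝ) : ℂ), (((α • x + β • y - s) / 2 : ℝ) : ℂ)) := by
    rw [Prod.smul_mk, Prod.mk_add_mk]
    simp only [Complex.real_smul, smul_eq_mul]
    rw [hα']
    congr 1 <;> (push_cast; ring)
  rw [e1, e2, gf_diag a b hx', gf_diag a b hy', gf_diag a b hz] at h
  simp only [smul_eq_mul] at h ⊢
  rw [hα'] at h ⊢
  exact h

theorem conv_a {a b : ℝ → ℝ} (hcv : ∀ s, 0 < s → ConvexOn ℝ (Icc (-s) s) (fun v => a v * s + b v)) :
    ConvexOn ℝ univ a := by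
  refine ⟨convex_univ, fun x _ y _ α β hα hβ hαβ => ?_⟩
  by_contra hlt
  rw [not_le] at hlt
  simp only [smul_eq_mul] at hlt
  set D : ℝ := a (α * x + β * y) - (α * a x + β * a y) with hD
  have hD0 : 0 < D := by linarith
  set E : ℝ := α * b x + β * b y - b (α * x + β * y) with hE
  set s : ℝ := |x| + |y| + |E| / D + 1 with hs
  have hED : 0 ≤ |E| / D := by positivity
  have hs0 : 0 < s := by positivity
  have hx : x ∈ Icc (-s) s := abs_le.1 (by rw [hs]; linarith [abs_nonneg y])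
  have hy : y ∈ Icc (-s) s := abs_le.1 (by rw [hs]; linarith [abs_nonneg x])
  have h := (hcv s hs0).2 hx hy hα hβ hαβ
  simp only [smul_eq_mul] at h
  have h1 : D * s ≤ E := by rw [hD, hE]; linarith
  have h2 : |E| + D ≤ D * s := by
    have h3 : D * (|E| / D) = |E| := by field_simp
    have h4 : D * s = D * (|x| + |y|) + D * (|E| / D) + D := by rw [hs]; ring
    have h5 : 0 ≤ D * (|x| + |y|) := by positivity
    linarith
  linarith [le_abs_self E]

theorem gs_cont {a b : ℝ → ℝ} (hcv : ∀ s, 0 < s → ConvexOn ℝ (Icc (-s) s) (fun v => a v * s + b v)) :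
    Continuous a ∧ Continuous b := by
  have ha : Continuous a := by
    have := (conv_a hcv).continuousOn isOpen_univ
    exact continuousOn_univ.1 this
  refine ⟨ha, ?_⟩
  rw [continuous_iff_continuousAt]
  intro v
  set s : ℝ := |v| + 1 with hs
  have hs0 : 0 < s := by positivity
  have h1 : ConvexOn ℝ (Ioo (-s) s) (fun v => a v * s + b v) :=
    (hcv s hs0).subset Ioo_subset_Icc_self (convex_Ioo _ _)
  have hv : v ∈ Ioo (-s) s := by
    have := abs_lt.1 (lt_add_one |v|)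
    exact this
  have h2 : ContinuousAt (fun v => a v * s + b v) v :=
    (h1.continuousOn isOpen_Ioo).continuousAt (isOpen_Ioo.mem_nhds hv)
  have h3 : ContinuousAt (fun v => (a v * s + b v) - a v * s) v :=
    h2.sub (ha.continuousAt.mul continuousAt_const)
  refine h3.congr (Eventually.of_forall fun v => ?_)
  simp

/-- points where both functions are differentiable are dense -/
theorem dense_diff {a b : ℝ → ℝ}
    (hcv : ∀ s, 0 < s → ConvexOn ℝ (Icc (-s) s) (fun v => a v * s + b v)) (v0 δ : ℝ)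
    (hδ : 0 < δ) : ∃ v ∈ Ioo v0 (v0 + δ), v ≠ 0 ∧ DifferentiableAt ℝ a v ∧
      DifferentiableAt ℝ b v := by
  have hca := conv_a hcv
  set s : ℝ := |v0| + δ + 1 with hs
  have hs0 : 0 < s := by positivity
  have h1 : ConvexOn ℝ (Ioo (-s) s) (fun v => a v * s + b v) :=
    (hcv s hs0).subset Ioo_subset_Icc_self (convex_Ioo _ _)
  have hsub : Icc v0 (v0 + δ) ⊆ Ioo (-s) s := by
    intro x hx
    have h2 := neg_abs_le v0
    have h3 := le_abs_self v0
    constructor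
    · rw [hs]; linarith [hx.1]
    · rw [hs]; linarith [hx.2]
  obtain ⟨L1, hL1⟩ := (hca.locallyLipschitz.locallyLipschitzOn
    (s := Icc v0 (v0 + δ))).exists_lipschitzOnWith_of_compact isCompact_Icc
  obtain ⟨L2, hL2⟩ := ((h1.locallyLipschitzOn isOpen_Ioo).mono
    hsub).exists_lipschitzOnWith_of_compact isCompact_Icc
  have d1 := hL1.ae_differentiableWithinAt_of_mem (μ := volume)
  have d2 := hL2.ae_differentiableWithinAt_of_mem (μ := volume)
  have d3 : ∀ᵐ x : ℝ, x ≠ 0 := by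
    rw [ae_iff]; simp
  have hm : (volume : Measure ℝ) (Ioo v0 (v0 + δ)) ≠ 0 := by
    rw [Real.volume_Ioo]; simp [hδ]
  obtain ⟨x, hx, h4⟩ := Measure.exists_mem_of_measure_ne_zero_of_ae hm
    (ae_restrict_of_ae (d1.and (d2.and d3)))
  obtain ⟨h4, h5, h6⟩ := h4
  have hn : Icc v0 (v0 + δ) ∈ 𝓝 x := Icc_mem_nhds hx.1 hx.2
  have h7 := (h4 (Ioo_subset_Icc_self hx)).differentiableAt hn
  have h8 := (h5 (Ioo_subset_Icc_self hx)).differentiableAt hn
  refine ⟨x, hx, h6, h7, ?_⟩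
  have h9 : DifferentiableAt ℝ (fun v => (a v * s + b v) - a v * s) x :=
    h8.sub (h7.mul_const s)
  have e : (fun v => (a v * s + b v) - a v * s) = b := by ext v; ring
  rwa [e] at h9

/-- the length of `u_z` along the segment -/
noncomputable def ee (x0 t δ : ℝ) : ℝ := Real.sqrt ((x0 + t) ^ 2 - 2 * x0 * t * δ) - (x0 + t)

theorem ee_zero {x0 t : ℝ} (h : 0 ≤ x0 + t) : ee x0 t 0 = 0 := by
  unfold ee
  rw [mul_zero, sub_zero, Real.sqrt_sq h, sub_self]

theorem ee_deriv {x0 t : ℝ} (h : 0 < x0 + t) :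
    HasDerivAt (ee x0 t) (-(x0 * t) / (x0 + t)) 0 := by
  unfold ee
  have h1 : HasDerivAt (fun δ : ℝ => (x0 + t) ^ 2 - 2 * x0 * t * δ) (-(2 * x0 * t)) 0 := by
    have := ((hasDerivAt_id (0 : ℝ)).const_mul (2 * x0 * t)).const_sub ((x0 + t) ^ 2)
    simpa using this
  have h2 := (h1.sqrt (by simp; positivity)).sub_const (x0 + t)
  refine h2.congr_deriv ?_
  rw [mul_zero, sub_zero, Real.sqrt_sq h.le]
  field_simp

/-- the value of the function on the segment -/
theorem seg_val {a b : ℝ → ℝ} {x0 y0 t δ : ℝ} (hy : 0 ≤ y0 + t)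
    (hδ0 : 0 ≤ δ) (hδ1 : δ ≤ 1) :
    gf a b ((x0 : ℂ) + t * ((1 - δ : ℝ) + (Real.sqrt (1 - (1 - δ) ^ 2) : ℝ) * Complex.I),
      (y0 : ℂ) + t)
      = a (x0 - y0 + ee x0 t δ) * (x0 + y0 + 2 * t + ee x0 t δ) + b (x0 - y0 + ee x0 t δ) := by
  have hσ : 0 ≤ 1 - (1 - δ) ^ 2 := by nlinarith
  have n1 : ‖(x0 : ℂ) + t * ((1 - δ : ℝ) + (Real.sqrt (1 - (1 - δ) ^ 2) : ℝ) * Complex.I)‖
      = ee x0 t δ + (x0 + t) := by
    unfold ee
    rw [sub_add_cancel]
    rw [Complex.norm_def]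
    congr 1
    rw [Complex.normSq_apply]
    simp only [Complex.add_re, Complex.ofReal_re, Complex.mul_re, Complex.ofReal_im,
      Complex.I_re, Complex.I_im, Complex.add_im, Complex.mul_im]
    have hs := Real.mul_self_sqrt hσ
    ring_nf
    ring_nf at hs
    rw [Real.sq_sqrt (by nlinarith)]
    ring
  have n2 : ‖(y0 : ℂ) + t‖ = y0 + t := by
    rw [← Complex.ofReal_add, Complex.norm_real, Real.norm_of_nonneg hy]
  unfold gf
  simp only [n1, n2]
  have e1 : ee x0 t δ + (x0 + t) - (y0 + t) = x0 - y0 + ee x0 t δ := by ring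
  have e2 : ee x0 t δ + (x0 + t) + (y0 + t) = x0 + y0 + 2 * t + ee x0 t δ := by ring
  rw [e1, e2]

theorem deriv_nonneg {Φ : ℝ → ℝ} {m : ℝ} (h : HasDerivAt Φ m 0) (h0 : Φ 0 = 0)
    (hp : ∀ δ, 0 < δ → δ ≤ 1 → 0 ≤ Φ δ) : 0 ≤ m := by
  have h1 := h.tendsto_slope_zero_right
  refine ge_of_tendsto h1 ?_
  have h2 : Ioc (0 : ℝ) 1 ∈ 𝓝[>] (0 : ℝ) := Ioc_mem_nhdsGT one_pos
  filter_upwards [h2] with δ hδ
  rw [zero_add, h0, sub_zero, smul_eq_mul]
  exact mul_nonneg (inv_nonneg.2 hδ.1.le) (hp δ hδ.1 hδ.2)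

/-- the first inequality -/
theorem X_nonneg {a b : ℝ → ℝ} (hR : RCc (gf a b)) {v0 A B : ℝ} (hA : HasDerivAt a A v0)
    (hB : HasDerivAt b B v0) : 0 ≤ a v0 + B - v0 * A := by
  set y0 : ℝ := |v0| + 2 with hy0
  set x0 : ℝ := y0 + v0 with hx0
  have hab := neg_abs_le v0
  have hab' := abs_nonneg v0
  have hx2 : 2 ≤ x0 := by rw [hx0, hy0]; linarith
  have hy2 : 2 ≤ y0 := by rw [hy0]; linarith
  have hv : x0 - y0 = v0 := by rw [hx0]; ring
  -- the functions
  set Ψ : ℝ → ℝ → ℝ := fun t δ =>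
    a (x0 - y0 + ee x0 t δ) * (x0 + y0 + 2 * t + ee x0 t δ) + b (x0 - y0 + ee x0 t δ) with hΨ
  have hder : ∀ t, -1 ≤ t → HasDerivAt (Ψ t)
      (-(x0 * t) / (x0 + t) * (A * (x0 + y0 + 2 * t) + a v0 + B)) 0 := by
    intro t ht
    have hpos : 0 < x0 + t := by linarith
    have h1 := ee_deriv hpos
    have h2 : HasDerivAt (fun δ => x0 - y0 + ee x0 t δ) (-(x0 * t) / (x0 + t)) 0 :=
      h1.const_add _
    have h3 : HasDerivAt (fun δ => x0 + y0 + 2 * t + ee x0 t δ) (-(x0 * t) / (x0 + t)) 0 :=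
      h1.const_add _
    have e0 : x0 - y0 + ee x0 t 0 = v0 := by rw [ee_zero hpos.le, add_zero, hv]
    have h4 : HasDerivAt (fun δ => a (x0 - y0 + ee x0 t δ)) (A * (-(x0 * t) / (x0 + t))) 0 :=
      HasDerivAt.comp (h₂ := a) 0 (by rw [e0]; exact hA) h2
    have h5 : HasDerivAt (fun δ => b (x0 - y0 + ee x0 t δ)) (B * (-(x0 * t) / (x0 + t))) 0 :=
      HasDerivAt.comp (h₂ := b) 0 (by rw [e0]; exact hB) h2
    have h6 := (h4.mul h3).add h5
    refine h6.congr_deriv ?_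
    rw [e0, ee_zero hpos.le, add_zero]
    ring
  have h7 := ((hder 1 (by norm_num)).add (hder (-1) (by norm_num))).sub
    ((hder 0 (by norm_num)).const_mul 2)
  have h8 := deriv_nonneg h7 (by
    simp only [hΨ, Pi.sub_apply, Pi.add_apply]
    rw [ee_zero (by linarith), ee_zero (by linarith), ee_zero (by linarith)]
    ring) (by
    intro δ hδ0 hδ1
    have r := hR ((x0 : ℂ) + ((-1 : ℝ) : ℂ) * ((1 - δ : ℝ)
        + (Real.sqrt (1 - (1 - δ) ^ 2) : ℝ) * Complex.I), (y0 : ℂ) + ((-1 : ℝ) : ℂ))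
      ((2 : ℂ) * ((1 - δ : ℝ) + (Real.sqrt (1 - (1 - δ) ^ 2) : ℝ) * Complex.I), (2 : ℂ)) (by
        have hσ : 0 ≤ 1 - (1 - δ) ^ 2 := by nlinarith
        have n1 : ‖((1 - δ : ℝ) : ℂ) + (Real.sqrt (1 - (1 - δ) ^ 2) : ℝ) * Complex.I‖ = 1 := by
          rw [Complex.norm_def, Real.sqrt_eq_one, Complex.normSq_apply]
          simp only [Complex.add_re, Complex.ofReal_re, Complex.mul_re, Complex.ofReal_im,
            Complex.I_re, Complex.I_im, Complex.add_im, Complex.mul_im]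
          have hs := Real.mul_self_sqrt hσ
          linarith
        simp only [norm_mul, n1, mul_one]) (1 / 2) (by norm_num) (by norm_num)
    have e1 : ((x0 : ℂ) + ((-1 : ℝ) : ℂ) * ((1 - δ : ℝ)
        + (Real.sqrt (1 - (1 - δ) ^ 2) : ℝ) * Complex.I), (y0 : ℂ) + ((-1 : ℝ) : ℂ))
      + (1 / 2 : ℝ) • ((2 : ℂ) * ((1 - δ : ℝ) + (Real.sqrt (1 - (1 - δ) ^ 2) : ℝ)
        * Complex.I), (2 : ℂ))
      = ((x0 : ℂ) + ((0 : ℝ) : ℂ) * ((1 - δ : ℝ)
        + (Real.sqrt (1 - (1 - δ) ^ 2) : ℝ) * Complex.I), (y0 : ℂ) + ((0 : ℝ) : ℂ)) := by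
      rw [Prod.smul_mk, Prod.mk_add_mk]
      simp only [Complex.real_smul]
      congr 1 <;> (push_cast; ring)
    have e2 : ((x0 : ℂ) + ((-1 : ℝ) : ℂ) * ((1 - δ : ℝ)
        + (Real.sqrt (1 - (1 - δ) ^ 2) : ℝ) * Complex.I), (y0 : ℂ) + ((-1 : ℝ) : ℂ))
      + ((2 : ℂ) * ((1 - δ : ℝ) + (Real.sqrt (1 - (1 - δ) ^ 2) : ℝ)
        * Complex.I), (2 : ℂ))
      = ((x0 : ℂ) + ((1 : ℝ) : ℂ) * ((1 - δ : ℝ)
        + (Real.sqrt (1 - (1 - δ) ^ 2) : ℝ) * Complex.I), (y0 : ℂ) + ((1 : ℝ) : ℂ)) := by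
      rw [Prod.mk_add_mk]
      congr 1 <;> (push_cast; ring)
    rw [e1, e2, seg_val (by linarith) hδ0.le hδ1,
      seg_val (by linarith) hδ0.le hδ1,
      seg_val (by linarith) hδ0.le hδ1] at r
    simp only [hΨ, Pi.sub_apply, Pi.add_apply]
    linarith)
  have h9 : (-(x0 * 1) / (x0 + 1) * (A * (x0 + y0 + 2 * 1) + a v0 + B)
      + -(x0 * -1) / (x0 + -1) * (A * (x0 + y0 + 2 * -1) + a v0 + B)
      - 2 * (-(x0 * 0) / (x0 + 0) * (A * (x0 + y0 + 2 * 0) + a v0 + B)))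
      = 2 * x0 / ((x0 + 1) * (x0 - 1)) * (a v0 + B - v0 * A) := by
    have i1 : x0 + 1 ≠ 0 := by linarith
    have i2 : x0 - 1 ≠ 0 := by linarith
    have i3 : x0 + -1 ≠ 0 := by linarith
    have hy : y0 = x0 - v0 := by linarith
    rw [hy]
    field_simp
    ring
  rw [h9] at h8
  by_contra hneg
  rw [not_le] at hneg
  have : 0 < 2 * x0 / ((x0 + 1) * (x0 - 1)) := by
    have : 0 < x0 - 1 := by linarith
    positivity
  nlinarith

end Pool.Agent.TH937.ZC
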