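import Pool.Agent.TH937.ZC.Null
import Pool.Agent.TH937.ZC.Alg

/-!
# The test map and its push-forward averages
-/

set_option autoImplicit false

namespace Pool.Agent.TH937.ZC

open MeasureTheory Set Filter Topology Metric
open scoped ComplexConjugate
open Pool.Agent.W488.IW (dz dzb)

/-- the data -/
structure Dt where
  a : ℂ
  b : ℂ
  f : ℂ → ℂ
  hab : ‖b‖ < ‖a‖
  hf : ContDiff ℝ 2 f
  hc : HasCompactSupport f

namespace Dt

variable (D : Dt)

def K : Set ℂ := tsupport D.f
noncomputable def p (x : ℂ) : ℂ := D.a + dz D.f x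
noncomputable def q (x : ℂ) : ℂ := D.b + dzb D.f x
noncomputable def l (x : ℂ) : ℂ := D.a * x + D.b * conj x
noncomputable def u (x : ℂ) : ℂ := D.l x + D.f x
noncomputable def J (x : ℂ) : ℝ := ‖D.p x‖ ^ 2 - ‖D.q x‖ ^ 2
noncomputable def J0 : ℝ := ‖D.a‖ ^ 2 - ‖D.b‖ ^ 2

theorem J0_pos : 0 < D.J0 := by
  unfold J0
  have := D.hab
  have := norm_nonneg D.b
  nlinarith

theorem K_compact : IsCompact D.K := D.hc

theorem K_meas : MeasurableSet D.K := D.K_compact.measurableSet

theorem fderiv_f (x : ℂ) : fderiv ℝ D.f x = Lin (dz D.f x) (dzb D.f x) := Lin_of _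

theorem hl (x : ℂ) : HasFDerivAt D.l (Lin D.a D.b) x := by
  have h : D.l = fun x => Lin D.a D.b x := by
    ext x; simp [l]
  rw [h]
  exact (Lin D.a D.b).hasFDerivAt

theorem Lin_add (p q r s : ℂ) : Lin p q + Lin r s = Lin (p + r) (q + s) := by
  refine ContinuousLinearMap.ext fun x => ?_
  rw [_root_.add_apply, Lin_apply, Lin_apply, Lin_apply]
  ring

theorem hpq (x : ℂ) : HasFDerivAt D.u (Lin (D.p x) (D.q x)) x := by
  have h1 : HasFDerivAt D.f (Lin (dz D.f x) (dzb D.f x)) x := by
    rw [← D.fderiv_f]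
    exact (D.hf.differentiable (by norm_num) x).hasFDerivAt
  have h2 := (D.hl x).add h1
  rw [Lin_add] at h2
  exact h2

theorem l_cd : ContDiff ℝ 2 D.l := by
  have h : D.l = fun x => Lin D.a D.b x := by
    ext x; simp [l]
  rw [h]
  exact (Lin D.a D.b).contDiff

theorem u_cd : ContDiff ℝ 2 D.u := D.l_cd.add D.hf

theorem l_cont : Continuous D.l := D.l_cd.continuous
theorem u_cont : Continuous D.u := D.u_cd.continuous

theorem dz_cont : Continuous (dz D.f) := by
  have h := D.hf.continuous_fderiv (by norm_num)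
  unfold dz
  have h1 : Continuous fun x => fderiv ℝ D.f x 1 := h.clm_apply continuous_const
  have h2 : Continuous fun x => fderiv ℝ D.f x Complex.I := h.clm_apply continuous_const
  fun_prop

theorem dzb_cont : Continuous (dzb D.f) := by
  have h := D.hf.continuous_fderiv (by norm_num)
  unfold dzb
  have h1 : Continuous fun x => fderiv ℝ D.f x 1 := h.clm_apply continuous_const
  have h2 : Continuous fun x => fderiv ℝ D.f x Complex.I := h.clm_apply continuous_const
  fun_prop

theorem p_cont : Continuous D.p := continuous_const.add D.dz_cont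
theorem q_cont : Continuous D.q := continuous_const.add D.dzb_cont
theorem J_cont : Continuous D.J := by
  unfold J
  have := D.p_cont
  have := D.q_cont
  fun_prop

theorem f_off {x : ℂ} (hx : x ∉ D.K) : D.f x = 0 := image_eq_zero_of_notMem_tsupport hx

theorem fd_off {x : ℂ} (hx : x ∉ D.K) : fderiv ℝ D.f x = 0 := by
  by_contra h
  exact hx (support_fderiv_subset ℝ h)

theorem p_off {x : ℂ} (hx : x ∉ D.K) : D.p x = D.a := by
  simp [p, dz, D.fd_off hx]
theorem q_off {x : ℂ} (hx : x ∉ D.K) : D.q x = D.b := by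
  simp [q, dzb, D.fd_off hx]
theorem u_off {x : ℂ} (hx : x ∉ D.K) : D.u x = D.l x := by
  simp [u, D.f_off hx]
theorem J_off {x : ℂ} (hx : x ∉ D.K) : D.J x = D.J0 := by
  simp [J, J0, D.p_off hx, D.q_off hx]

theorem l_low (x : ℂ) : (‖D.a‖ - ‖D.b‖) * ‖x‖ ≤ ‖D.l x‖ := by
  have h := norm_sub_le (D.a * x + D.b * conj x) (D.b * conj x)
  rw [add_sub_cancel_right, norm_mul, norm_mul, Complex.norm_conj] at h
  unfold l
  linarith

theorem l_tendsto : Tendsto D.l (cocompact ℂ) (cocompact ℂ) := by
  rw [← Metric.cobounded_eq_cocompact, ← tendsto_norm_atTop_iff_cobounded]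
  refine tendsto_atTop_mono (D.l_low) ?_
  exact tendsto_norm_cobounded_atTop.const_mul_atTop (sub_pos.2 D.hab)

theorem u_tendsto : Tendsto D.u (cocompact ℂ) (cocompact ℂ) := by
  refine D.l_tendsto.congr' ?_
  filter_upwards [D.K_compact.compl_mem_cocompact] with x hx
  exact (D.u_off hx).symm

theorem u_proper : IsProperMap D.u :=
  isProperMap_iff_tendsto_cocompact.2 ⟨D.u_cont, D.u_tendsto⟩

theorem l_proper : IsProperMap D.l :=
  isProperMap_iff_tendsto_cocompact.2 ⟨D.l_cont, D.l_tendsto⟩

end Dt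

theorem hcs_comp {E : Type*} [Zero E] {g : ℂ → ℂ} (hg : IsProperMap g) {ρ : ℂ → E}
    (hρ : HasCompactSupport ρ) (y : ℂ) : HasCompactSupport (fun x => ρ (y - g x)) := by
  have h1 : IsCompact ((fun z => y - z) '' tsupport ρ) :=
    hρ.isCompact.image (by fun_prop)
  refine HasCompactSupport.intro (hg.isCompact_preimage h1) ?_
  intro x hx
  by_contra h
  exact hx ⟨y - g x, subset_tsupport _ h, by simp⟩

/-- local averages of the push-forward -/
noncomputable def PP {E : Type*} [NormedAddCommGroup E] [NormedSpace ℝ E] (K : Set ℂ)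
    (ρ : ℂ → ℝ) (g : ℂ → ℂ) (k : ℂ → E) (y : ℂ) : E := ∫ x in K, ρ (y - g x) • k x

section PP

variable {E : Type*} [NormedAddCommGroup E] [NormedSpace ℝ E] {K : Set ℂ} {ρ : ℂ → ℝ}
  {g : ℂ → ℂ} {k : ℂ → E}

theorem PP_cont (hK : IsCompact K) (hρ : Continuous ρ) (hg : Continuous g) (hk : Continuous k) :
    Continuous (PP K ρ g k) := by
  unfold PP
  refine continuous_parametric_integral_of_continuous ?_ hK
  simp only [Function.uncurry_def]
  fun_prop

theorem PP_zero {R : ℝ} (hR : ∀ x ∈ K, ‖g x‖ ≤ R) (hK : MeasurableSet K)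
    (hρ : ∀ t, 1 ≤ ‖t‖ → ρ t = 0) {y : ℂ}
    (hy : R + 1 ≤ ‖y‖) : PP K ρ g k y = 0 := by
  unfold PP
  rw [setIntegral_congr_fun (g := fun _ => (0 : E)) hK, integral_zero]
  intro x hx
  have h1 := hR x hx
  have h2 := norm_sub_norm_le y (g x)
  simp only
  rw [hρ _ (by linarith), zero_smul]

theorem PP_int (hK : IsCompact K) (hρ : Continuous ρ) (hρc : HasCompactSupport ρ)
    (hρ1 : ∫ t, ρ t = 1) (hg : Continuous g) (hk : Continuous k) [CompleteSpace E] :
    ∫ y, PP K ρ g k y = ∫ x in K, k x := by
  unfold PP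
  have hρi : Integrable ρ := hρ.integrable_of_hasCompactSupport hρc
  have hmeas : AEStronglyMeasurable (Function.uncurry fun (y x : ℂ) => ρ (y - g x) • k x)
      (volume.prod (volume.restrict K)) := by
    apply Continuous.aestronglyMeasurable
    simp only [Function.uncurry_def]
    fun_prop
  have hint : Integrable (Function.uncurry fun (y x : ℂ) => ρ (y - g x) • k x)
      (volume.prod (volume.restrict K)) := by
    rw [integrable_prod_iff' hmeas]
    constructor
    · refine Eventually.of_forall fun x => ?_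
      exact (hρi.comp_sub_right (g x)).smul_const (k x)
    · have e : ∀ x, ∫ y, ‖Function.uncurry (fun (y x : ℂ) => ρ (y - g x) • k x) (y, x)‖
          = (∫ t, ‖ρ t‖) * ‖k x‖ := by
        intro x
        simp only [Function.uncurry_apply_pair, norm_smul]
        rw [integral_mul_const, integral_sub_right_eq_self (fun t => ‖ρ t‖) (g x)]
      simp only [e]
      exact (continuous_const.mul hk.norm).continuousOn.integrableOn_compact hK
  rw [integral_integral_swap hint]
  refine integral_congr_ae (Eventually.of_forall fun x => ?_)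
  simp only
  rw [integral_smul_const, integral_sub_right_eq_self ρ (g x), hρ1, one_smul]

theorem PP_deriv (hK : IsCompact K) (hρ : ContDiff ℝ 1 ρ) (hρc : HasCompactSupport ρ)
    (hg : Continuous g) (hk : Continuous k) (y : ℂ) :
    HasFDerivAt (PP K ρ g k) (∫ x in K, (fderiv ℝ ρ (y - g x)).smulRight (k x)) y := by
  have hfd : Continuous (fderiv ℝ ρ) := hρ.continuous_fderiv one_ne_zero
  obtain ⟨C, hC⟩ := (hρc.fderiv (𝕜 := ℝ)).exists_bound_of_continuous hfd
  have hsr : ∀ y, Continuous fun x => (fderiv ℝ ρ (y - g x)).smulRight (k x) := by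
    intro y
    have h1 : Continuous fun x => fderiv ℝ ρ (y - g x) := hfd.comp (by fun_prop)
    exact (ContinuousLinearMap.smulRightL ℝ ℂ E).continuous₂.comp (h1.prodMk hk)
  refine hasFDerivAt_integral_of_dominated_of_fderiv_le (𝕜 := ℝ) (μ := volume.restrict K)
    (F := fun y x => ρ (y - g x) • k x)
    (F' := fun y x => (fderiv ℝ ρ (y - g x)).smulRight (k x))
    (bound := fun x => C * ‖k x‖) (s := univ) univ_mem ?_ ?_ ?_ ?_ ?_ ?_
  · refine Eventually.of_forall fun y => Continuous.aestronglyMeasurable ?_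
    have := hρ.continuous
    fun_prop
  · have := hρ.continuous
    exact (Continuous.continuousOn (by fun_prop)).integrableOn_compact hK
  · exact (hsr y).aestronglyMeasurable
  · refine Eventually.of_forall fun x y _ => ?_
    rw [ContinuousLinearMap.norm_smulRight_apply]
    exact mul_le_mul_of_nonneg_right (hC _) (norm_nonneg _)
  · exact (continuous_const.mul hk.norm).continuousOn.integrableOn_compact hK
  · refine Eventually.of_forall fun x y _ => ?_
    have h1 : HasFDerivAt (fun y => ρ (y - g x)) (fderiv ℝ ρ (y - g x)) y := by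
      have h2 := (hρ.differentiable one_ne_zero (y - g x)).hasFDerivAt
      have h3 : HasFDerivAt (fun y : ℂ => y - g x) (ContinuousLinearMap.id ℝ ℂ) y :=
        (hasFDerivAt_id y).sub_const _
      simpa [Function.comp_def] using h2.comp y h3
    exact h1.smul_const (k x)

end PP

end Pool.Agent.TH937.ZC
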