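import Pool.Agent.TH937.ZC.Setup

/-!
# The push-forward of the inverse: degree identity and gradient structure
-/

set_option autoImplicit false

namespace Pool.Agent.TH937.ZC

open MeasureTheory Set Filter Topology Metric
open scoped ComplexConjugate
open Pool.Agent.W488.IW (dz dzb)

/-- mollifiers -/
structure Mo (ρ : ℂ → ℝ) : Prop where
  cd : ContDiff ℝ 1 ρ
  cs : HasCompactSupport ρ
  z : ∀ t, 1 ≤ ‖t‖ → ρ t = 0
  int : ∫ t, ρ t = 1
  nn : ∀ t, 0 ≤ ρ t

theorem dz_of {g : ℂ → ℂ} {y P Q : ℂ} (h : fderiv ℝ g y = Lin P Q) : dz g y = P := by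
  unfold dz
  rw [h, Lin_apply, Lin_apply, Complex.conj_I]
  simp only [map_one]
  linear_combination (-(1 / 2) * P + 1 / 2 * Q) * Complex.I_mul_I

theorem dzb_of {g : ℂ → ℂ} {y P Q : ℂ} (h : fderiv ℝ g y = Lin P Q) : dzb g y = Q := by
  unfold dzb
  rw [h, Lin_apply, Lin_apply, Complex.conj_I]
  simp only [map_one]
  linear_combination (1 / 2 * P - 1 / 2 * Q) * Complex.I_mul_I

namespace Dt

variable (D : Dt) {ρ : ℂ → ℝ}

/-- averages of the push-forward -/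
noncomputable def G {E : Type*} [NormedAddCommGroup E] [NormedSpace ℝ E] (ρ : ℂ → ℝ)
    (k : ℂ → E) (y : ℂ) : E := ∫ x, ρ (y - D.u x) • k x

theorem l_inj : Function.Injective D.l := by
  intro x y h
  have h1 : D.l (x - y) = 0 := by
    have : D.l (x - y) = D.l x - D.l y := by
      unfold l; rw [map_sub]; ring
    rw [this, h, sub_self]
  have h2 := D.l_low (x - y)
  rw [h1, norm_zero] at h2
  have h3 := D.hab
  have h4 : ‖x - y‖ = 0 := by
    by_contra h5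
    have : 0 < ‖x - y‖ := lt_of_le_of_ne (norm_nonneg _) (Ne.symm h5)
    nlinarith
  exact sub_eq_zero.1 (norm_eq_zero.1 h4)

theorem l_surj : Function.Surjective D.l := by
  intro z
  refine ⟨conj D.a * (z / (D.J0 : ℂ)) - D.b * conj (z / (D.J0 : ℂ)), ?_⟩
  have h := Lin_adj D.a D.b (z / (D.J0 : ℂ))
  rw [Lin_apply] at h
  unfold l
  rw [h]
  have : ((‖D.a‖ ^ 2 - ‖D.b‖ ^ 2 : ℝ) : ℂ) = (D.J0 : ℂ) := rfl
  rw [this]
  have hJ : (D.J0 : ℂ) ≠ 0 := by exact_mod_cast D.J0_pos.ne'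
  field_simp

theorem lin_int (h1 : ∫ t, ρ t = 1) (y : ℂ) :
    ∫ x, ρ (y - D.l x) = 1 / D.J0 := by
  have h := integral_image_eq_integral_abs_det_fderiv_smul volume MeasurableSet.univ
    (f := D.l) (f' := fun _ => Lin D.a D.b) (fun x _ => (D.hl x).hasFDerivWithinAt)
    D.l_inj.injOn (fun z => ρ (y - z))
  rw [image_univ, D.l_surj.range_eq, Measure.restrict_univ] at h
  rw [integral_sub_left_eq_self ρ volume y, h1] at h
  simp only [Lin_det, smul_eq_mul] at h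
  rw [integral_const_mul] at h
  have hJ : |‖D.a‖ ^ 2 - ‖D.b‖ ^ 2| = D.J0 := abs_of_pos D.J0_pos
  rw [hJ] at h
  rw [eq_div_iff D.J0_pos.ne', mul_comm]
  exact h.symm

section

variable {E : Type*} [NormedAddCommGroup E] [NormedSpace ℝ E]

theorem int_u (hρ : Mo ρ) {k : ℂ → E} (hk : Continuous k) (y : ℂ) :
    Integrable (fun x => ρ (y - D.u x) • k x) := by
  have h1 := hρ.cd.continuous
  have h2 := D.u_cont
  exact Continuous.integrable_of_hasCompactSupport (by fun_prop)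
    (hcs_comp D.u_proper hρ.cs y).smul_right

theorem int_l (hρ : Mo ρ) {k : ℂ → E} (hk : Continuous k) (y : ℂ) :
    Integrable (fun x => ρ (y - D.l x) • k x) := by
  have h1 := hρ.cd.continuous
  have h2 := D.l_cont
  exact Continuous.integrable_of_hasCompactSupport (by fun_prop)
    (hcs_comp D.l_proper hρ.cs y).smul_right

theorem G_split [CompleteSpace E] (hρ : Mo ρ) {k : ℂ → E} (hk : Continuous k) (k0 : E)
    (h0 : ∀ x ∉ D.K, k x = k0) (y : ℂ) :
    D.G ρ k y = (1 / D.J0) • k0 + (PP D.K ρ D.u k y - PP D.K ρ D.l (fun _ => k0) y) := by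
  have h1 : ∫ x, (ρ (y - D.u x) • k x - ρ (y - D.l x) • k0)
      = ∫ x in D.K, (ρ (y - D.u x) • k x - ρ (y - D.l x) • k0) := by
    symm
    apply setIntegral_eq_integral_of_forall_compl_eq_zero
    intro x hx
    rw [h0 x hx, D.u_off hx, sub_self]
  rw [integral_sub (D.int_u hρ hk y) (D.int_l hρ continuous_const y),
    integral_sub (D.int_u hρ hk y).integrableOn (D.int_l hρ continuous_const y).integrableOn,
    integral_smul_const, D.lin_int hρ.int] at h1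
  unfold G PP
  rw [← h1]
  abel

theorem G_cont [CompleteSpace E] (hρ : Mo ρ) {k : ℂ → E} (hk : Continuous k) (k0 : E)
    (h0 : ∀ x ∉ D.K, k x = k0) : Continuous (D.G ρ k) := by
  have h : D.G ρ k = fun y => (1 / D.J0) • k0 +
      (PP D.K ρ D.u k y - PP D.K ρ D.l (fun _ => k0) y) := by
    ext1 y
    exact D.G_split hρ hk k0 h0 y
  rw [h]
  exact continuous_const.add ((PP_cont D.K_compact hρ.cd.continuous D.u_cont hk).sub
    (PP_cont D.K_compact hρ.cd.continuous D.l_cont continuous_const))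

theorem exR : ∃ R : ℝ, (∀ x ∈ D.K, ‖D.u x‖ ≤ R) ∧ (∀ x ∈ D.K, ‖D.l x‖ ≤ R) := by
  obtain ⟨R1, h1⟩ := D.K_compact.exists_bound_of_continuousOn D.u_cont.continuousOn
  obtain ⟨R2, h2⟩ := D.K_compact.exists_bound_of_continuousOn D.l_cont.continuousOn
  exact ⟨max R1 R2, fun x hx => (h1 x hx).trans (le_max_left _ _),
    fun x hx => (h2 x hx).trans (le_max_right _ _)⟩

theorem G_far [CompleteSpace E] (hρ : Mo ρ) {k : ℂ → E} (hk : Continuous k) (k0 : E)
    (h0 : ∀ x ∉ D.K, k x = k0) {R : ℝ} (hu : ∀ x ∈ D.K, ‖D.u x‖ ≤ R)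
    (hl : ∀ x ∈ D.K, ‖D.l x‖ ≤ R) {y : ℂ} (hy : R + 1 ≤ ‖y‖) :
    D.G ρ k y = (1 / D.J0) • k0 := by
  rw [D.G_split hρ hk k0 h0, PP_zero hu D.K_meas hρ.z hy, PP_zero hl D.K_meas hρ.z hy]
  simp

theorem PPint [CompleteSpace E] (hρ : Mo ρ) {k : ℂ → E} (hk : Continuous k) {g : ℂ → ℂ}
    (hg : Continuous g) {R : ℝ} (hR : ∀ x ∈ D.K, ‖g x‖ ≤ R) :
    Integrable (PP D.K ρ g k) := by
  refine (PP_cont D.K_compact hρ.cd.continuous hg hk).integrable_of_hasCompactSupport ?_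
  refine HasCompactSupport.intro (isCompact_closedBall (0 : ℂ) (R + 1)) ?_
  intro y hy
  rw [mem_closedBall, dist_zero_right, not_le] at hy
  exact PP_zero hR D.K_meas hρ.z hy.le

theorem G_int [CompleteSpace E] (hρ : Mo ρ) {k : ℂ → E} (hk : Continuous k) (k0 : E)
    (h0 : ∀ x ∉ D.K, k x = k0) :
    Integrable (fun y => D.G ρ k y - (1 / D.J0) • k0) ∧
    ∫ y, (D.G ρ k y - (1 / D.J0) • k0) = ∫ x in D.K, (k x - k0) := by
  obtain ⟨R, hu, hl⟩ := D.exR
  have e : (fun y => D.G ρ k y - (1 / D.J0) • k0) =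
      fun y => (PP D.K ρ D.u k y - PP D.K ρ D.l (fun _ => k0) y) := by
    ext1 y
    rw [D.G_split hρ hk k0 h0]
    abel
  have i1 := D.PPint hρ hk D.u_cont hu
  have i2 := D.PPint hρ (k := fun _ => k0) continuous_const D.l_cont hl
  rw [e]
  refine ⟨i1.sub i2, ?_⟩
  rw [integral_sub i1 i2, PP_int D.K_compact hρ.cd.continuous hρ.cs hρ.int D.u_cont hk,
    PP_int D.K_compact hρ.cd.continuous hρ.cs hρ.int D.l_cont continuous_const, integral_sub]
  · exact hk.continuousOn.integrableOn_compact D.K_compact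
  · exact continuousOn_const.integrableOn_compact D.K_compact

end

/-- the push-forward -/
noncomputable def Th (ρ : ℂ → ℝ) (ψ : ℂ → ℂ) (y : ℂ) : ℂ :=
  PP D.K ρ D.u (fun x => D.J x • ψ x) y - PP D.K ρ D.l (fun x => D.J0 • ψ x) y

theorem Th_deriv (hρ : Mo ρ) {ψ : ℂ → ℂ} (hψ : ContDiff ℝ 1 ψ) (y : ℂ) :
    DifferentiableAt ℝ (D.Th ρ ψ) y ∧ ∀ h, fderiv ℝ (D.Th ρ ψ) y h =
      (∫ x, ρ (y - D.u x) • fderiv ℝ ψ x (conj (D.p x) * h - D.q x * conj h))
      - ∫ x, ρ (y - D.l x) • fderiv ℝ ψ x (conj D.a * h - D.b * conj h) := by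
  have hψc := hψ.continuous
  have hJc := D.J_cont
  have huc := D.u_cont
  have hlc := D.l_cont
  have h1 := PP_deriv (k := fun x => D.J x • ψ x) D.K_compact hρ.cd hρ.cs D.u_cont
    (by fun_prop) y
  have h2 := PP_deriv (k := fun x => D.J0 • ψ x) D.K_compact hρ.cd hρ.cs D.l_cont
    (by fun_prop) y
  have h3 := h1.sub h2
  have h4 : HasFDerivAt (D.Th ρ ψ) _ y := h3
  refine ⟨h4.differentiableAt, fun h => ?_⟩
  have hfd : Continuous (fderiv ℝ ρ) := hρ.cd.continuous_fderiv one_ne_zero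
  have hsr : ∀ (g : ℂ → ℂ) (k : ℂ → ℂ), Continuous g → Continuous k →
      Continuous fun x => (fderiv ℝ ρ (y - g x)).smulRight (k x) := by
    intro g k hg hk
    have h1 : Continuous fun x => fderiv ℝ ρ (y - g x) := hfd.comp (by fun_prop)
    exact (ContinuousLinearMap.smulRightL ℝ ℂ ℂ).continuous₂.comp (h1.prodMk hk)
  have hap : ∀ (g : ℂ → ℂ) (k : ℂ → ℂ), Continuous g → Continuous k →
      (∫ x in D.K, (fderiv ℝ ρ (y - g x)).smulRight (k x)) h
        = ∫ x in D.K, (fderiv ℝ ρ (y - g x) h) • k x := by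
    intro g k hg hk
    rw [ContinuousLinearMap.integral_apply]
    · rfl
    · exact ((hsr g k hg hk).continuousOn).integrableOn_compact D.K_compact
  rw [h4.fderiv, _root_.sub_apply, hap _ _ huc (by fun_prop), hap _ _ hlc (by fun_prop)]
  have hcρ : ∀ (g : ℂ → ℂ), Continuous g → Continuous (fun x => fderiv ℝ ρ (y - g x) h) :=
    fun g hg => (hfd.comp (continuous_const.sub hg)).clm_apply continuous_const
  have hcs : ∀ h, HasCompactSupport (fun x => fderiv ℝ ρ x h) := fun h =>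
    (hρ.cs.fderiv (𝕜 := ℝ)).mono' (by
      intro x hx
      have : fderiv ℝ ρ x ≠ 0 := by
        intro h0; apply hx; simp [h0]
      exact subset_tsupport _ this)
  have k1 := key D.u D.u_cd D.p D.q D.hpq D.p_cont D.q_cont ρ hρ.cd y
    (hcs_comp D.u_proper hρ.cs y) (fun h => hcs_comp D.u_proper (hcs h) y) ψ hψ h
  have k2 := key D.l D.l_cd (fun _ => D.a) (fun _ => D.b) D.hl continuous_const
    continuous_const ρ hρ.cd y
    (hcs_comp D.l_proper hρ.cs y) (fun h => hcs_comp D.l_proper (hcs h) y) ψ hψ h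
  rw [← k1, ← k2]
  have c1 := hcρ D.u huc
  have c2 := hcρ D.l hlc
  have cp := D.p_cont
  have cq := D.q_cont
  have i1 : Integrable (fun x => (fderiv ℝ ρ (y - D.u x) h * (‖D.p x‖ ^ 2 - ‖D.q x‖ ^ 2)) • ψ x) :=
    Continuous.integrable_of_hasCompactSupport (by fun_prop)
      ((hcs_comp D.u_proper (hcs h) y).mul_right.smul_right)
  have i2 : Integrable (fun x => (fderiv ℝ ρ (y - D.l x) h * (‖D.a‖ ^ 2 - ‖D.b‖ ^ 2)) • ψ x) :=
    Continuous.integrable_of_hasCompactSupport (by fun_prop)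
      ((hcs_comp D.l_proper (hcs h) y).mul_right.smul_right)
  rw [← integral_sub i1 i2]
  have e1 : ∀ x, (fderiv ℝ ρ (y - D.u x) h) • (D.J x • ψ x)
      = (fderiv ℝ ρ (y - D.u x) h * (‖D.p x‖ ^ 2 - ‖D.q x‖ ^ 2)) • ψ x := fun x => by
    rw [smul_smul]; rfl
  have e2 : ∀ x, (fderiv ℝ ρ (y - D.l x) h) • (D.J0 • ψ x)
      = (fderiv ℝ ρ (y - D.l x) h * (‖D.a‖ ^ 2 - ‖D.b‖ ^ 2)) • ψ x := fun x => by
    rw [smul_smul]; rfl
  simp only [e1, e2]
  rw [← integral_sub i1.integrableOn i2.integrableOn]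
  apply setIntegral_eq_integral_of_forall_compl_eq_zero
  intro x hx
  rw [D.u_off hx, D.p_off hx, D.q_off hx, sub_self]

theorem Th_far {ψ : ℂ → ℂ} (hρ : Mo ρ) {R : ℝ} (hu : ∀ x ∈ D.K, ‖D.u x‖ ≤ R)
    (hl : ∀ x ∈ D.K, ‖D.l x‖ ≤ R) {y : ℂ} (hy : R + 1 ≤ ‖y‖) : D.Th ρ ψ y = 0 := by
  unfold Th
  rw [PP_zero hu D.K_meas hρ.z hy, PP_zero hl D.K_meas hρ.z hy, sub_zero]

/-- the degree identity -/
theorem deg (hρ : Mo ρ) (y : ℂ) : D.G ρ D.J y = 1 := by
  obtain ⟨R, hu, hl⟩ := D.exR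
  have h1 : ∀ y, fderiv ℝ (D.Th ρ (fun _ => 1)) y = 0 := by
    intro y
    refine ContinuousLinearMap.ext fun h => ?_
    rw [(D.Th_deriv hρ contDiff_const y).2 h]
    simp
  have h2 : Differentiable ℝ (D.Th ρ (fun _ => 1)) := fun y =>
    (D.Th_deriv hρ contDiff_const y).1
  have h3 : D.Th ρ (fun _ => 1) y = 0 := by
    rw [is_const_of_fderiv_eq_zero h2 h1 y ((|R| + 1 : ℝ) : ℂ)]
    apply D.Th_far hρ hu hl
    rw [Complex.norm_real, Real.norm_eq_abs, abs_of_nonneg (by positivity)]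
    linarith [le_abs_self R]
  have h4 : PP D.K ρ D.u D.J y - PP D.K ρ D.l (fun _ => D.J0) y = 0 := by
    have h5 : ((PP D.K ρ D.u D.J y - PP D.K ρ D.l (fun _ => D.J0) y : ℝ) : ℂ) = 0 := by
      rw [← h3]
      unfold Th PP
      push_cast
      rw [← integral_complex_ofReal, ← integral_complex_ofReal]
      simp
    exact_mod_cast h5
  rw [D.G_split hρ D.J_cont D.J0 (fun x hx => D.J_off hx), h4]
  have := D.J0_pos.ne'
  simp [this]

theorem G_lin (hρ : Mo ρ) (y h : ℂ) :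
    ∫ x, ρ (y - D.u x) • (conj (D.p x) * h - D.q x * conj h)
      = Lin (D.G ρ (fun x => conj (D.p x)) y) (-D.G ρ D.q y) h := by
  have cp := D.p_cont
  have cq := D.q_cont
  rw [Lin_apply]
  unfold G
  rw [neg_mul, ← sub_eq_add_neg, ← integral_mul_const, ← integral_mul_const, ← integral_sub]
  · refine integral_congr_ae (Eventually.of_forall fun x => ?_)
    simp only [Complex.real_smul]
    ring
  · exact (D.int_u hρ (by fun_prop) y).mul_const _
  · exact (D.int_u hρ (by fun_prop) y).mul_const _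

theorem l_lin (hρ : Mo ρ) (y h : ℂ) :
    ∫ x, ρ (y - D.l x) • (conj D.a * h - D.b * conj h)
      = Lin ((1 / D.J0 : ℝ) • conj D.a) ((-(1 / D.J0 : ℝ)) • D.b) h := by
  rw [integral_smul_const, D.lin_int hρ.int, Lin_apply]
  simp only [Complex.real_smul]
  push_cast
  ring

/-- the gradient of the push-forward of the identity -/
theorem Th_grad (hρ : Mo ρ) (y : ℂ) :
    fderiv ℝ (D.Th ρ id) y = Lin (D.G ρ (fun x => conj (D.p x)) y - (1 / D.J0 : ℝ) • conj D.a)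
      (-D.G ρ D.q y + (1 / D.J0 : ℝ) • D.b) := by
  refine ContinuousLinearMap.ext fun h => ?_
  rw [(D.Th_deriv hρ contDiff_id y).2 h]
  simp only [fderiv_id, ContinuousLinearMap.id_apply]
  rw [D.G_lin hρ, D.l_lin hρ]
  simp only [Lin_apply, neg_smul]
  ring

theorem Th_cd (hρ : Mo ρ) : ContDiff ℝ 1 (D.Th ρ id) := by
  have cp := D.p_cont
  have cq := D.q_cont
  rw [contDiff_one_iff_fderiv]
  refine ⟨fun y => (D.Th_deriv hρ contDiff_id y).1, ?_⟩
  have h1 := D.G_cont hρ (k := fun x => conj (D.p x)) (by fun_prop) (conj D.a)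
    (fun x hx => by rw [D.p_off hx])
  have h2 := D.G_cont hρ (k := D.q) (by fun_prop) (D.b)
    (fun x hx => by rw [D.q_off hx])
  have e : fderiv ℝ (D.Th ρ id) = fun y => Lin (D.G ρ (fun x => conj (D.p x)) y
      - (1 / D.J0 : ℝ) • conj D.a) (-D.G ρ D.q y + (1 / D.J0 : ℝ) • D.b) := by
    ext1 y
    exact D.Th_grad hρ y
  rw [e]
  exact Lin_cont.comp (f := fun y => ((D.G ρ (fun x => conj (D.p x)) y
      - (1 / D.J0 : ℝ) • conj D.a), (-D.G ρ D.q y + (1 / D.J0 : ℝ) • D.b))) (by fun_prop)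

theorem Th_cs (hρ : Mo ρ) : HasCompactSupport (D.Th ρ id) := by
  obtain ⟨R, hu, hl⟩ := D.exR
  refine HasCompactSupport.intro (isCompact_closedBall (0 : ℂ) (R + 1)) ?_
  intro y hy
  rw [mem_closedBall, dist_zero_right, not_le] at hy
  exact D.Th_far hρ hu hl hy.le

/-- transfer of quasiconvexity -/
theorem transfer (hρ : Mo ρ) {w : ℂ × ℂ → ℝ}
    (hw : ∀ (F0 : ℂ × ℂ) (f : ℂ → ℂ), ContDiff ℝ 1 f → HasCompactSupport f →
      0 ≤ ∫ z : ℂ, (w (F0 + (dz f z, dzb f z)) - w F0)) :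
    0 ≤ ∫ y : ℂ, (w (D.G ρ (fun x => conj (D.p x)) y, -D.G ρ D.q y)
      - w ((1 / D.J0 : ℝ) • conj D.a, (-(1 / D.J0 : ℝ)) • D.b)) := by
  have h := hw ((1 / D.J0 : ℝ) • conj D.a, (-(1 / D.J0 : ℝ)) • D.b) (D.Th ρ id)
    (D.Th_cd hρ) (D.Th_cs hρ)
  have e : ∀ y, ((1 / D.J0 : ℝ) • conj D.a, (-(1 / D.J0 : ℝ)) • D.b)
      + (dz (D.Th ρ id) y, dzb (D.Th ρ id) y)
      = (D.G ρ (fun x => conj (D.p x)) y, -D.G ρ D.q y) := by
    intro y
    rw [dz_of (D.Th_grad hρ y), dzb_of (D.Th_grad hρ y), Prod.mk_add_mk]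
    congr 1
    · ring
    · rw [neg_smul]; ring
  simp only [e] at h
  exact h

end Dt

end Pool.Agent.TH937.ZC
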